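import Pool.Agent.LibSU9.Defs

/-!
[SU9 A1] (MEDIUM/STRONG; only Mathlib + Defs) Degree-controlled spanning of `A[a_0..a_{N-1}]` by the monomials `a^b`,
`b j < N - j`, modulo the elementary symmetric polynomials.

PLAN. For `m ≤ N` and `k` let `h k m` be the complete homogeneous symmetric polynomial of degree `k` in the variables
`a_0, ..., a_{m-1}` (e.g. the sum of all monomials of degree `k` supported there, or the coefficient of `T^k` in the power
series `∏_{i < m} (1 - a_i T)⁻¹`). For `k > N - m` (`m ≥ 1`):
  `∑_{i=0}^{min k N} (-1)^i e_i(a_0..a_{N-1}) h (k-i) m = 0`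
because the generating series is `∏_{i<N} (1 - a_i T) / ∏_{i<m} (1 - a_i T) = ∏_{m ≤ i < N} (1 - a_i T)`, a polynomial of degree
`N - m`. For `m = j + 1`, `k = N - j`: `h k m = a_j^k + (monomials of degree k in a_0..a_j with a_j-exponent < k)`. So
  (*) `a_j^(N-j) = - (other monomials of h) - ∑_{i ≥ 1} (-1)^i e_i h (N-j-i) (j+1)`, each `e_i *` (degree `N-j-i`).
Now strong induction: it is enough to treat a monomial `a^β` (`C`-multiples and sums are fine: `r` and `q` add up).
Outer induction on the degree `|β|` is not needed; for fixed degree do induction on the exponent vector read from the LAST variable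
(lexicographic, the variable `N-1` most significant; well founded): if `β ∈ SB N` take `r = Pi.single`; otherwise some
`β j ≥ N - j`; multiply (*) by `a^(β - (N-j) ε_j)`: the first group has the same degree, the same exponents at variables `> j` and a
smaller exponent at `j` (so smaller), the second group goes to `q (i-1)` with degree `|β| - i`.
(Instead of the lexicographic order one may use the measure `∑_j (N+1... )`; anything that works: e.g. for fixed degree `D` the
weight `∑_j β_j (D+1)^j` decreases.) An alternative proof by induction on `N` (adjoin one root after the other) is also fine.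
-/

namespace Pool.Agent.LibSU9

open MvPolynomial

private noncomputable def A1_E (N : ℕ) (A : Type) [CommRing A] (j k : ℕ) :
    MvPolynomial (Fin N) A :=
  ∑ s ∈ Finset.powersetCard k (Finset.univ.filter fun i : Fin N => j ≤ i.val), ∏ i ∈ s, X i

private theorem A1_E_zero (N : ℕ) (A : Type) [CommRing A] (k : ℕ) :
    A1_E N A 0 k = esymm (Fin N) A k := by
  unfold A1_E esymm
  simp

private theorem A1_E_k0 (N : ℕ) (A : Type) [CommRing A] (j : ℕ) : A1_E N A j 0 = 1 := by
  simp [A1_E]

private theorem A1_E_top (N : ℕ) (A : Type) [CommRing A] (j k : ℕ) (h : N < j + k) :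
    A1_E N A j k = 0 ∨ N < j := by
  by_cases hj : N < j
  · exact Or.inr hj
  left
  unfold A1_E
  rw [Finset.powersetCard_eq_empty.mpr, Finset.sum_empty]
  have h1 : (Finset.univ.filter fun i : Fin N => j ≤ i.val).card ≤ N - j := by
    have h2 : ((Finset.univ.filter fun i : Fin N => j ≤ i.val).image Fin.val) ⊆
        Finset.Ico j N := by
      intro x hx
      simp only [Finset.mem_image, Finset.mem_filter, Finset.mem_univ, true_and] at hx
      obtain ⟨i, hi, rfl⟩ := hx
      exact Finset.mem_Ico.mpr ⟨hi, i.isLt⟩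
    have h3 := Finset.card_le_card h2
    rw [Finset.card_image_of_injective _ Fin.val_injective, Nat.card_Ico] at h3
    exact h3
  omega

private theorem A1_E_rec (N : ℕ) (A : Type) [CommRing A] (j : ℕ) (hj : j < N) (k : ℕ) :
    A1_E N A j (k + 1) = A1_E N A (j + 1) (k + 1) + X ⟨j, hj⟩ * A1_E N A (j + 1) k := by
  classical
  unfold A1_E
  have hset : (Finset.univ.filter fun i : Fin N => j ≤ i.val) =
      insert ⟨j, hj⟩ (Finset.univ.filter fun i : Fin N => j + 1 ≤ i.val) := by
    ext i
    simp only [Finset.mem_filter, Finset.mem_univ, true_and, Finset.mem_insert, Fin.ext_iff]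
    omega
  have hnot : (⟨j, hj⟩ : Fin N) ∉ (Finset.univ.filter fun i : Fin N => j + 1 ≤ i.val) := by
    simp
  rw [hset, Finset.powersetCard_succ_insert hnot, Finset.sum_union, Finset.sum_image,
    Finset.mul_sum]
  · congr 1
    refine Finset.sum_congr rfl fun s hs => ?_
    rw [Finset.prod_insert]
    intro h
    exact hnot ((Finset.mem_powersetCard.mp hs).1 h)
  · intro s hs t ht h
    have hs' : (⟨j, hj⟩ : Fin N) ∉ s := fun h => hnot ((Finset.mem_powersetCard.mp hs).1 h)
    have ht' : (⟨j, hj⟩ : Fin N) ∉ t := fun h => hnot ((Finset.mem_powersetCard.mp ht).1 h)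
    have h' : insert (⟨j, hj⟩ : Fin N) s = insert (⟨j, hj⟩ : Fin N) t := h
    rw [← Finset.erase_insert hs', ← Finset.erase_insert ht', h']
  · rw [Finset.disjoint_left]
    intro s hs ht
    rw [Finset.mem_image] at ht
    obtain ⟨t, _, rfl⟩ := ht
    exact hnot ((Finset.mem_powersetCard.mp hs).1 (Finset.mem_insert_self _ _))

private theorem A1_E_unroll (N : ℕ) (A : Type) [CommRing A] (j : ℕ) (hj : j < N) (k : ℕ) :
    A1_E N A (j + 1) k = ∑ l ∈ Finset.range (k + 1),
      (-X ⟨j, hj⟩) ^ l * A1_E N A j (k - l) := by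
  induction k with
  | zero => simp [A1_E_k0]
  | succ k ih =>
    have h1 : A1_E N A (j + 1) (k + 1) = A1_E N A j (k + 1) -
        X ⟨j, hj⟩ * A1_E N A (j + 1) k := by
      rw [A1_E_rec N A j hj k]
      ring
    rw [h1, ih, Finset.sum_range_succ' _ (k + 1), pow_zero, one_mul, Nat.sub_zero, Finset.mul_sum]
    have h2 : ∑ l ∈ Finset.range (k + 1), (-X ⟨j, hj⟩) ^ (l + 1) * A1_E N A j (k + 1 - (l + 1)) =
        - ∑ l ∈ Finset.range (k + 1), X ⟨j, hj⟩ * ((-X ⟨j, hj⟩) ^ l * A1_E N A j (k - l)) := by
      rw [← Finset.sum_neg_distrib]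
      refine Finset.sum_congr rfl fun l _ => ?_
      rw [Nat.add_sub_add_right]
      ring
    rw [h2]
    ring

private def A1_I (N : ℕ) (A : Type) [CommRing A] (D : ℕ) : Set (MvPolynomial (Fin N) A) :=
  {g | ∃ (i : Fin N) (q : MvPolynomial (Fin N) A), q.totalDegree + (i.val + 1) ≤ D ∧
    g = esymm (Fin N) A (i.val + 1) * q}

private noncomputable def A1_G (N : ℕ) (A : Type) [CommRing A] (D : ℕ) :
    Submodule A (MvPolynomial (Fin N) A) :=
  Submodule.span A ({g | ∃ b ∈ SB N, b.degree ≤ D ∧ g = monomial b 1} ∪ A1_I N A D)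

private noncomputable def A1_W (N : ℕ) (A : Type) [CommRing A] (k j : ℕ) :
    Submodule A (MvPolynomial (Fin N) A) :=
  Submodule.span A ({g | ∃ b : Fin N →₀ ℕ, b.degree ≤ k ∧
    (∀ i : Fin N, j ≤ i.val → b i = 0) ∧ g = monomial b 1} ∪ A1_I N A k)

private theorem A1_I_mul (N : ℕ) (A : Type) [CommRing A] (k D : ℕ)
    (p g : MvPolynomial (Fin N) A) (hg : g ∈ A1_I N A k) (h : p.totalDegree + k ≤ D) :
    p * g ∈ A1_I N A D := by
  obtain ⟨i, q, hq, rfl⟩ := hg
  refine ⟨i, p * q, ?_, by ring⟩
  have := totalDegree_mul p q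
  omega

private theorem A1_W_mono (N : ℕ) (A : Type) [CommRing A] (k j : ℕ) :
    A1_W N A k j ≤ A1_W N A k (j + 1) := by
  unfold A1_W
  apply Submodule.span_mono
  apply Set.union_subset_union_left
  rintro g ⟨b, hb, hb0, rfl⟩
  exact ⟨b, hb, fun i hi => hb0 i (by omega), rfl⟩

private theorem A1_X_mul_W (N : ℕ) (A : Type) [CommRing A] (k j : ℕ) (hj : j < N)
    (g : MvPolynomial (Fin N) A) (hg : g ∈ A1_W N A k (j + 1)) :
    X ⟨j, hj⟩ * g ∈ A1_W N A (k + 1) (j + 1) := by
  have h : A1_W N A k (j + 1) ≤
      (A1_W N A (k + 1) (j + 1)).comap (LinearMap.mulLeft A (X ⟨j, hj⟩)) := by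
    conv_lhs => unfold A1_W
    rw [Submodule.span_le]
    rintro f (⟨b, hb, hb0, rfl⟩ | hf)
    · change X ⟨j, hj⟩ * monomial b 1 ∈ A1_W N A (k + 1) (j + 1)
      refine Submodule.subset_span (Or.inl ⟨Finsupp.single ⟨j, hj⟩ 1 + b, ?_, ?_, ?_⟩)
      · rw [map_add, Finsupp.degree_single]
        omega
      · intro i hi
        rw [Finsupp.add_apply, hb0 i hi, Finsupp.single_apply, if_neg]
        intro h
        rw [← h] at hi
        simp at hi
      · rw [X, monomial_mul, one_mul]
    · change X ⟨j, hj⟩ * f ∈ A1_W N A (k + 1) (j + 1)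
      refine Submodule.subset_span (Or.inr ?_)
      refine A1_I_mul N A k (k + 1) _ f hf ?_
      have h1 : (X ⟨j, hj⟩ : MvPolynomial (Fin N) A).totalDegree ≤
          (Finsupp.single (⟨j, hj⟩ : Fin N) 1).degree := totalDegree_monomial_le _ _
      rw [Finsupp.degree_single] at h1
      omega
  exact h hg

private theorem A1_E_mem (N : ℕ) (A : Type) [CommRing A] (j : ℕ) (hj : j ≤ N) :
    ∀ k, A1_E N A j k ∈ A1_W N A k j := by
  induction j with
  | zero =>
    intro k
    rcases Nat.eq_zero_or_pos k with rfl | hk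
    · rw [A1_E_k0]
      exact Submodule.subset_span (Or.inl ⟨0, by simp, by simp, by simp⟩)
    · by_cases hkN : k ≤ N
      · refine Submodule.subset_span (Or.inr ⟨⟨k - 1, by omega⟩, 1, ?_, ?_⟩)
        · rw [totalDegree_one]
          simp only
          omega
        · rw [A1_E_zero, mul_one]
          simp only
          congr 1
          omega
      · rcases A1_E_top N A 0 k (by omega) with h | h
        · rw [h]
          exact Submodule.zero_mem _
        · omega
  | succ j ih =>
    intro k
    induction k with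
    | zero =>
      rw [A1_E_k0]
      exact Submodule.subset_span (Or.inl ⟨0, by simp, by simp, by simp⟩)
    | succ k ihk =>
      have h1 : A1_E N A (j + 1) (k + 1) = A1_E N A j (k + 1) -
          X ⟨j, hj⟩ * A1_E N A (j + 1) k := by
        rw [A1_E_rec N A j hj k]
        ring
      rw [h1]
      refine Submodule.sub_mem _ (A1_W_mono N A _ _ (ih (by omega) _)) ?_
      exact A1_X_mul_W N A k j hj _ ihk

private theorem A1_main (N : ℕ) (A : Type) [CommRing A] (m : ℕ) (hm : m ≤ N) :
    ∀ (D : ℕ) (β : Fin N →₀ ℕ), β.degree ≤ D → (∀ i : Fin N, m ≤ i.val → β i < N - i.val) →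
      (monomial β 1 : MvPolynomial (Fin N) A) ∈ A1_G N A D := by
  induction m with
  | zero =>
    intro D β hβ h
    exact Submodule.subset_span (Or.inl ⟨β, mem_SB.mpr fun j => h j (Nat.zero_le _), hβ, rfl⟩)
  | succ m ih =>
    have ih' := ih (by omega)
    clear ih
    suffices H : ∀ (n D : ℕ) (β : Fin N →₀ ℕ), β ⟨m, hm⟩ = n → β.degree ≤ D →
        (∀ i : Fin N, m + 1 ≤ i.val → β i < N - i.val) →
        (monomial β 1 : MvPolynomial (Fin N) A) ∈ A1_G N A D by
      intro D β hβ h
      exact H _ D β rfl hβ h
    intro n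
    induction n using Nat.strong_induction_on with
    | _ n ihn =>
    intro D β hn hβ h
    by_cases hlt : β ⟨m, hm⟩ < N - m
    · refine ih' D β hβ fun i hi => ?_
      by_cases him : i.val = m
      · have : i = ⟨m, hm⟩ := Fin.ext him
        rw [this]
        exact hlt
      · exact h i (by omega)
    have hge : N - m ≤ β ⟨m, hm⟩ := not_lt.mp hlt
    obtain ⟨β', hβ'⟩ : ∃ β' : Fin N →₀ ℕ, β = β' + Finsupp.single ⟨m, hm⟩ (N - m) := by
      refine ⟨β - Finsupp.single ⟨m, hm⟩ (N - m), ?_⟩
      rw [tsub_add_cancel_of_le]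
      exact Finsupp.single_le_iff.mpr hge
    have hdeg : β'.degree + (N - m) ≤ D := by
      rw [hβ', map_add, Finsupp.degree_single] at hβ
      exact hβ
    have hm' : β' ⟨m, hm⟩ + (N - m) = n := by
      rw [← hn, hβ', Finsupp.add_apply, Finsupp.single_eq_same]
    have hoth : ∀ i : Fin N, m + 1 ≤ i.val → β' i < N - i.val := by
      intro i hi
      have h1 := h i hi
      rw [hβ', Finsupp.add_apply] at h1
      omega
    have hrel : (0 : MvPolynomial (Fin N) A) = ∑ l ∈ Finset.range (N - m + 1),
        (-X ⟨m, hm⟩) ^ l * A1_E N A m (N - m - l) := by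
      rw [← A1_E_unroll N A m hm (N - m)]
      rcases A1_E_top N A (m + 1) (N - m) (by omega) with h | h
      · exact h.symm
      · omega
    rw [Finset.sum_range_succ, Nat.sub_self, A1_E_k0, mul_one] at hrel
    have hpow : ((X ⟨m, hm⟩ : MvPolynomial (Fin N) A)) ^ (N - m) =
        ∑ l ∈ Finset.range (N - m), ((-1) ^ (N - m) * (-1) * (-1) ^ l : A) •
          (X ⟨m, hm⟩ ^ l * A1_E N A m (N - m - l)) := by
      have h1 : (-X ⟨m, hm⟩ : MvPolynomial (Fin N) A) ^ (N - m) =
          - ∑ l ∈ Finset.range (N - m), (-X ⟨m, hm⟩) ^ l * A1_E N A m (N - m - l) := by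
        rw [eq_neg_iff_add_eq_zero, add_comm]
        exact hrel.symm
      have h2 : ((X ⟨m, hm⟩ : MvPolynomial (Fin N) A)) ^ (N - m) =
          (-1) ^ (N - m) * (-X ⟨m, hm⟩ : MvPolynomial (Fin N) A) ^ (N - m) := by
        rw [← mul_pow]
        congr 1
        ring
      rw [h2, h1, mul_neg, ← neg_mul, Finset.mul_sum]
      refine Finset.sum_congr rfl fun l _ => ?_
      rw [Algebra.smul_def]
      simp only [map_mul, map_pow, map_neg, map_one]
      rw [neg_pow (X ⟨m, hm⟩ : MvPolynomial (Fin N) A) l]
      ring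
    have hmon : (monomial β 1 : MvPolynomial (Fin N) A) =
        ∑ l ∈ Finset.range (N - m), ((-1) ^ (N - m) * (-1) * (-1) ^ l : A) •
          (monomial (β' + Finsupp.single ⟨m, hm⟩ l) 1 * A1_E N A m (N - m - l)) := by
      have h1 : (monomial β 1 : MvPolynomial (Fin N) A) =
          monomial β' 1 * X ⟨m, hm⟩ ^ (N - m) := by
        rw [X_pow_eq_monomial, monomial_mul, one_mul, hβ']
      rw [h1, hpow, Finset.mul_sum]
      refine Finset.sum_congr rfl fun l _ => ?_
      rw [mul_smul_comm, ← mul_assoc, X_pow_eq_monomial, monomial_mul, one_mul]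
    rw [hmon]
    refine Submodule.sum_mem _ fun l hl => Submodule.smul_mem _ _ ?_
    have hl' : l < N - m := Finset.mem_range.mp hl
    have hle : A1_W N A (N - m - l) m ≤ (A1_G N A D).comap
        (LinearMap.mulLeft A (monomial (β' + Finsupp.single ⟨m, hm⟩ l) 1)) := by
      unfold A1_W
      rw [Submodule.span_le]
      rintro f (⟨b, hb, hb0, rfl⟩ | hf)
      · change monomial (β' + Finsupp.single ⟨m, hm⟩ l) 1 * monomial b 1 ∈ A1_G N A D
        rw [monomial_mul, one_mul]
        have hb0m : b ⟨m, hm⟩ = 0 := hb0 ⟨m, hm⟩ le_rfl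
        refine ihn (β' ⟨m, hm⟩ + l) (by omega) D _ ?_ ?_ ?_
        · rw [Finsupp.add_apply, Finsupp.add_apply, Finsupp.single_eq_same, hb0m, add_zero]
        · rw [map_add, map_add, Finsupp.degree_single]
          omega
        · intro i hi
          rw [Finsupp.add_apply, Finsupp.add_apply, hb0 i (by omega), Finsupp.single_apply, if_neg]
          · have := hoth i hi
            omega
          · intro h
            rw [← h] at hi
            simp at hi
      · change monomial (β' + Finsupp.single ⟨m, hm⟩ l) 1 * f ∈ A1_G N A D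
        refine Submodule.subset_span (Or.inr ?_)
        refine A1_I_mul N A _ D _ f hf ?_
        have h1 : (monomial (β' + Finsupp.single (⟨m, hm⟩ : Fin N) l) (1 : A)).totalDegree ≤
            (β' + Finsupp.single (⟨m, hm⟩ : Fin N) l).degree := totalDegree_monomial_le _ _
        have h2 : (β' + Finsupp.single (⟨m, hm⟩ : Fin N) l).degree = β'.degree + l := by
          rw [map_add, Finsupp.degree_single]
        omega
    exact hle (A1_E_mem N A m (by omega) _)


theorem stair_span (N : ℕ) (A : Type) [CommRing A] (D : ℕ) (f : MvPolynomial (Fin N) A)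
    (hf : f.totalDegree ≤ D) :
    ∃ (r : (Fin N →₀ ℕ) → A) (q : Fin N → MvPolynomial (Fin N) A),
      (∀ b, r b ≠ 0 → b.degree ≤ D) ∧
      (∀ i, q i ≠ 0 → (q i).totalDegree + (i.val + 1) ≤ D) ∧
      f = ∑ b ∈ SB N, monomial b (r b) + ∑ i, esymm (Fin N) A (i.val + 1) * q i := by
  classical
  have hG : f ∈ A1_G N A D := by
    rw [f.as_sum]
    refine Submodule.sum_mem _ fun β hβ => ?_
    have h1 : (monomial β (coeff β f) : MvPolynomial (Fin N) A) =
        coeff β f • monomial β 1 := by
      rw [smul_monomial, smul_eq_mul, mul_one]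
    rw [h1]
    refine Submodule.smul_mem _ _ (A1_main N A N le_rfl D β ?_ ?_)
    · exact (le_totalDegree hβ).trans hf
    · intro i hi
      exact absurd i.isLt (not_lt.mpr hi)
  unfold A1_G at hG
  clear hf
  induction hG using Submodule.span_induction with
  | mem g hg =>
    rcases hg with ⟨b, hb, hbD, rfl⟩ | ⟨i, q, hq, rfl⟩
    · refine ⟨fun b' => if b' = b then 1 else 0, fun _ => 0, ?_, ?_, ?_⟩
      · intro b' hb'
        by_cases h : b' = b
        · rw [h]
          exact hbD
        · simp [h] at hb'
      · intro i hi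
        exact absurd rfl hi
      · rw [Finset.sum_eq_single b]
        · simp
        · intro b' _ hb'
          simp [hb']
        · intro h
          exact absurd hb h
    · refine ⟨fun _ => 0, fun i' => if i' = i then q else 0, ?_, ?_, ?_⟩
      · intro b' hb'
        exact absurd rfl hb'
      · intro i' hi'
        by_cases h : i' = i
        · rw [h]
          simpa using hq
        · simp [h] at hi'
      · rw [Finset.sum_eq_single i (f := fun i' : Fin N => esymm (Fin N) A (i'.val + 1) *
          (if i' = i then q else 0))]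
        · simp
        · intro i' _ hi'
          simp [hi']
        · intro h
          exact absurd (Finset.mem_univ _) h
  | zero =>
    exact ⟨fun _ => 0, fun _ => 0, fun b hb => absurd rfl hb, fun i hi => absurd rfl hi, by simp⟩
  | add g g' _ _ ih ih' =>
    obtain ⟨r, q, hr, hq, h⟩ := ih
    obtain ⟨r', q', hr', hq', h'⟩ := ih'
    refine ⟨fun b => r b + r' b, fun i => q i + q' i, ?_, ?_, ?_⟩
    · intro b hb
      by_cases h0 : r b = 0
      · refine hr' b fun h1 => hb ?_
        simp [h0, h1]
      · exact hr b h0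
    · intro i hi
      by_cases h0 : q i = 0
      · by_cases h1 : q' i = 0
        · exact absurd (by simp [h0, h1]) hi
        · have := hq' i h1
          simpa [h0] using this
      · by_cases h1 : q' i = 0
        · have := hq i h0
          simpa [h1] using this
        · have h2 := hq i h0
          have h3 := hq' i h1
          have h4 := totalDegree_add (q i) (q' i)
          have h5 : max (q i).totalDegree (q' i).totalDegree + (i.val + 1) ≤ D := by
            rcases max_choice (q i).totalDegree (q' i).totalDegree with h6 | h6 <;> rw [h6] <;>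
              assumption
          change (q i + q' i).totalDegree + (i.val + 1) ≤ D
          omega
    · rw [h, h']
      simp only [map_add, mul_add, Finset.sum_add_distrib]
      ring
  | smul a g _ ih =>
    obtain ⟨r, q, hr, hq, h⟩ := ih
    refine ⟨fun b => a * r b, fun i => a • q i, ?_, ?_, ?_⟩
    · intro b hb
      refine hr b fun h0 => hb ?_
      simp [h0]
    · intro i hi
      have h0 : q i ≠ 0 := fun h0 => hi (by simp [h0])
      have h1 := hq i h0
      have h2 := totalDegree_smul_le a (q i)
      change (a • q i).totalDegree + (i.val + 1) ≤ D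
      omega
    · rw [h, smul_add, Finset.smul_sum, Finset.smul_sum]
      congr 1
      · refine Finset.sum_congr rfl fun b _ => ?_
        rw [smul_monomial, smul_eq_mul]
      · refine Finset.sum_congr rfl fun i _ => ?_
        rw [mul_smul_comm]

end Pool.Agent.LibSU9
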