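import Pool.Agent.LibSU9.A1

/-!
[SU9 A2] (MEDIUM/STRONG; may cite `stair_span` of A1 as stated) The monomials of `SB N` are independent over the symmetric polynomials.

PLAN. `P = MvPolynomial (Fin N) A` (`A` a field), `L = FractionRing P`, `G = Equiv.Perm (Fin N)` acts on `P` (rename) and on `L`
faithfully; `E` = fixed field. Artin: `[L : E] = |G| = N!` (Mathlib: `FixedPoints.finrank_eq_card`, or
`IntermediateField.finrank_fixedField_eq_card`). `SB N` has `N!` elements (`card_SB`). The monomials of `SB N` span `L` over `E`: by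
`stair_span` and induction on the degree every `f : P` is a combination of them with coefficients polynomials in the `esymm`
(the `q i` have smaller degree), in particular coefficients in `E`; and every element of `L` is `u / v = (u ∏_{τ ≠ 1} τ v) / ∏_τ τ v` with
denominator in `E`. A spanning family of cardinality `finrank` is linearly independent (`linearIndependent_of_top_le_span_of_card_eq_finrank`).
So all `aeval esymm (p b) = 0` in `L`, hence in `P`, and `p b = 0` by the algebraic independence of the elementary symmetric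
polynomials (Mathlib: `MvPolynomial.esymmAlgHom_injective` / `MvPolynomial.esymmAlgEquiv`, file
`Mathlib/RingTheory/MvPolynomial/Symmetric/FundamentalTheorem.lean`).
-/

namespace Pool.Agent.LibSU9
open MvPolynomial

private noncomputable def A2_psi (N : ℕ) (A : Type) [Field A] :
    Equiv.Perm (Fin N) →* (MvPolynomial (Fin N) A ≃ₐ[A] MvPolynomial (Fin N) A) where
  toFun σ := renameEquiv A σ
  map_one' := by
    ext i
    simp
  map_mul' σ τ := by
    ext i
    simp

private noncomputable def A2_phi (N : ℕ) (A : Type) [Field A] :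
    Equiv.Perm (Fin N) →* (FractionRing (MvPolynomial (Fin N) A) ≃ₐ[A]
      FractionRing (MvPolynomial (Fin N) A)) :=
  (IsFractionRing.fieldEquivOfAlgEquivHom A (FractionRing (MvPolynomial (Fin N) A))).comp
    (A2_psi N A)

private theorem A2_phi_alg (N : ℕ) (A : Type) [Field A] (σ : Equiv.Perm (Fin N))
    (f : MvPolynomial (Fin N) A) :
    A2_phi N A σ (algebraMap _ (FractionRing (MvPolynomial (Fin N) A)) f) =
      algebraMap _ (FractionRing (MvPolynomial (Fin N) A)) (rename σ f) := by
  unfold A2_phi
  rw [MonoidHom.comp_apply, IsFractionRing.fieldEquivOfAlgEquivHom_apply,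
    IsFractionRing.fieldEquivOfAlgEquiv_algebraMap]
  rfl

private theorem A2_inj (N : ℕ) (A : Type) [Field A] : Function.Injective (A2_phi N A) := by
  intro σ τ h
  ext i
  have h1 := A2_phi_alg N A σ (X i)
  have h2 := A2_phi_alg N A τ (X i)
  rw [h, h2, rename_X, rename_X] at h1
  have h3 := IsFractionRing.injective (MvPolynomial (Fin N) A)
    (FractionRing (MvPolynomial (Fin N) A)) h1
  exact congrArg Fin.val (X_injective h3).symm

/-- the action of the symmetric group on the field of fractions -/
@[reducible] private noncomputable def A2_act (N : ℕ) (A : Type) [Field A] :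
    MulSemiringAction (Equiv.Perm (Fin N)) (FractionRing (MvPolynomial (Fin N) A)) :=
  MulSemiringAction.compHom _ (A2_phi N A)

theorem stair_indep (N : ℕ) (A : Type) [Field A] (p : (Fin N →₀ ℕ) → MvPolynomial (Fin N) A)
    (h : ∑ b ∈ SB N, aeval (fun i : Fin N => esymm (Fin N) A (i.val + 1)) (p b) *
      monomial b (1 : A) = 0) : ∀ b ∈ SB N, p b = 0 := by
  classical
  let act := A2_act N A
  have hact : ∀ (σ : Equiv.Perm (Fin N)) (x : FractionRing (MvPolynomial (Fin N) A)),
      σ • x = A2_phi N A σ x := fun _ _ => rfl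
  have hfaith : FaithfulSMul (Equiv.Perm (Fin N)) (FractionRing (MvPolynomial (Fin N) A)) := by
    refine ⟨fun {σ τ} hst => A2_inj N A ?_⟩
    ext x
    exact hst x
  have hrank := FixedPoints.finrank_eq_card (Equiv.Perm (Fin N))
    (FractionRing (MvPolynomial (Fin N) A))
  rw [Fintype.card_perm, Fintype.card_fin] at hrank
  let ι := algebraMap (MvPolynomial (Fin N) A) (FractionRing (MvPolynomial (Fin N) A))
  have hι : Function.Injective ι := IsFractionRing.injective _ _
  -- symmetric polynomials are fixed
  have hfix : ∀ f : MvPolynomial (Fin N) A, f.IsSymmetric →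
      ι f ∈ FixedPoints.subfield (Equiv.Perm (Fin N)) (FractionRing (MvPolynomial (Fin N) A)) := by
    intro f hf σ
    rw [hact, A2_phi_alg, hf σ]
  let v : SB N → FractionRing (MvPolynomial (Fin N) A) := fun b => ι (monomial b.1 (1 : A))
  let S := Submodule.span (FixedPoints.subfield (Equiv.Perm (Fin N))
    (FractionRing (MvPolynomial (Fin N) A))) (Set.range v)
  have hmulS : ∀ (f : MvPolynomial (Fin N) A) (x : FractionRing (MvPolynomial (Fin N) A)),
      f.IsSymmetric → x ∈ S → ι f * x ∈ S := by
    intro f x hf hx
    have := S.smul_mem (⟨ι f, hfix f hf⟩ : FixedPoints.subfield (Equiv.Perm (Fin N))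
      (FractionRing (MvPolynomial (Fin N) A))) hx
    exact this
  have hpoly : ∀ D : ℕ, ∀ f : MvPolynomial (Fin N) A, f.totalDegree ≤ D → ι f ∈ S := by
    intro D
    induction D using Nat.strong_induction_on with
    | _ D ih =>
      intro f hf
      obtain ⟨r, q, _, hq, hfe⟩ := stair_span N A D f hf
      rw [hfe, map_add, map_sum, map_sum]
      refine S.add_mem (S.sum_mem fun b hb => ?_) (S.sum_mem fun i _ => ?_)
      · have e1 : monomial b (r b) = C (r b) * monomial b (1 : A) := by
          rw [C_mul_monomial, mul_one]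
        rw [e1, map_mul]
        exact hmulS _ _ (IsSymmetric.C _) (Submodule.subset_span ⟨⟨b, hb⟩, rfl⟩)
      · rw [map_mul]
        refine hmulS _ _ (esymm_isSymmetric _ _ _) ?_
        by_cases h0 : q i = 0
        · rw [h0, map_zero]
          exact S.zero_mem
        · have h1 := hq i h0
          exact ih (q i).totalDegree (by omega) (q i) le_rfl
  have htop : ⊤ ≤ S := by
    intro x _
    obtain ⟨u, w, hw, rfl⟩ := IsFractionRing.div_surjective (A := MvPolynomial (Fin N) A) x
    have hw0 : w ≠ 0 := nonZeroDivisors.ne_zero hw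
    let d : MvPolynomial (Fin N) A := ∏ σ : Equiv.Perm (Fin N), rename σ w
    have hd : d.IsSymmetric := by
      intro τ
      simp only [d]
      rw [map_prod]
      refine Fintype.prod_equiv (Equiv.mulLeft τ) _ _ fun σ => ?_
      rw [rename_rename]
      rfl
    have hd0 : d ≠ 0 := by
      refine Finset.prod_ne_zero_iff.2 fun σ _ => ?_
      intro h0
      exact hw0 (rename_injective _ σ.injective (by rw [h0, map_zero]))
    obtain ⟨w', hw'⟩ : w ∣ d := by
      have h1 := Finset.dvd_prod_of_mem (fun σ : Equiv.Perm (Fin N) => rename σ w)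
        (Finset.mem_univ 1)
      have h2 : rename ((1 : Equiv.Perm (Fin N)) : Fin N → Fin N) w = w := by
        rw [Equiv.Perm.coe_one, rename_id_apply]
      rwa [h2] at h1
    have e1 : algebraMap (MvPolynomial (Fin N) A) (FractionRing (MvPolynomial (Fin N) A)) u /
        algebraMap (MvPolynomial (Fin N) A) (FractionRing (MvPolynomial (Fin N) A)) w =
        (ι d)⁻¹ * ι (u * w') := by
      have hw1 : ι w ≠ 0 := fun h0 => hw0 (hι (by rw [h0, map_zero]))
      have hd1 : ι d ≠ 0 := fun h0 => hd0 (hι (by rw [h0, map_zero]))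
      change ι u / ι w = _
      rw [map_mul, div_eq_iff hw1, eq_comm, inv_mul_eq_div, div_mul_eq_mul_div, div_eq_iff hd1, hw',
        map_mul]
      ring
    rw [e1]
    have h3 := S.smul_mem (⟨ι d, hfix d hd⟩ : FixedPoints.subfield (Equiv.Perm (Fin N))
      (FractionRing (MvPolynomial (Fin N) A)))⁻¹ (hpoly _ (u * w') le_rfl)
    exact h3
  have hli : LinearIndependent (FixedPoints.subfield (Equiv.Perm (Fin N))
      (FractionRing (MvPolynomial (Fin N) A))) v := by
    refine linearIndependent_of_top_le_span_of_card_eq_finrank htop ?_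
    rw [hrank, Fintype.card_coe, card_SB]
  -- the relation
  have hsym : ∀ b, (aeval (fun i : Fin N => esymm (Fin N) A (i.val + 1)) (p b)).IsSymmetric := by
    intro b
    rw [← esymmAlgHom_apply]
    exact (esymmAlgHom (Fin N) A N (p b)).2
  have hrel : ∑ b : SB N, (⟨ι (aeval (fun i : Fin N => esymm (Fin N) A (i.val + 1)) (p b.1)),
      hfix _ (hsym b.1)⟩ : FixedPoints.subfield (Equiv.Perm (Fin N))
      (FractionRing (MvPolynomial (Fin N) A))) • v b = 0 := by
    have h1 := congrArg ι h
    rw [map_zero, map_sum, ← Finset.sum_coe_sort] at h1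
    rw [← h1]
    refine Finset.sum_congr rfl fun b _ => ?_
    rw [map_mul]
    rfl
  intro b hb
  have h2 := Fintype.linearIndependent_iff.1 hli _ hrel ⟨b, hb⟩
  have h3 : ι (aeval (fun i : Fin N => esymm (Fin N) A (i.val + 1)) (p b)) = 0 :=
    congrArg Subtype.val h2
  have h4 : aeval (fun i : Fin N => esymm (Fin N) A (i.val + 1)) (p b) = 0 :=
    hι (by rw [h3, map_zero])
  rw [← esymmAlgHom_apply] at h4
  have h5 : esymmAlgHom (Fin N) A N (p b) = 0 := Subtype.ext h4
  exact esymmAlgHom_injective (R := A) (σ := Fin N) (n := N) (by rw [Fintype.card_fin])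
    (by rw [h5, map_zero])

end Pool.Agent.LibSU9
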