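import Pool.Agent.LibSU9.A2

/-!
[SU9 A3] (MEDIUM; `stair_affine` is only Mathlib + Defs; `stair_gt` from A1, A2) Affine change of the `g i`.

PLAN. span: induction on `D` (strong): take `r, q` for `g`; `g i * q i = (C (u i) * g i - C (k i)) * (C (u i)⁻¹ * q i) + C (k i * (u i)⁻¹) * q i`
and `q i` has totalDegree `≤ D - (i+1)`: apply the induction hypothesis to `∑_i C (k i * (u i)⁻¹) * q i` (totalDegree `≤ D - 1`; if `D = 0` all
`q i = 0`), add up. indep: for `p` over the new family let `p' b = bind₁ (fun i => C (u i) * X i - C (k i)) (p b)`; then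
`aeval g (p' b) = aeval g' (p b)`, so `p' b = 0`, and `bind₁` of an affine invertible substitution is injective.
`stair_gt`: `gt b i = C u * esymm (i+1) - C k` with `u = (-1)^(i+1)` a unit.
-/

namespace Pool.Agent.LibSU9

open MvPolynomial

private theorem A3_deg {N : ℕ} {A : Type} [CommRing A] (c : A) (q : MvPolynomial (Fin N) A) :
    (C c * q).totalDegree ≤ q.totalDegree := by
  refine (totalDegree_mul _ _).trans ?_
  rw [totalDegree_C, zero_add]

private theorem A3_span {N : ℕ} {A : Type} [CommRing A] {g : Fin N → MvPolynomial (Fin N) A}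
    {B : Finset (Fin N →₀ ℕ)} (h : Stair N A g B) (u : Fin N → Aˣ) (k : Fin N → A) (D : ℕ) :
    ∀ f : MvPolynomial (Fin N) A, f.totalDegree ≤ D →
    ∃ (r : (Fin N →₀ ℕ) → A) (q : Fin N → MvPolynomial (Fin N) A),
      (∀ b, r b ≠ 0 → b.degree ≤ D) ∧
      (∀ i, q i ≠ 0 → (q i).totalDegree + (i.val + 1) ≤ D) ∧
      f = ∑ b ∈ B, monomial b (r b) + ∑ i, (C (u i : A) * g i - C (k i)) * q i := by
  induction D with
  | zero =>
    intro f hf
    obtain ⟨r, q, hr, hq, hfe⟩ := h.span 0 f hf
    have hq0 : ∀ i, q i = 0 := by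
      intro i
      by_contra hne
      have := hq i hne
      omega
    refine ⟨r, fun _ => 0, hr, fun i hi => absurd rfl hi, ?_⟩
    rw [hfe]
    simp [hq0]
  | succ D ih =>
    intro f hf
    obtain ⟨r, q, hr, hq, hfe⟩ := h.span (D + 1) f hf
    have hf' : (∑ i, C (k i * ((u i)⁻¹ : Aˣ)) * q i).totalDegree ≤ D := by
      refine totalDegree_finsetSum_le fun i _ => ?_
      by_cases hi : q i = 0
      · rw [hi, mul_zero, totalDegree_zero]
        exact Nat.zero_le _
      · have := hq i hi
        exact (A3_deg _ _).trans (by omega)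
    obtain ⟨r', q', hr', hq', hfe'⟩ := ih _ hf'
    refine ⟨fun b => r b + r' b, fun i => C (((u i)⁻¹ : Aˣ) : A) * q i + q' i, ?_, ?_, ?_⟩
    · intro b hb
      change r b + r' b ≠ 0 at hb
      by_cases h1 : r b = 0
      · have h2 : r' b ≠ 0 := by
          intro h2
          exact hb (by rw [h1, h2, add_zero])
        exact (hr' b h2).trans (by omega)
      · exact hr b h1
    · intro i hi
      change C (((u i)⁻¹ : Aˣ) : A) * q i + q' i ≠ 0 at hi
      change (C (((u i)⁻¹ : Aˣ) : A) * q i + q' i).totalDegree + (i.val + 1) ≤ D + 1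
      have h0 : i.val + 1 ≤ D + 1 := by
        by_cases h1 : q i = 0
        · have h2 : q' i ≠ 0 := by
            intro h2
            exact hi (by rw [h1, h2, mul_zero, add_zero])
          have := hq' i h2
          omega
        · have := hq i h1
          omega
      have h1 : (C (((u i)⁻¹ : Aˣ) : A) * q i).totalDegree + (i.val + 1) ≤ D + 1 := by
        by_cases h1 : q i = 0
        · rw [h1, mul_zero, totalDegree_zero]
          omega
        · have h2 := hq i h1
          have h3 := A3_deg (((u i)⁻¹ : Aˣ) : A) (q i)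
          omega
      have h2 : (q' i).totalDegree + (i.val + 1) ≤ D + 1 := by
        by_cases h1 : q' i = 0
        · rw [h1, totalDegree_zero]
          omega
        · have h2 := hq' i h1
          omega
      have h3 := totalDegree_add (C (((u i)⁻¹ : Aˣ) : A) * q i) (q' i)
      rcases le_max_iff.1 h3 with h4 | h4 <;> omega
    · have h1 : ∀ i, g i * q i = (C (u i : A) * g i - C (k i)) * (C (((u i)⁻¹ : Aˣ) : A) * q i) +
          C (k i * ((u i)⁻¹ : Aˣ)) * q i := by
        intro i
        have h2 : (C (u i : A) : MvPolynomial (Fin N) A) * C (((u i)⁻¹ : Aˣ) : A) = 1 := by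
          rw [← C_mul, Units.mul_inv, C_1]
        rw [C_mul]
        calc g i * q i = (C (u i : A) * C (((u i)⁻¹ : Aˣ) : A)) * (g i * q i) := by rw [h2, one_mul]
          _ = _ := by ring
      rw [hfe, Finset.sum_congr rfl fun i _ => h1 i, Finset.sum_add_distrib, hfe']
      simp only [map_add, mul_add, Finset.sum_add_distrib]
      ring

theorem stair_affine {N : ℕ} {A : Type} [CommRing A] {g : Fin N → MvPolynomial (Fin N) A}
    {B : Finset (Fin N →₀ ℕ)} (h : Stair N A g B) (u : Fin N → Aˣ) (k : Fin N → A) :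
    Stair N A (fun i => C (u i : A) * g i - C (k i)) B := by
  refine ⟨fun D f hf => A3_span h u k D f hf, fun p hp b hb => ?_⟩
  have h1 : ∀ b, aeval g (bind₁ (fun i => (C (u i : A) * X i - C (k i) : MvPolynomial (Fin N) A)) (p b)) =
      aeval (fun i => C (u i : A) * g i - C (k i)) (p b) := by
    intro b
    rw [aeval_bind₁]
    congr 1
    congr 1
    funext i
    rw [map_sub, map_mul, aeval_X, algHom_C, algHom_C]
    rfl
  have h2 := h.indep (fun b => bind₁ (fun i => (C (u i : A) * X i - C (k i) : MvPolynomial (Fin N) A)) (p b)) (by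
    simp only [h1]
    exact hp) b hb
  have h3 : bind₁ (fun i => (C (((u i)⁻¹ : Aˣ) : A) * (X i + C (k i)) : MvPolynomial (Fin N) A))
      (bind₁ (fun i => (C (u i : A) * X i - C (k i) : MvPolynomial (Fin N) A)) (p b)) = p b := by
    rw [bind₁_bind₁]
    have h4 : (fun i => bind₁ (fun i => (C (((u i)⁻¹ : Aˣ) : A) * (X i + C (k i)) : MvPolynomial (Fin N) A))
        (C (u i : A) * X i - C (k i))) = X := by
      funext i
      rw [map_sub, map_mul, bind₁_X_right, bind₁_C_right, bind₁_C_right, ← mul_assoc, ← C_mul,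
        Units.mul_inv, C_1, one_mul, add_sub_cancel_right]
    rw [h4, bind₁_X_left]
    rfl
  change p b = 0
  rw [← h3, h2, map_zero]

theorem stair_gt {N : ℕ} {A : Type} [Field A] (b : Fin N → A) : Stair N A (gt b) (SB N) := by
  have h : Stair N A (fun i : Fin N => esymm (Fin N) A (i.val + 1)) (SB N) :=
    ⟨fun D f hf => stair_span N A D f hf, fun p hp => stair_indep N A p hp⟩
  have h1 := stair_affine h (fun i => (-1 : Aˣ) ^ (i.val + 1))
    (fun i => (-1) ^ (i.val + 1) * eval b (esymm (Fin N) A (i.val + 1)))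
  have h2 : gt b = fun i : Fin N => C ((((-1 : Aˣ) ^ (i.val + 1) : Aˣ)) : A) * esymm (Fin N) A (i.val + 1) -
      C ((-1) ^ (i.val + 1) * eval b (esymm (Fin N) A (i.val + 1))) := by
    funext i
    unfold gt
    rw [Units.val_pow_eq_pow_val, Units.val_neg, Units.val_one]
  rw [h2]
  exact h1

end Pool.Agent.LibSU9
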