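import Pool.Agent.LibSU9.Defs

/-!
[SU9 A4] (MEDIUM/STRONG; only Mathlib + Defs) Perturbation: the staircase property lifts from the residue field of a discrete valuation ring.

PLAN. `R` a DVR with uniformizer `z`, `π : R → Ω` surjective onto a field, so `ker π = (z)` = the maximal ideal.
SPAN. Fix `D`. `P_D` = the `R`-submodule of polynomials of totalDegree `≤ D` (finitely generated: `MvPolynomial.restrictTotalDegree`,
finite because finitely many monomials). `W` = the submodule of all `f` having the wanted form with this `D`
(`W ≤ P_D` because `(g i).totalDegree ≤ i + 1`; and `W` is a submodule: sums of `r`, `q`). Claim `P_D ≤ W ⊔ z • P_D`: for `f ∈ P_D` take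
`r̄, q̄` over `Ω` for `map π f`; lift `r̄` and `q̄` coefficientwise (choose a set-theoretic section `s` of `π` with `s 0 = 0`; the
lift of `q̄ i` has the same support, so the same totalDegree, and is `0` if `q̄ i = 0`); the difference
`f - ∑ monomial b (r b) - ∑ g i * q i` is in `P_D` and maps to `0`, so all its coefficients are divisible by `z`: it is `z • f'`, `f' ∈ P_D`.
Nakayama (`Submodule.le_of_le_smul_of_le_jacobson_bot`, `z ∈` jacobson): `P_D ≤ W`.
INDEP. If `∑_{b ∈ B} aeval g (p b) * monomial b 1 = 0` and not all `p b = 0` (`b ∈ B`): only finitely many coefficients are involved; divide by the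
largest power `z^m` dividing all coefficients of all `p b`, `b ∈ B` (`R[a]` has no `z`-torsion, the left side is linear in `p`):
so WLOG some coefficient of some `p b`, `b ∈ B`, is not divisible by `z`. Apply `map π`: `∑ aeval (map π g) (map π (p b)) * monomial b 1 = 0`, so
`map π (p b) = 0` for all `b ∈ B`, contradiction. (Or: induction showing that `z^m` divides all of them for every `m`, and
`⋂ (z^m) = 0`.)
-/

namespace Pool.Agent.LibSU9

open MvPolynomial

private theorem A4_ker {R Ω : Type} [CommRing R] [IsDomain R] [IsDiscreteValuationRing R] [Field Ω]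
    (π : R →+* Ω) (hπ : Function.Surjective π) : ∃ z : R, Irreducible z ∧ z ∈ IsLocalRing.maximalIdeal R ∧
      ∀ r, π r = 0 ↔ z ∣ r := by
  obtain ⟨z, hz⟩ := IsDiscreteValuationRing.exists_irreducible R
  have h1 : IsLocalRing.maximalIdeal R = Ideal.span {z} := hz.maximalIdeal_eq
  have h2 : RingHom.ker π = IsLocalRing.maximalIdeal R :=
    IsLocalRing.eq_maximalIdeal (RingHom.ker_isMaximal_of_surjective π hπ)
  refine ⟨z, hz, ?_, fun r => ?_⟩
  · rw [h1]; exact Ideal.mem_span_singleton_self z
  · rw [← RingHom.mem_ker, h2, h1, Ideal.mem_span_singleton]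

private theorem A4_div {R Ω : Type} [CommRing R] [IsDomain R] [Field Ω]
    (π : R →+* Ω) {N : ℕ} (z : R) (hz0 : z ≠ 0) (hz : ∀ r, π r = 0 ↔ z ∣ r) (f : MvPolynomial (Fin N) R)
    (hf : map π f = 0) : ∃ f', f = C z * f' ∧ f'.totalDegree ≤ f.totalDegree := by
  have h1 : C z ∣ f := by
    rw [C_dvd_iff_dvd_coeff]
    intro m
    rw [← hz, ← coeff_map, hf, coeff_zero]
  obtain ⟨f', hf'⟩ := h1
  refine ⟨f', hf', ?_⟩
  rw [hf']
  unfold totalDegree
  apply Finset.sup_mono
  intro m hm
  rw [mem_support_iff] at hm ⊢
  rw [coeff_C_mul]
  exact mul_ne_zero hz0 hm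

private theorem A4_map_deg {R Ω : Type} [CommRing R] [Field Ω]
    (π : R →+* Ω) {N : ℕ} (f : MvPolynomial (Fin N) R) : (map π f).totalDegree ≤ f.totalDegree := by
  unfold totalDegree
  apply Finset.sup_mono
  intro m hm
  rw [mem_support_iff, coeff_map] at hm
  rw [mem_support_iff]
  intro h
  rw [h, map_zero] at hm
  exact hm rfl

private theorem A4_lift {R Ω : Type} [CommRing R] [Field Ω]
    (π : R →+* Ω) {N : ℕ} (s : Ω → R) (hs0 : s 0 = 0) (hs : ∀ a, π (s a) = a) (q : MvPolynomial (Fin N) Ω) :
    ∃ q' : MvPolynomial (Fin N) R, map π q' = q ∧ q'.totalDegree ≤ q.totalDegree ∧ (q' ≠ 0 → q ≠ 0) := by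
  have hc : ∀ m, coeff m (∑ b ∈ q.support, monomial b (s (coeff b q))) = s (coeff m q) := by
    intro m
    rw [coeff_sum]
    by_cases hm : m ∈ q.support
    · rw [Finset.sum_eq_single m]
      · rw [coeff_monomial, if_pos rfl]
      · intro b _ hb
        rw [coeff_monomial, if_neg hb]
      · intro h; exact absurd hm h
    · rw [Finset.sum_eq_zero]
      · rw [notMem_support_iff.1 hm, hs0]
      · intro b hb
        rw [coeff_monomial, if_neg (by rintro rfl; exact hm hb)]
  refine ⟨∑ b ∈ q.support, monomial b (s (coeff b q)), ?_, ?_, ?_⟩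
  · ext m
    rw [coeff_map, hc, hs]
  · unfold totalDegree
    apply Finset.sup_mono
    intro m hm
    rw [mem_support_iff, hc] at hm
    rw [mem_support_iff]
    intro h
    rw [h, hs0] at hm
    exact hm rfl
  · intro h1 h2
    apply h1
    rw [h2]
    simp

theorem stair_pert {R Ω : Type} [CommRing R] [IsDomain R] [IsDiscreteValuationRing R] [Field Ω]
    (π : R →+* Ω) (hπ : Function.Surjective π) {N : ℕ} (g : Fin N → MvPolynomial (Fin N) R)
    (hg : ∀ i, (g i).totalDegree ≤ i.val + 1) {B : Finset (Fin N →₀ ℕ)}
    (h : Stair N Ω (fun i => map π (g i)) B) : Stair N R g B := by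
  obtain ⟨z, hzirr, hzmax, hz⟩ := A4_ker π hπ
  have hz0 : z ≠ 0 := hzirr.ne_zero
  constructor
  · intro D f hfD
    classical
    obtain ⟨s, hs0, hs⟩ : ∃ s : Ω → R, s 0 = 0 ∧ ∀ a, π (s a) = a := by
      refine ⟨fun a => if a = 0 then 0 else Function.surjInv hπ a, by simp, fun a => ?_⟩
      by_cases ha : a = 0
      · simp [ha]
      · simp only [ha, if_false]
        exact Function.surjInv_eq hπ a
    let W : Submodule R (MvPolynomial (Fin N) R) :=
      { carrier := {f | ∃ (r : (Fin N →₀ ℕ) → R) (q : Fin N → MvPolynomial (Fin N) R),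
          (∀ b, r b ≠ 0 → b.degree ≤ D) ∧
          (∀ i, q i ≠ 0 → (q i).totalDegree + (i.val + 1) ≤ D) ∧
          f = ∑ b ∈ B, monomial b (r b) + ∑ i, g i * q i}
        zero_mem' := ⟨fun _ => 0, fun _ => 0, by simp, by simp, by simp⟩
        add_mem' := by
          rintro f1 f2 ⟨r1, q1, h1, h2, h3⟩ ⟨r2, q2, k1, k2, k3⟩
          refine ⟨fun b => r1 b + r2 b, fun i => q1 i + q2 i, ?_, ?_, ?_⟩
          · intro b hb
            by_cases h : r1 b = 0
            · exact k1 b (by intro h'; exact hb (by simp [h, h']))
            · exact h1 b h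
          · intro i hi
            by_cases h : q1 i = 0
            · simp only [h, zero_add]
              exact k2 i (by intro h'; exact hi (by simp [h, h']))
            · by_cases h' : q2 i = 0
              · simp only [h', add_zero]
                exact h2 i h
              · have e1 := h2 i h
                have e2 := k2 i h'
                have e3 := totalDegree_add (q1 i) (q2 i)
                have e4 : max (q1 i).totalDegree (q2 i).totalDegree + (i.val + 1) ≤ D := by
                  rcases max_cases (q1 i).totalDegree (q2 i).totalDegree with ⟨e, _⟩ | ⟨e, _⟩ <;> rw [e] <;> assumption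
                exact (Nat.add_le_add_right e3 _).trans e4
          · rw [h3, k3]
            simp only [map_add, mul_add, Finset.sum_add_distrib]
            ring
        smul_mem' := by
          rintro c f1 ⟨r1, q1, h1, h2, h3⟩
          refine ⟨fun b => c * r1 b, fun i => C c * q1 i, ?_, ?_, ?_⟩
          · intro b hb
            exact h1 b (right_ne_zero_of_mul hb)
          · intro i hi
            have e1 := h2 i (right_ne_zero_of_mul hi)
            have e2 : (C c * q1 i).totalDegree ≤ (q1 i).totalDegree := by
              refine (totalDegree_mul _ _).trans ?_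
              rw [totalDegree_C, zero_add]
            exact (Nat.add_le_add_right e2 _).trans e1
          · rw [h3, smul_add, Finset.smul_sum, Finset.smul_sum]
            congr 1
            · apply Finset.sum_congr rfl
              intro b _
              rw [smul_monomial, smul_eq_mul]
            · apply Finset.sum_congr rfl
              intro i _
              rw [smul_eq_C_mul]
              ring }
    have hWP : ∀ f ∈ W, f.totalDegree ≤ D := by
      rintro f ⟨r, q, h1, h2, h3⟩
      rw [h3]
      refine (totalDegree_add _ _).trans (max_le ?_ ?_)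
      · refine totalDegree_finsetSum_le ?_
        intro b _
        by_cases hb : r b = 0
        · rw [hb, map_zero, totalDegree_zero]; exact Nat.zero_le _
        · rw [totalDegree_monomial _ hb]
          exact h1 b hb
      · refine totalDegree_finsetSum_le ?_
        intro i _
        by_cases hi : q i = 0
        · rw [hi, mul_zero, totalDegree_zero]; exact Nat.zero_le _
        · have e1 := h2 i hi
          have e2 := totalDegree_mul (g i) (q i)
          have e3 := hg i
          omega
    have hle : restrictTotalDegree (Fin N) R D ≤ W := by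
      apply Submodule.le_of_le_smul_of_le_jacobson_bot (I := IsLocalRing.maximalIdeal R)
      · exact Module.Finite.iff_fg.1 inferInstance
      · exact IsLocalRing.maximalIdeal_le_jacobson _
      · intro f hf
        rw [mem_restrictTotalDegree] at hf
        obtain ⟨r, q, h1, h2, h3⟩ := h.span D (map π f) ((A4_map_deg π f).trans hf)
        choose q' hq1 hq2 hq3 using fun i => A4_lift π s hs0 hs (q i)
        have hw : (∑ b ∈ B, monomial b (s (r b)) + ∑ i, g i * q' i) ∈ W := by
          refine ⟨fun b => s (r b), q', ?_, ?_, rfl⟩
          · intro b hb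
            exact h1 b (by intro h'; exact hb (by simp only [h', hs0]))
          · intro i hi
            have e1 := h2 i (hq3 i hi)
            have e2 := hq2 i
            omega
        obtain ⟨w, hwdef⟩ : ∃ w, w = ∑ b ∈ B, monomial b (s (r b)) + ∑ i, g i * q' i := ⟨_, rfl⟩
        rw [← hwdef] at hw
        have hmap : map π (f - w) = 0 := by
          rw [map_sub, h3, hwdef, map_add, map_sum, map_sum]
          simp only [map_monomial, map_mul, hs, hq1]
          ring
        obtain ⟨f', hf', hf'D⟩ := A4_div π z hz0 hz (f - w) hmap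
        have hfw : (f - w).totalDegree ≤ D :=
          (totalDegree_sub _ _).trans (max_le hf (hWP w hw))
        rw [Submodule.mem_sup]
        refine ⟨w, hw, f - w, ?_, by ring⟩
        rw [hf', ← smul_eq_C_mul]
        apply Submodule.smul_mem_smul hzmax
        rw [mem_restrictTotalDegree]
        exact hf'D.trans hfw
    exact hle ((mem_restrictTotalDegree _ _ _).2 hfD)
  · intro p hp
    have key : ∀ m : ℕ, ∃ p' : (Fin N →₀ ℕ) → MvPolynomial (Fin N) R, (∀ b ∈ B, p b = C (z ^ m) * p' b) ∧
        ∑ b ∈ B, aeval g (p' b) * monomial b (1 : R) = 0 := by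
      intro m
      induction m with
      | zero => exact ⟨p, fun b _ => by simp, hp⟩
      | succ m ih =>
        obtain ⟨p', h1, h2⟩ := ih
        have h3 : ∑ b ∈ B, aeval (fun i => map π (g i)) (map π (p' b)) * monomial b (1 : Ω) = 0 := by
          have h4 := congrArg (map π) h2
          rw [map_sum, map_zero] at h4
          rw [← h4]
          apply Finset.sum_congr rfl
          intro b _
          rw [map_mul, map_monomial, map_one π, aeval_eq_bind₁, aeval_eq_bind₁, map_bind₁]
        have h5 := h.indep (fun b => map π (p' b)) h3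
        choose! p'' hp'' using fun b (hb : b ∈ B) => A4_div π z hz0 hz (p' b) (h5 b hb)
        refine ⟨p'', ?_, ?_⟩
        · intro b hb
          rw [h1 b hb, (hp'' b hb).1, pow_succ, C_mul]
          simp only [mul_assoc]
        · have h6 : C z * ∑ b ∈ B, aeval g (p'' b) * monomial b (1 : R) = 0 := by
            rw [← h2, Finset.mul_sum]
            apply Finset.sum_congr rfl
            intro b hb
            rw [(hp'' b hb).1, map_mul, aeval_C, algebraMap_eq, ← mul_assoc]
          have h7 : (C z : MvPolynomial (Fin N) R) ≠ 0 := by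
            rw [Ne, C_eq_zero]; exact hz0
          exact (mul_eq_zero.1 h6).resolve_left h7
    intro b hb
    ext m
    rw [coeff_zero]
    by_contra hne
    obtain ⟨n, hn⟩ := IsDiscreteValuationRing.associated_pow_irreducible hne hzirr
    obtain ⟨p', h1, _⟩ := key (n + 1)
    have h2 : z ^ (n + 1) ∣ coeff m (p b) := by
      rw [h1 b hb, coeff_C_mul]
      exact dvd_mul_right _ _
    have h3 : z ^ (n + 1) ∣ z ^ n := h2.trans hn.dvd
    have h4 := (pow_dvd_pow_iff hz0 hzirr.not_isUnit).1 h3
    omega

end Pool.Agent.LibSU9
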