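import Pool.Agent.LibSU9.Defs

/-!
[SU9 A5] (MEDIUM; only Mathlib + Defs) The staircase property passes to the fraction field.

PLAN. span: for `f` over `K` there is `s ≠ 0` in `R` and `f'` over `R` with `map f' = C s * f` (finitely many coefficients,
`IsLocalization.exist_integer_multiples` / `IsLocalization.exists_integer_multiple` ...; same support so same totalDegree); apply `h.span` to `f'` and divide
by `s` (`map` does not increase the totalDegree, and multiplication by `C s⁻¹` does not change it; if `map (q i) ≠ 0` then `q i ≠ 0`).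
indep: clear the denominators of all `p b`, `b ∈ B`: `C s * p b = map (p' b)`; the relation gives `map (∑ aeval g (p' b) * monomial b 1) = 0`,
`map` of the injective `algebraMap R K` is injective, so `p' b = 0`.
-/

namespace Pool.Agent.LibSU9

open MvPolynomial

private theorem A5_clear {R K σ : Type} [CommRing R] [IsDomain R] [Field K] [Algebra R K]
    [IsFractionRing R K] (f : MvPolynomial σ K) : ∃ s : R, s ≠ 0 ∧ ∃ f' : MvPolynomial σ R,
      map (algebraMap R K) f' = C (algebraMap R K s) * f := by
  classical
  obtain ⟨b, hb⟩ := IsLocalization.exist_integer_multiples (nonZeroDivisors R) f.support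
    (fun m => coeff m f)
  have hb' : ∀ m : σ →₀ ℕ, ∃ c : R, m ∈ f.support → algebraMap R K c = (b : R) • coeff m f := by
    intro m
    by_cases hm : m ∈ f.support
    · obtain ⟨c, hc⟩ := hb m hm
      exact ⟨c, fun _ => hc⟩
    · exact ⟨0, fun h => absurd h hm⟩
  choose c hc using hb'
  refine ⟨b, nonZeroDivisors.coe_ne_zero b, ∑ m ∈ f.support, monomial m (c m), ?_⟩
  rw [map_sum]
  conv_rhs => rw [f.as_sum, Finset.mul_sum]
  refine Finset.sum_congr rfl (fun m hm => ?_)
  rw [map_monomial, hc m hm, C_mul_monomial, Algebra.smul_def]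

private theorem A5_tdeg {R K σ : Type} [CommRing R] [CommRing K] {φ : R →+* K}
    (hφ : Function.Injective φ) (p : MvPolynomial σ R) :
    (map φ p).totalDegree = p.totalDegree := by
  unfold totalDegree
  rw [support_map_of_injective p hφ]

private theorem A5_deg {K σ : Type} [Field K] (c : K) (f : MvPolynomial σ K) :
    (C c * f).totalDegree ≤ f.totalDegree := by
  calc (C c * f).totalDegree ≤ (C c : MvPolynomial σ K).totalDegree + f.totalDegree :=
        totalDegree_mul _ _
    _ = f.totalDegree := by rw [totalDegree_C, zero_add]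

private theorem A5_aeval {R K σ τ : Type} [CommRing R] [CommRing K] [Algebra R K]
    (g : σ → MvPolynomial τ R) (p : MvPolynomial σ R) :
    aeval (fun i => map (algebraMap R K) (g i)) (map (algebraMap R K) p) =
      map (algebraMap R K) (aeval g p) := by
  induction p using MvPolynomial.induction_on with
  | C a => simp [algebraMap_eq]
  | add p q hp hq => rw [map_add, map_add, map_add, map_add, hp, hq]
  | mul_X p i hp => rw [map_mul, map_mul, map_mul, map_mul, hp, map_X, aeval_X, aeval_X]

theorem stair_frac {R K : Type} [CommRing R] [IsDomain R] [Field K] [Algebra R K]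
    [IsFractionRing R K] {N : ℕ} (g : Fin N → MvPolynomial (Fin N) R)
    {B : Finset (Fin N →₀ ℕ)} (h : Stair N R g B) :
    Stair N K (fun i => map (algebraMap R K) (g i)) B := by
  classical
  have hinj : Function.Injective (algebraMap R K) := IsFractionRing.injective R K
  have hmi : Function.Injective (map (algebraMap R K) : MvPolynomial (Fin N) R → _) :=
    map_injective _ hinj
  constructor
  · intro D f hf
    obtain ⟨s, hs, f', hf'⟩ := A5_clear (R := R) f
    have hsK : algebraMap R K s ≠ 0 := by
      rw [Ne, map_eq_zero_iff _ hinj]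
      exact hs
    have hdeg : f'.totalDegree ≤ D := by
      rw [← A5_tdeg hinj f', hf']
      exact (A5_deg _ _).trans hf
    obtain ⟨r, q, hr, hq, hrq⟩ := h.span D f' hdeg
    refine ⟨fun b => (algebraMap R K s)⁻¹ * algebraMap R K (r b),
      fun i => C (algebraMap R K s)⁻¹ * map (algebraMap R K) (q i), ?_, ?_, ?_⟩
    · intro b hb
      apply hr b
      rintro h0
      apply hb
      simp [h0]
    · intro i hi
      have h1 : q i ≠ 0 := by
        rintro h0
        apply hi
        simp [h0]
      have h2 := hq i h1
      have h3 : (C (algebraMap R K s)⁻¹ * map (algebraMap R K) (q i)).totalDegree ≤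
          (q i).totalDegree := by
        refine (A5_deg _ _).trans ?_
        rw [A5_tdeg hinj]
      exact (Nat.add_le_add_right h3 _).trans h2
    · have h4 : f = C (algebraMap R K s)⁻¹ * map (algebraMap R K) f' := by
        rw [hf', ← mul_assoc, ← C_mul, inv_mul_cancel₀ hsK, C_1, one_mul]
      rw [h4, hrq, map_add, map_sum, map_sum, mul_add, Finset.mul_sum, Finset.mul_sum]
      congr 1
      · refine Finset.sum_congr rfl (fun b _ => ?_)
        rw [map_monomial, C_mul_monomial]
      · refine Finset.sum_congr rfl (fun i _ => ?_)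
        rw [map_mul]
        ring
  · intro p hp b hb
    have hcl : ∀ b, ∃ s : R, s ≠ 0 ∧ ∃ f' : MvPolynomial (Fin N) R,
      map (algebraMap R K) f' = C (algebraMap R K s) * p b := fun b => A5_clear (R := R) (p b)
    choose s hs p' hp' using hcl
    obtain ⟨t, ht⟩ : ∃ t : (Fin N →₀ ℕ) → R, ∀ b, t b = ∏ x ∈ B.erase b, s x :=
      ⟨_, fun _ => rfl⟩
    obtain ⟨S, hS⟩ : ∃ S : R, S = ∏ x ∈ B, s x := ⟨_, rfl⟩
    have hS0 : S ≠ 0 := by
      rw [hS]
      exact Finset.prod_ne_zero_iff.mpr (fun x _ => hs x)
    have hSt : ∀ b ∈ B, S = t b * s b := by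
      intro b hb
      rw [hS, ht, Finset.prod_erase_mul _ _ hb]
    have hpS : ∀ b ∈ B, map (algebraMap R K) (C (t b) * p' b) = C (algebraMap R K S) * p b := by
      intro b hb
      rw [map_mul, hp', map_C, hSt b hb, map_mul, C_mul, mul_assoc]
    have hzero : map (algebraMap R K) (∑ b ∈ B, aeval g (C (t b) * p' b) * monomial b (1 : R)) =
        0 := by
      have e1 : map (algebraMap R K) (∑ b ∈ B, aeval g (C (t b) * p' b) * monomial b (1 : R)) =
          C (algebraMap R K S) * ∑ b ∈ B, aeval (fun i => map (algebraMap R K) (g i)) (p b) *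
            monomial b (1 : K) := by
        rw [map_sum, Finset.mul_sum]
        refine Finset.sum_congr rfl (fun b hb => ?_)
        rw [map_mul, ← A5_aeval, hpS b hb, map_mul, map_monomial, map_one]
        rw [← algebraMap_eq, AlgHom.commutes, mul_assoc]
      rw [e1, hp, mul_zero]
    have h0 : ∑ b ∈ B, aeval g (C (t b) * p' b) * monomial b (1 : R) = 0 := by
      apply hmi
      rw [hzero, map_zero]
    have h1 := h.indep _ h0 b hb
    have h2 := hpS b hb
    rw [h1, map_zero] at h2
    have h3 : C (algebraMap R K S) ≠ (0 : MvPolynomial (Fin N) K) := by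
      rw [Ne, C_eq_zero, map_eq_zero_iff _ hinj]
      exact hS0
    exact (mul_eq_zero.mp h2.symm).resolve_left h3

end Pool.Agent.LibSU9
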