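import Pool.Agent.LibSU9.Defs

/-!
[SU9 A6] (MEDIUM; only Mathlib + Defs) The quotient `A[a]/(g)` is free with basis `B`; matrices of multiplication.

PLAN. `exists_coeff`: iterate `h.span` (strong induction on the degree): every `f` is `∑_{b ∈ B} aeval g (p b) * monomial b 1` with
`p b : MvPolynomial (Fin N) A` (`monomial b (r b)` gives `p b = C (r b)`; `g i * q i` gives `X i * p`).
`stair_basis`: the classes of `monomial b 1` (`b ∈ B`) span the quotient (by `h.span`, `∑ g i * q i` is in the ideal). Independence: if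
`∑ C (r b) * monomial b 1` is in the ideal it is `∑ g i * q i` (`Ideal.mem_span_range_iff_exists_fun`); write `q i` with `exists_coeff`; then
`∑_b aeval g (C (r b) - ∑_i X i * p i b) * monomial b 1 = 0`, so `C (r b) = ∑_i X i * p i b`; constant coefficient: `r b = 0`.
`exists_isMul`: coordinates of `θ * monomial y 1` in the basis. `IsMul.map`: apply `map φ` (it sends the ideal into the ideal).
`IsMul.charpoly`: by the basis, the matrix of `LinearMap.mulLeft` is `M` (`LinearMap.charpoly_toMatrix`).
-/

namespace Pool.Agent.LibSU9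

open MvPolynomial

theorem exists_coeff {N : ℕ} {A : Type} [CommRing A] {g : Fin N → MvPolynomial (Fin N) A}
    {B : Finset (Fin N →₀ ℕ)} (h : Stair N A g B) (f : MvPolynomial (Fin N) A) :
    ∃ p : (Fin N →₀ ℕ) → MvPolynomial (Fin N) A,
      f = ∑ b ∈ B, aeval g (p b) * monomial b (1 : A) := by
  have key : ∀ (D : ℕ) (f : MvPolynomial (Fin N) A), f.totalDegree ≤ D →
      ∃ p : (Fin N →₀ ℕ) → MvPolynomial (Fin N) A,
        f = ∑ b ∈ B, aeval g (p b) * monomial b (1 : A) := by
    intro D
    induction D using Nat.strong_induction_on with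
    | _ D ih =>
      intro f hf
      obtain ⟨r, q, hr, hq, hrq⟩ := h.span D f hf
      have hqi : ∀ i, ∃ p : (Fin N →₀ ℕ) → MvPolynomial (Fin N) A,
          q i = ∑ b ∈ B, aeval g (p b) * monomial b (1 : A) := by
        intro i
        by_cases h0 : q i = 0
        · exact ⟨fun _ => 0, by simp [h0]⟩
        · have h1 := hq i h0
          exact ih (D - (i.val + 1)) (by omega) (q i) (by omega)
      choose p hp using hqi
      refine ⟨fun b => C (r b) + ∑ i, X i * p i b, ?_⟩
      conv_lhs => rw [hrq]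
      have e1 : ∑ i, g i * q i = ∑ b ∈ B, ∑ i, (g i * aeval g (p i b)) * monomial b (1 : A) := by
        rw [Finset.sum_comm]
        refine Finset.sum_congr rfl (fun i _ => ?_)
        conv_lhs => rw [hp i, Finset.mul_sum]
        refine Finset.sum_congr rfl (fun b _ => ?_)
        rw [mul_assoc]
      rw [e1, ← Finset.sum_add_distrib]
      refine Finset.sum_congr rfl (fun b _ => ?_)
      rw [map_add, add_mul, map_sum, Finset.sum_mul]
      congr 1
      · rw [← algebraMap_eq, AlgHom.commutes, algebraMap_eq, C_mul_monomial, mul_one]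
      · refine Finset.sum_congr rfl (fun i _ => ?_)
        rw [map_mul, aeval_X]
  exact key _ f le_rfl

private theorem A6_ideal {N : ℕ} {A : Type} [CommRing A] (g q : Fin N → MvPolynomial (Fin N) A) :
    ∑ i, g i * q i ∈ Ideal.span (Set.range g) := by
  refine Ideal.sum_mem _ (fun i _ => ?_)
  exact Ideal.mul_mem_right _ _ (Ideal.subset_span ⟨i, rfl⟩)

private theorem A6_indep {N : ℕ} {A : Type} [CommRing A] {g : Fin N → MvPolynomial (Fin N) A}
    {B : Finset (Fin N →₀ ℕ)} (h : Stair N A g B) (r : (Fin N →₀ ℕ) → A)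
    (hr : ∑ b ∈ B, C (r b) * monomial b (1 : A) ∈ Ideal.span (Set.range g)) :
    ∀ b ∈ B, r b = 0 := by
  rw [Ideal.mem_span_range_iff_exists_fun] at hr
  obtain ⟨q, hq⟩ := hr
  choose p hp using fun i => exists_coeff h (q i)
  have h1 : ∑ b ∈ B, aeval g (C (r b) - ∑ i, X i * p i b) * monomial b (1 : A) = 0 := by
    have e1 : ∑ i, q i * g i = ∑ b ∈ B, ∑ i, (g i * aeval g (p i b)) * monomial b (1 : A) := by
      rw [Finset.sum_comm]
      refine Finset.sum_congr rfl (fun i _ => ?_)
      conv_lhs => rw [hp i, Finset.sum_mul]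
      refine Finset.sum_congr rfl (fun b _ => ?_)
      ring
    have e2 : ∑ b ∈ B, aeval g (C (r b) - ∑ i, X i * p i b) * monomial b (1 : A) =
        ∑ b ∈ B, C (r b) * monomial b (1 : A) -
          ∑ b ∈ B, ∑ i, (g i * aeval g (p i b)) * monomial b (1 : A) := by
      rw [← Finset.sum_sub_distrib]
      refine Finset.sum_congr rfl (fun b _ => ?_)
      rw [map_sub, sub_mul, map_sum, Finset.sum_mul]
      congr 1
      · rw [← algebraMap_eq, AlgHom.commutes]
      · refine Finset.sum_congr rfl (fun i _ => ?_)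
        rw [map_mul, aeval_X]
    rw [e2, ← hq, e1, sub_self]
  intro b hb
  have h2 := h.indep _ h1 b hb
  have h3 := congrArg constantCoeff h2
  rw [map_sub, constantCoeff_C, map_sum, map_zero] at h3
  simpa using h3

theorem stair_basis {N : ℕ} {A : Type} [CommRing A] {g : Fin N → MvPolynomial (Fin N) A}
    {B : Finset (Fin N →₀ ℕ)} (h : Stair N A g B) :
    ∃ b : Module.Basis B A (MvPolynomial (Fin N) A ⧸ Ideal.span (Set.range g)),
      ∀ x : B, b x = Ideal.Quotient.mk _ (monomial x.1 (1 : A)) := by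
  classical
  obtain ⟨v, hv⟩ : ∃ v : B → (MvPolynomial (Fin N) A ⧸ Ideal.span (Set.range g)),
      ∀ x : B, v x = Ideal.Quotient.mk _ (monomial x.1 (1 : A)) := ⟨_, fun _ => rfl⟩
  have hsm : ∀ (a : A) (f : MvPolynomial (Fin N) A),
      a • Ideal.Quotient.mk (Ideal.span (Set.range g)) f =
        Ideal.Quotient.mk (Ideal.span (Set.range g)) (C a * f) := by
    intro a f
    rw [← smul_eq_C_mul]
    rfl
  have hli : LinearIndependent A v := by
    rw [Fintype.linearIndependent_iff]
    intro r hr
    let r' : (Fin N →₀ ℕ) → A := fun b => if hb : b ∈ B then r ⟨b, hb⟩ else 0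
    have h1 : ∑ b ∈ B, C (r' b) * monomial b (1 : A) ∈ Ideal.span (Set.range g) := by
      rw [← Ideal.Quotient.eq_zero_iff_mem, ← hr, map_sum, ← Finset.sum_coe_sort B]
      refine Finset.sum_congr rfl (fun x _ => ?_)
      rw [hv, hsm]
      simp [r']
    intro x
    have h2 := A6_indep h r' h1 x.1 x.2
    simpa [r'] using h2
  have hsp : ⊤ ≤ Submodule.span A (Set.range v) := by
    rintro x -
    obtain ⟨f, rfl⟩ := Ideal.Quotient.mk_surjective x
    obtain ⟨r, q, hr, hq, hrq⟩ := h.span _ f le_rfl
    have h1 : Ideal.Quotient.mk (Ideal.span (Set.range g)) (∑ i, g i * q i) = 0 :=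
      Ideal.Quotient.eq_zero_iff_mem.mpr (A6_ideal g q)
    rw [hrq, map_add, h1, add_zero, map_sum]
    refine Submodule.sum_mem _ (fun b hb => ?_)
    have h2 : Ideal.Quotient.mk (Ideal.span (Set.range g)) (monomial b (r b)) =
        r b • v ⟨b, hb⟩ := by
      rw [hv, hsm, C_mul_monomial, mul_one]
    rw [h2]
    exact Submodule.smul_mem _ _ (Submodule.subset_span ⟨_, rfl⟩)
  refine ⟨Module.Basis.mk hli hsp, fun x => ?_⟩
  rw [Module.Basis.mk_apply, hv]

theorem exists_isMul {N : ℕ} {A : Type} [CommRing A] {g : Fin N → MvPolynomial (Fin N) A}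
    {B : Finset (Fin N →₀ ℕ)} (h : Stair N A g B) (θ : MvPolynomial (Fin N) A) :
    ∃ M : Matrix B B A, IsMul g B θ M := by
  choose r q hr hq hrq using fun y : B => h.span _ (θ * monomial y.1 (1 : A)) le_rfl
  refine ⟨fun x y => r y x.1, fun y => ?_⟩
  have h1 : θ * monomial y.1 (1 : A) - ∑ x : B, C (r y x.1) * monomial x.1 (1 : A) =
      ∑ i, g i * q y i := by
    have h2 : ∑ x : B, C (r y x.1) * monomial x.1 (1 : A) = ∑ b ∈ B, monomial b (r y b) := by
      rw [← Finset.sum_coe_sort B]
      refine Finset.sum_congr rfl (fun x _ => ?_)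
      rw [C_mul_monomial, mul_one]
    rw [h2]
    conv_lhs => rw [hrq y]
    ring
  rw [h1]
  exact A6_ideal g (q y)

theorem IsMul.map {N : ℕ} {A A' : Type} [CommRing A] [CommRing A'] (φ : A →+* A')
    {g : Fin N → MvPolynomial (Fin N) A} {B : Finset (Fin N →₀ ℕ)}
    {θ : MvPolynomial (Fin N) A} {M : Matrix B B A} (h : IsMul g B θ M) :
    IsMul (fun i => MvPolynomial.map φ (g i)) B (MvPolynomial.map φ θ) (M.map φ) := by
  intro y
  obtain ⟨q, hq⟩ := Ideal.mem_span_range_iff_exists_fun.mp (h y)
  rw [Ideal.mem_span_range_iff_exists_fun]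
  refine ⟨fun i => MvPolynomial.map φ (q i), ?_⟩
  have h1 := congrArg (MvPolynomial.map φ) hq
  rw [map_sum, map_sub, map_mul, map_monomial, map_one, map_sum] at h1
  simp only [map_mul] at h1
  rw [h1]
  congr 1
  refine Finset.sum_congr rfl (fun x _ => ?_)
  rw [map_C, map_monomial, map_one, Matrix.map_apply]

theorem IsMul.charpoly {N : ℕ} {K : Type} [Field K] {g : Fin N → MvPolynomial (Fin N) K}
    {B : Finset (Fin N →₀ ℕ)} (h : Stair N K g B) {θ : MvPolynomial (Fin N) K}
    {M : Matrix B B K} (hM : IsMul g B θ M) :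
    ∃ _ : Module.Finite K (MvPolynomial (Fin N) K ⧸ Ideal.span (Set.range g)),
      Module.finrank K (MvPolynomial (Fin N) K ⧸ Ideal.span (Set.range g)) = B.card ∧
      LinearMap.charpoly (LinearMap.mulLeft K
        (Ideal.Quotient.mk (Ideal.span (Set.range g)) θ)) = M.charpoly := by
  classical
  obtain ⟨b, hb⟩ := stair_basis h
  have hfin : Module.Finite K (MvPolynomial (Fin N) K ⧸ Ideal.span (Set.range g)) :=
    Module.Finite.of_basis b
  have hsm : ∀ (a : K) (f : MvPolynomial (Fin N) K),
      a • Ideal.Quotient.mk (Ideal.span (Set.range g)) f =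
        Ideal.Quotient.mk (Ideal.span (Set.range g)) (C a * f) := by
    intro a f
    rw [← smul_eq_C_mul]
    rfl
  refine ⟨hfin, ?_, ?_⟩
  · rw [Module.finrank_eq_card_basis b, Fintype.card_coe]
  · have hmat : LinearMap.toMatrix b b (LinearMap.mulLeft K
        (Ideal.Quotient.mk (Ideal.span (Set.range g)) θ)) = M := by
      ext x y
      rw [LinearMap.toMatrix_apply, LinearMap.mulLeft_apply, hb y, ← map_mul]
      have h1 : Ideal.Quotient.mk (Ideal.span (Set.range g)) (θ * monomial y.1 (1 : K)) =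
          ∑ x : B, M x y • b x := by
        have h2 := Ideal.Quotient.eq_zero_iff_mem.mpr (hM y)
        rw [map_sub, sub_eq_zero, map_sum] at h2
        rw [h2]
        refine Finset.sum_congr rfl (fun x _ => ?_)
        rw [hb, hsm]
      rw [h1, Module.Basis.repr_sum_self]
    rw [← hmat, LinearMap.charpoly_toMatrix]

end Pool.Agent.LibSU9
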