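import Pool.Agent.LibSU9.A3
import Pool.Agent.LibSU9.A6

/-!
[SU9 A7] (MEDIUM/STRONG; may cite A1, A2, A3, A6 as stated) The characteristic polynomial of `θ` on the toric fibre.

PLAN. `N`, `K` a field, `S = MvPolynomial (Fin N) K`, `P = MvPolynomial (Fin N) K` as an `S`-algebra by `aeval e` (`e i = esymm (i+1)`).
By A6.exists_coeff (for `g = e`, `Stair` from A1 + A2) and `indep`, `P` is free over `S` with basis the monomials of `SB N`; let `M₀ : Matrix (SB N) (SB N) S` be the
matrix of the multiplication by `θ`: `θ * monomial y 1 = ∑_x aeval e (M₀ x y) * monomial x 1`.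
(1) Image in `P` of its charpoly: `M₀.charpoly.map (aeval e) = ∏_τ (X - C (rename τ θ))` in `Polynomial P`. Proof in `L = FractionRing P`: `G = Perm (Fin N)` acts,
`E` = fixed field, `L/E` is Galois with group `G` (Artin), the monomials of `SB N` are an `E`-basis of `L` (`card = N! = [L:E]`, independent because spanning, see A2),
so for every `x : E`, `det (x - M₀) = Norm_{L/E} (x - θ) = ∏_τ (x - τ θ)` (`Algebra.norm_eq_prod_automorphisms`); `E` is infinite (`N ≥ 1`; for `N = 0` everything is trivial), so the polynomials
agree. (Any other proof is fine; one may also avoid `S` and `P` by a direct argument for the fibre: e.g. first for `b` with pairwise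
distinct entries, where `K[a]/(gt b)` has the `N!` distinct points `b ∘ τ`, and then for all `b` because both sides are polynomial in `b`:
work over `K(b_1..b_N)` and specialise: `K' = MvPolynomial (Fin N) K`, the matrix over `K'` for the generic tuple `X` exists because
`Stair` holds over `K'` too (A1 is for every ring; independence over `K'` from the independence over its fraction field), and `IsMul.map`
specialises. THIS SECOND WAY IS PROBABLY SHORTER: over `E' = FractionRing K'`, the point evaluations at the `N!` distinct tuples
`X ∘ τ` give an injective map of the quotient to `E'^{N!}`, bijective by dimension, so the charpoly is `∏_τ (X - θ(X ∘ τ))`. Injective because: it is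
enough that the `N!` characters are distinct, then they are independent, hence the map is surjective, hence bijective by `card_SB`.)
(2) Specialise at `b`.
-/

namespace Pool.Agent.LibSU9

open MvPolynomial

private theorem A7_eval_gt {N : ℕ} {A : Type} [CommRing A] (c : Fin N → A)
    (τ : Equiv.Perm (Fin N)) (i : Fin N) : eval (fun j => c (τ j)) (gt c i) = 0 := by
  have h1 : eval (fun j => c (τ j)) (esymm (Fin N) A (i.val + 1)) =
      eval c (esymm (Fin N) A (i.val + 1)) := by
    conv_rhs => rw [← esymm_isSymmetric (Fin N) A (i.val + 1) τ]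
    rw [eval_rename]
    rfl
  simp only [gt, map_sub, map_mul, eval_C, h1]
  ring

private theorem A7_map_gt {N : ℕ} {A A' : Type} [CommRing A] [CommRing A'] (φ : A →+* A')
    (c : Fin N → A) (i : Fin N) : MvPolynomial.map φ (gt c i) = gt (fun j => φ (c j)) i := by
  have h1 : φ (eval c (esymm (Fin N) A (i.val + 1))) =
      eval (fun j => φ (c j)) (esymm (Fin N) A' (i.val + 1)) := by
    rw [← map_esymm (Fin N) A (i.val + 1) φ, eval_map, eval, coe_eval₂Hom, eval₂_comp_left]
    rfl
  simp only [gt, map_sub, map_mul, MvPolynomial.map_C, map_pow, map_neg, map_one, map_esymm, h1]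

private theorem A7_map_aeval {N : ℕ} {A A' : Type} [CommRing A] [CommRing A'] (φ : A →+* A')
    (g : Fin N → MvPolynomial (Fin N) A) (p : MvPolynomial (Fin N) A) :
    MvPolynomial.map φ (aeval g p) = aeval (fun i => MvPolynomial.map φ (g i))
      (MvPolynomial.map φ p) := by
  induction p using MvPolynomial.induction_on with
  | C a => simp
  | add p q hp hq => simp only [map_add, hp, hq]
  | mul_X p i hp => simp only [map_mul, hp, aeval_X, MvPolynomial.map_X]

private theorem A7_stair (N : ℕ) (K : Type) [CommRing K] [IsDomain K] :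
    Stair N K (fun i : Fin N => esymm (Fin N) K (i.val + 1)) (SB N) := by
  constructor
  · intro D f hf
    exact stair_span N K D f hf
  · intro p h b hb
    have h2 := stair_indep N (FractionRing K)
      (fun b => MvPolynomial.map (algebraMap K (FractionRing K)) (p b)) ?_ b hb
    · exact MvPolynomial.map_injective _ (IsFractionRing.injective K (FractionRing K))
        (by rw [h2, map_zero])
    · have h3 := congrArg (MvPolynomial.map (algebraMap K (FractionRing K))) h
      rw [map_zero, map_sum] at h3
      rw [← h3]
      refine Finset.sum_congr rfl fun b _ => ?_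
      rw [map_mul, A7_map_aeval, MvPolynomial.map_monomial, RingHom.map_one]
      simp only [map_esymm]

private theorem A7_stair_gt {N : ℕ} {K : Type} [CommRing K] [IsDomain K] (c : Fin N → K) :
    Stair N K (gt c) (SB N) := by
  have h := stair_affine (A7_stair N K) (fun i => (-1 : Kˣ) ^ (i.val + 1))
    (fun i => (-1) ^ (i.val + 1) * eval c (esymm (Fin N) K (i.val + 1)))
  have he : (fun i : Fin N => C (((-1 : Kˣ) ^ (i.val + 1) : Kˣ) : K) *
      esymm (Fin N) K (i.val + 1) -
      C ((-1) ^ (i.val + 1) * eval c (esymm (Fin N) K (i.val + 1)))) = gt c := by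
    funext i
    simp only [gt, Units.val_pow_eq_pow_val, Units.val_neg, Units.val_one]
  rw [he] at h
  exact h

/-- the values at a permuted tuple kill the ideal -/
private theorem A7_ideal {N : ℕ} {A : Type} [CommRing A] (c : Fin N → A)
    (τ : Equiv.Perm (Fin N)) (f : MvPolynomial (Fin N) A) (hf : f ∈ Ideal.span (Set.range (gt c))) :
    eval (fun j => c (τ j)) f = 0 := by
  have h : Ideal.span (Set.range (gt c)) ≤ RingHom.ker (eval (fun j => c (τ j))) := by
    rw [Ideal.span_le]
    rintro _ ⟨i, rfl⟩
    exact A7_eval_gt c τ i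
  exact h hf

private theorem A7_inj {N : ℕ} {E : Type} [Field E] (c : Fin N → E) (hc : Function.Injective c)
    (θ : MvPolynomial (Fin N) E) {M : Matrix (SB N) (SB N) E} (hM : IsMul (gt c) (SB N) θ M) :
    M.charpoly = ∏ τ : Equiv.Perm (Fin N),
      (Polynomial.X - Polynomial.C (eval (fun i => c (τ i)) θ)) := by
  classical
  have hcard : Fintype.card (SB N) = Fintype.card (Equiv.Perm (Fin N)) := by
    rw [Fintype.card_coe, card_SB, Fintype.card_perm, Fintype.card_fin]
  let e : SB N ≃ Equiv.Perm (Fin N) := Fintype.equivOfCardEq hcard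
  let V : Matrix (SB N) (SB N) E := fun s x => eval (fun i => c (e s i)) (monomial x.1 (1 : E))
  have hV : V * M = Matrix.diagonal (fun s => eval (fun i => c (e s i)) θ) * V := by
    ext s y
    have h1 := A7_ideal c (e s) _ (hM y)
    rw [map_sub, map_mul, map_sum, sub_eq_zero] at h1
    rw [Matrix.diagonal_mul, Matrix.mul_apply]
    refine Eq.trans ?_ h1.symm
    refine Finset.sum_congr rfl fun x _ => ?_
    rw [map_mul, eval_C, mul_comm]
  have hdet : V.det ≠ 0 := by
    intro h0
    obtain ⟨v, hv0, hv⟩ := Matrix.exists_vecMul_eq_zero_iff.2 h0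
    apply hv0
    have hall : ∀ f : MvPolynomial (Fin N) E, ∑ s, v s * eval (fun i => c (e s i)) f = 0 := by
      intro f
      obtain ⟨r, q, _, _, hf⟩ := (stair_gt c).span _ f le_rfl
      have hs : ∀ s : SB N, eval (fun i => c (e s i)) f = ∑ x : SB N, V s x * r x.1 := by
        intro s
        conv_lhs => rw [hf]
        rw [map_add, map_sum, map_sum]
        have h2 : ∑ i, eval (fun i => c (e s i)) (gt c i * q i) = 0 := by
          refine Finset.sum_eq_zero fun i _ => ?_
          rw [map_mul, A7_eval_gt, zero_mul]
        rw [h2, add_zero, ← Finset.sum_coe_sort]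
        refine Finset.sum_congr rfl fun x _ => ?_
        show _ = eval (fun i => c (e s i)) (monomial x.1 (1 : E)) * r x.1
        rw [eval_monomial, eval_monomial, one_mul, mul_comm]
      calc ∑ s, v s * eval (fun i => c (e s i)) f
          = ∑ s, ∑ x : SB N, v s * V s x * r x.1 := by
            refine Finset.sum_congr rfl fun s _ => ?_
            rw [hs s, Finset.mul_sum]
            exact Finset.sum_congr rfl fun x _ => (mul_assoc _ _ _).symm
        _ = ∑ x : SB N, (∑ s, v s * V s x) * r x.1 := by
            rw [Finset.sum_comm]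
            exact Finset.sum_congr rfl fun x _ => (Finset.sum_mul _ _ _).symm
        _ = 0 := by
            refine Finset.sum_eq_zero fun x _ => ?_
            have h3 := congrFun hv x
            have h4 : ∑ s, v s * V s x = 0 := h3
            rw [h4, zero_mul]
    have hli := linearIndependent_monoidHom (MvPolynomial (Fin N) E) E
    have hinj : Function.Injective (fun s : SB N =>
        ((eval (fun i => c (e s i)) : MvPolynomial (Fin N) E →+* E) :
          MvPolynomial (Fin N) E →* E)) := by
      intro s t hst
      apply e.injective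
      ext i
      have h5 := DFunLike.congr_fun hst (X i : MvPolynomial (Fin N) E)
      have h6 : c (e s i) = c (e t i) := by
        have h7 : eval (fun i => c (e s i)) (X i : MvPolynomial (Fin N) E) =
          eval (fun i => c (e t i)) (X i : MvPolynomial (Fin N) E) := h5
        rwa [eval_X, eval_X] at h7
      exact congrArg Fin.val (hc h6)
    have hli2 := hli.comp _ hinj
    rw [Fintype.linearIndependent_iff] at hli2
    funext s
    refine hli2 v ?_ s
    funext f
    rw [Finset.sum_apply]
    exact hall f
  have hunit : IsUnit V := (Matrix.isUnit_iff_isUnit_det V).2 (isUnit_iff_ne_zero.2 hdet)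
  obtain ⟨U, hU⟩ := hunit
  have hconj : U.val * M * U⁻¹.val = Matrix.diagonal (fun s => eval (fun i => c (e s i)) θ) := by
    rw [hU, hV, ← hU, mul_assoc, Units.mul_inv, mul_one]
  rw [← Matrix.charpoly_units_conj U M, ← Matrix.coe_units_inv, hconj, Matrix.charpoly_diagonal]
  exact Fintype.prod_equiv e _ _ fun s => rfl

theorem toric_charpoly {N : ℕ} {K : Type} [Field K] (b : Fin N → K) (θ : MvPolynomial (Fin N) K)
    {M : Matrix (SB N) (SB N) K} (hM : IsMul (gt b) (SB N) θ M) :
    M.charpoly = ∏ τ : Equiv.Perm (Fin N),
      (Polynomial.X - Polynomial.C (eval (fun i => b (τ i)) θ)) := by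
  let φ := algebraMap (MvPolynomial (Fin N) K) (FractionRing (MvPolynomial (Fin N) K))
  have hφ : Function.Injective φ := IsFractionRing.injective _ _
  let x : Fin N → MvPolynomial (Fin N) K := X
  obtain ⟨M', hM'⟩ := exists_isMul (A7_stair_gt x) (MvPolynomial.map (C : K →+* MvPolynomial (Fin N) K) θ)
  have h1 := hM'.map φ
  have h2 : (fun i => MvPolynomial.map φ (gt x i)) = gt (fun j => φ (x j)) := by
    funext i
    exact A7_map_gt φ x i
  rw [h2] at h1
  have h3 := A7_inj (fun j => φ (x j)) (hφ.comp X_injective) _ h1
  have h4 : ∀ (A : Type) [CommRing A] (ρ : MvPolynomial (Fin N) K →+* A) (τ : Equiv.Perm (Fin N)),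
      eval (fun i => ρ (x (τ i))) (MvPolynomial.map ρ (MvPolynomial.map (C : K →+* MvPolynomial (Fin N) K) θ)) =
        ρ (eval (fun i => x (τ i)) (MvPolynomial.map (C : K →+* MvPolynomial (Fin N) K) θ)) := by
    intro A _ ρ τ
    conv_rhs => rw [eval, coe_eval₂Hom, eval₂_comp_left]
    rw [eval_map]
    rfl
  have h5 : M'.charpoly = ∏ τ : Equiv.Perm (Fin N), (Polynomial.X - Polynomial.C
      (eval (fun i => x (τ i)) (MvPolynomial.map (C : K →+* MvPolynomial (Fin N) K) θ))) := by
    apply Polynomial.map_injective φ hφ
    rw [← Matrix.charpoly_map, Polynomial.map_prod]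
    refine h3.trans (Finset.prod_congr rfl fun τ _ => ?_)
    rw [Polynomial.map_sub, Polynomial.map_X, Polynomial.map_C, h4]
  let ψ : MvPolynomial (Fin N) K →+* K := eval b
  have h6 := hM'.map ψ
  have h7 : (fun i => MvPolynomial.map ψ (gt x i)) = gt b := by
    funext i
    rw [A7_map_gt ψ x i]
    congr 1
    funext j
    exact eval_X j
  have h8 : MvPolynomial.map ψ (MvPolynomial.map (C : K →+* MvPolynomial (Fin N) K) θ) = θ := by
    rw [MvPolynomial.map_map]
    have : ψ.comp C = RingHom.id K := by
      ext a
      exact eval_C a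
    rw [this, MvPolynomial.map_id]
  rw [h7, h8] at h6
  have h9 : M.charpoly = (M'.map ψ).charpoly := by
    obtain ⟨_, _, h10⟩ := IsMul.charpoly (stair_gt b) hM
    obtain ⟨_, _, h11⟩ := IsMul.charpoly (stair_gt b) h6
    exact h10.symm.trans h11
  have h12 : (M'.map ψ).charpoly = M'.charpoly.map ψ := Matrix.charpoly_map M' ψ
  rw [h9, h12, h5, Polynomial.map_prod]
  refine Finset.prod_congr rfl fun τ _ => ?_
  rw [Polynomial.map_sub, Polynomial.map_X, Polynomial.map_C]
  have h13 := h4 K ψ τ
  rw [h8] at h13
  rw [← h13]
  have h14 : (fun i => ψ (x (τ i))) = fun i => b (τ i) := by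
    funext i
    exact eval_X _
  rw [h14]

end Pool.Agent.LibSU9
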