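import Pool.Agent.LibSU9.Defs

/-!
[SU9 B1] (MEDIUM; only Mathlib + Defs) The equations at `ζ = 0` and base change.

PLAN. `zed_prod`: `∏_j ∏_l (1 - a_{jl} T) = ∏_{k : Fin (n e)} (1 - a_k T)` (reindex by `finProdFinEquiv`, `Fintype.prod_prod_type`).
`coeff_prod`: the coefficient of `T^m` in `∏_{k} (1 - b_k T)` is `(-1)^m * aeval b (esymm m)` (Mathlib: `Finset.prod_one_sub...`, `Multiset.prod_X_sub_C_coeff`,
`MvPolynomial.aeval_esymm_eq_multiset_esymm`, or `Finset.prod_add` over subsets: `esymm = ∑_{powersetCard m} ∏`).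
`eqn_zero`: for `ζ = 0`, `pen F 0 = tor`, `aeval (vec L z) tor = ∏_j z_j - L^n`, `L^n = ∏_k (1 - cc_k T)`; take coefficients; the constant is
`algebraMap Ω A` of the value over `Ω`, i.e. the value at `algebraMap ∘ cc n c`.
`eqn_map`: `map φ` of everything (`Polynomial.coeff_map`, `MvPolynomial.map_aeval`/`eval₂` computation: it may help to write
`aeval (vec L z) (pen F ζ) = ∏_j z_j - L^n + C (C ζ) * aeval (vec L z) F`, lemma `aeval_pen`, and map the three terms).
-/

namespace Pool.Agent.LibSU9

open MvPolynomial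

theorem coeff_prod {N : ℕ} {A : Type} [CommRing A] (b : Fin N → A) (m : ℕ) :
    (∏ k, (1 - Polynomial.C (b k) * Polynomial.X)).coeff m =
      (-1) ^ m * eval b (esymm (Fin N) A m) := by
  classical
  have h1 : ∀ k, (1 - Polynomial.C (b k) * Polynomial.X) = 1 + -(Polynomial.C (b k) * Polynomial.X) :=
    fun k => sub_eq_add_neg _ _
  rw [Finset.prod_congr rfl fun k _ => h1 k, Finset.prod_one_add, Polynomial.finsetSum_coeff]
  have h2 : ∀ t : Finset (Fin N), (∏ k ∈ t, -(Polynomial.C (b k) * Polynomial.X)).coeff m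
      = if t.card = m then (-1) ^ m * ∏ k ∈ t, b k else 0 := by
    intro t
    have e1 : ∏ k ∈ t, -(Polynomial.C (b k) * Polynomial.X)
        = Polynomial.C ((-1) ^ t.card * ∏ k ∈ t, b k) * Polynomial.X ^ t.card := by
      rw [Finset.prod_neg, Finset.prod_mul_distrib, Finset.prod_const, map_mul, map_pow, map_neg,
        map_one, map_prod]
      ring
    rw [e1, Polynomial.coeff_C_mul_X_pow]
    by_cases ht : t.card = m
    · rw [if_pos ht.symm, if_pos ht, ht]
    · rw [if_neg (Ne.symm ht), if_neg ht]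
  rw [Finset.sum_congr rfl fun t _ => h2 t, ← Finset.sum_filter]
  unfold esymm
  rw [map_sum, Finset.mul_sum, Finset.powersetCard_eq_filter]
  refine Finset.sum_congr rfl fun t _ => ?_
  rw [map_prod]
  simp only [eval_X]

/-- general form of the value of the pencil at a vector of polynomials -/
theorem aeval_pen {Ω A B : Type} [CommRing Ω] [CommRing A] [Algebra Ω A] [CommRing B] [Algebra A B]
    [Algebra Ω B] [IsScalarTower Ω A B] {n : ℕ} (F : MvPolynomial (Fin (n + 1)) Ω) (ζ : A) (L : B)
    (v : Fin n → B) :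
    aeval (Fin.cons L v : Fin (n + 1) → B) (pen F ζ) =
      ∏ j, (L + v j) - L ^ n + algebraMap A B ζ * aeval (Fin.cons L v : Fin (n + 1) → B) F := by
  unfold pen tor
  rw [map_add, map_sub, map_prod, map_pow, map_mul, aeval_C, aeval_map_algebraMap]
  simp only [map_add, aeval_X, Fin.cons_zero, Fin.cons_succ]

private theorem B1_zed_prod {A : Type} [CommRing A] {n e : ℕ} (a : Fin (n * e) → A) :
    ∏ j, zed a j = ∏ k, (1 - Polynomial.C (a k) * Polynomial.X) := by
  unfold zed
  rw [← Fintype.prod_prod_type'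
    (f := fun (j : Fin n) (l : Fin e) =>
      (1 - Polynomial.C (a (finProdFinEquiv (j, l))) * Polynomial.X))]
  exact Equiv.prod_comp finProdFinEquiv
    (fun k => (1 - Polynomial.C (a k) * Polynomial.X : Polynomial A))

private theorem B1_lam_pow {A : Type} [CommRing A] {n e : ℕ} (c : Fin e → A) :
    lam c ^ n = ∏ k, (1 - Polynomial.C (cc n c k) * Polynomial.X) := by
  rw [← B1_zed_prod]
  unfold zed cc lam
  simp only [Equiv.symm_apply_apply]
  rw [Finset.prod_const, Finset.card_univ, Fintype.card_fin]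

private theorem B1_map_lam {A B : Type} [CommRing A] [CommRing B] (f : A →+* B) {e : ℕ}
    (c : Fin e → A) : Polynomial.map f (lam c) = lam (fun l => f (c l)) := by
  unfold lam
  rw [Polynomial.map_prod]
  simp only [Polynomial.map_sub, Polynomial.map_one, Polynomial.map_mul, Polynomial.map_C,
    Polynomial.map_X]

private theorem B1_eqn {Ω A : Type} [CommRing Ω] [CommRing A] [Algebra Ω A] {n e : ℕ}
    (F : MvPolynomial (Fin (n + 1)) Ω) (c : Fin e → Ω) (ζ : A) (i : Fin (n * e)) :
    eqn F c ζ i = Polynomial.coeff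
      (∏ j, zed (fun s => (X s : MvPolynomial (Fin (n * e)) A)) j -
        Polynomial.map (algebraMap Ω (MvPolynomial (Fin (n * e)) A)) (lam c) ^ n +
        Polynomial.C (C ζ) * aeval (vec (Polynomial.map
          (algebraMap Ω (MvPolynomial (Fin (n * e)) A)) (lam c))
          (zed (fun s => (X s : MvPolynomial (Fin (n * e)) A)))) F) (i.val + 1) := by
  unfold eqn
  congr 1
  unfold vec
  rw [aeval_pen]
  simp only [add_sub_cancel]
  rfl

theorem eqn_zero {Ω A : Type} [CommRing Ω] [CommRing A] [Algebra Ω A] {n e : ℕ}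
    (F : MvPolynomial (Fin (n + 1)) Ω) (c : Fin e → Ω) (i : Fin (n * e)) :
    eqn F c (0 : A) i = gt (fun k => algebraMap Ω A (cc n c k)) i := by
  rw [B1_eqn]
  simp only [map_zero, zero_mul, add_zero]
  rw [Polynomial.coeff_sub, B1_zed_prod, coeff_prod, B1_map_lam, B1_lam_pow, coeff_prod]
  unfold gt
  have e1 : eval (fun s => (X s : MvPolynomial (Fin (n * e)) A))
      (esymm (Fin (n * e)) (MvPolynomial (Fin (n * e)) A) (i.val + 1))
      = esymm (Fin (n * e)) A (i.val + 1) := by
    unfold esymm
    rw [map_sum]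
    refine Finset.sum_congr rfl fun t _ => ?_
    rw [map_prod]
    simp only [eval_X]
  have e2 : eval (cc n fun l => algebraMap Ω (MvPolynomial (Fin (n * e)) A) (c l))
      (esymm (Fin (n * e)) (MvPolynomial (Fin (n * e)) A) (i.val + 1))
      = C (eval (fun k => algebraMap Ω A (cc n c k)) (esymm (Fin (n * e)) A (i.val + 1))) := by
    unfold esymm
    rw [map_sum, map_sum, map_sum]
    refine Finset.sum_congr rfl fun t _ => ?_
    rw [map_prod, map_prod, map_prod]
    refine Finset.prod_congr rfl fun k _ => ?_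
    rw [eval_X, eval_X]
    rfl
  rw [e1, e2, map_mul, map_pow, map_neg, map_one]

theorem eqn_map {Ω A A' : Type} [CommRing Ω] [CommRing A] [Algebra Ω A] [CommRing A']
    [Algebra Ω A'] (φ : A →ₐ[Ω] A') {n e : ℕ} (F : MvPolynomial (Fin (n + 1)) Ω) (c : Fin e → Ω)
    (ζ : A) (i : Fin (n * e)) :
    map (φ : A →+* A') (eqn F c ζ i) = eqn F c (φ ζ) i := by
  rw [B1_eqn, B1_eqn]
  set Φ : MvPolynomial (Fin (n * e)) A →+* MvPolynomial (Fin (n * e)) A' :=
    map (φ : A →+* A') with hΦ
  have hal : Φ.comp (algebraMap Ω (MvPolynomial (Fin (n * e)) A))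
      = algebraMap Ω (MvPolynomial (Fin (n * e)) A') := by
    refine RingHom.ext fun x => ?_
    change Φ (C (algebraMap Ω A x)) = C (algebraMap Ω A' x)
    rw [hΦ, map_C]
    congr 1
    exact φ.commutes x
  have hL : Polynomial.map Φ (Polynomial.map (algebraMap Ω (MvPolynomial (Fin (n * e)) A)) (lam c))
      = Polynomial.map (algebraMap Ω (MvPolynomial (Fin (n * e)) A')) (lam c) := by
    rw [Polynomial.map_map, hal]
  have hz : ∀ j, Polynomial.map Φ (zed (fun s => (X s : MvPolynomial (Fin (n * e)) A)) j)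
      = zed (fun s => (X s : MvPolynomial (Fin (n * e)) A')) j := by
    intro j
    unfold zed
    rw [Polynomial.map_prod]
    refine Finset.prod_congr rfl fun l _ => ?_
    rw [Polynomial.map_sub, Polynomial.map_one, Polynomial.map_mul, Polynomial.map_C,
      Polynomial.map_X, hΦ, map_X]
  have hF : Polynomial.map Φ (aeval (vec (Polynomial.map
          (algebraMap Ω (MvPolynomial (Fin (n * e)) A)) (lam c))
          (zed (fun s => (X s : MvPolynomial (Fin (n * e)) A)))) F)
      = aeval (vec (Polynomial.map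
          (algebraMap Ω (MvPolynomial (Fin (n * e)) A')) (lam c))
          (zed (fun s => (X s : MvPolynomial (Fin (n * e)) A')))) F := by
    have h1 := map_aeval (vec (Polynomial.map
          (algebraMap Ω (MvPolynomial (Fin (n * e)) A)) (lam c))
          (zed (fun s => (X s : MvPolynomial (Fin (n * e)) A)))) (Polynomial.mapRingHom Φ) F
    rw [Polynomial.coe_mapRingHom] at h1
    rw [h1, aeval_def, coe_eval₂Hom]
    congr 1
    · refine RingHom.ext fun x => ?_
      change Polynomial.map Φ (Polynomial.C (algebraMap Ω (MvPolynomial (Fin (n * e)) A) x)) = _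
      rw [Polynomial.map_C]
      have h2 := RingHom.congr_fun hal x
      rw [RingHom.comp_apply] at h2
      rw [h2]
      rfl
    · funext j
      unfold vec
      refine Fin.cases ?_ (fun j => ?_) j
      · rw [Fin.cons_zero, Fin.cons_zero]
        exact hL
      · rw [Fin.cons_succ, Fin.cons_succ, Polynomial.map_sub, hL, hz]
  rw [← Polynomial.coeff_map, Polynomial.map_add, Polynomial.map_sub, Polynomial.map_mul,
    Polynomial.map_prod, Polynomial.map_pow, hL, hF, Finset.prod_congr rfl fun j _ => hz j,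
    Polynomial.map_C, hΦ, map_C]
  rfl

end Pool.Agent.LibSU9
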