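import Pool.Agent.LibSU9.Defs

/-!
[SU9 B2] (SHORT/MEDIUM; only Mathlib + Defs) Degree bound.

PLAN. Call a polynomial `Q : Polynomial (MvPolynomial σ A)` good if `(Q.coeff i).totalDegree ≤ i` for all `i`. Good polynomials form a subring containing
the constants `C (C a)` and all `Q` with coefficients in `A`, and `1 - C (X s) * X`; closed under sums, products (`totalDegree_add`, `totalDegree_mul`,
`Polynomial.coeff_mul`, `totalDegree_finset_sum`). `aeval (vec ..) (pen F ζ)` is obtained from good polynomials by sums and products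
(`MvPolynomial.aeval_def`, `eval₂` as a finite sum of products, or `MvPolynomial.induction_on`, or: good polynomials form an `A`-subalgebra `S` and
`aeval` of a vector with values in `S` is in `S`: `Subalgebra` / `MvPolynomial.aeval` range lemma).
-/

namespace Pool.Agent.LibSU9

open MvPolynomial

private noncomputable def B2_S (σ A : Type) [CommRing A] :
    Subalgebra A (Polynomial (MvPolynomial σ A)) where
  carrier := {Q | ∀ i, (Q.coeff i).totalDegree ≤ i}
  mul_mem' := by
    intro P Q hP hQ i
    rw [Polynomial.coeff_mul]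
    refine (totalDegree_finsetSum _ _).trans ?_
    apply Finset.sup_le
    intro x hx
    rw [Finset.HasAntidiagonal.mem_antidiagonal] at hx
    refine (totalDegree_mul _ _).trans ?_
    rw [← hx]
    exact Nat.add_le_add (hP _) (hQ _)
  add_mem' := by
    intro P Q hP hQ i
    rw [Polynomial.coeff_add]
    exact (totalDegree_add _ _).trans (max_le (hP i) (hQ i))
  algebraMap_mem' := by
    intro a i
    rw [Polynomial.algebraMap_apply, Polynomial.coeff_C, MvPolynomial.algebraMap_eq]
    split_ifs
    · rw [totalDegree_C]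
      exact Nat.zero_le _
    · rw [totalDegree_zero]
      exact Nat.zero_le _

private lemma B2_mem {σ A : Type} [CommRing A] (Q : Polynomial (MvPolynomial σ A)) :
    Q ∈ B2_S σ A ↔ ∀ i, (Q.coeff i).totalDegree ≤ i := Iff.rfl

private lemma B2_aeval {σ τ A : Type} [CommRing A] (v : τ → Polynomial (MvPolynomial σ A))
    (hv : ∀ j, v j ∈ B2_S σ A) (p : MvPolynomial τ A) : aeval v p ∈ B2_S σ A := by
  induction p using MvPolynomial.induction_on with
  | C a =>
    rw [aeval_C]
    exact (B2_S σ A).algebraMap_mem a
  | add p q hp hq =>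
    rw [map_add]
    exact (B2_S σ A).add_mem hp hq
  | mul_X p j hp =>
    rw [map_mul, aeval_X]
    exact (B2_S σ A).mul_mem hp (hv j)

private lemma B2_X {σ A : Type} [CommRing A] (s : σ) :
    (1 - Polynomial.C (X s : MvPolynomial σ A) * Polynomial.X) ∈ B2_S σ A := by
  refine (B2_S σ A).sub_mem (B2_S σ A).one_mem ?_
  rw [B2_mem]
  intro i
  rw [Polynomial.coeff_C_mul, Polynomial.coeff_X]
  split_ifs with h
  · rw [mul_one, ← h]
    refine (totalDegree_monomial_le _ _).trans ?_
    simp
  · rw [mul_zero, totalDegree_zero]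
    exact Nat.zero_le _

private lemma B2_map {Ω σ A : Type} [CommRing Ω] [CommRing A] [Algebra Ω A] (P : Polynomial Ω) :
    Polynomial.map (algebraMap Ω (MvPolynomial σ A)) P ∈ B2_S σ A := by
  rw [B2_mem]
  intro i
  rw [Polynomial.coeff_map, MvPolynomial.algebraMap_apply, totalDegree_C]
  exact Nat.zero_le _

theorem eqn_degree {Ω A : Type} [CommRing Ω] [CommRing A] [Algebra Ω A] {n e : ℕ}
    (F : MvPolynomial (Fin (n + 1)) Ω) (c : Fin e → Ω) (ζ : A) (i : Fin (n * e)) :
    (eqn F c ζ i).totalDegree ≤ i.val + 1 := by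
  have h := B2_aeval (vec (Polynomial.map (algebraMap Ω (MvPolynomial (Fin (n * e)) A)) (lam c))
      (zed (fun s => (X s : MvPolynomial (Fin (n * e)) A)))) (by
    intro j
    refine Fin.cases ?_ (fun j => ?_) j
    · exact B2_map _
    · show zed (fun s => (X s : MvPolynomial (Fin (n * e)) A)) j -
        Polynomial.map (algebraMap Ω (MvPolynomial (Fin (n * e)) A)) (lam c) ∈ B2_S _ A
      refine (B2_S _ A).sub_mem ?_ (B2_map _)
      unfold zed
      exact (B2_S _ A).prod_mem fun l _ => B2_X _) (pen F ζ)
  exact h (i.val + 1)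

end Pool.Agent.LibSU9
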