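import Pool.Agent.LibSU9.B1

/-!
[SU9 B3] (MEDIUM; may cite B1 as stated) A common zero of the equations is a solution of the polynomial identity.

PLAN. Let `V = vec (lam c) (zed a)` over `A`, `Q = aeval V (pen F ζ) : Polynomial A`. Its coefficients of `t^{i+1}`, `i < n e`, are `eval a (eqn F c ζ i) = 0`
(evaluation is the `A`-algebra homomorphism `eval a : MvPolynomial (Fin (n e)) A → A`, mapped to `Polynomial`; it sends `X s` to `a s`).
Coefficient of `t^0`: `V 0` has constant coefficient `1`, `V (j+1)` has constant coefficient `0`, so it is `eval (Pi.single 0 1) (pen F ζ)` (use the ring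
homomorphism `Polynomial.constantCoeff` / evaluation at 0) `= 1 - 1 + ζ * 0`. Coefficients of `t^m`, `m > n e`: all entries of `V` have natDegree `≤ e` and
`pen F ζ` is homogeneous of degree `n` (`tor` is: `IsHomogeneous.prod`), so natDegree `Q ≤ n e` (finite sum of products of `n` entries).
-/

namespace Pool.Agent.LibSU9

open MvPolynomial

theorem tor_homogeneous (A : Type) [CommRing A] (n : ℕ) : (tor A n).IsHomogeneous n := by
  unfold tor
  refine IsHomogeneous.sub ?_ ?_
  · have h := IsHomogeneous.prod (Finset.univ : Finset (Fin n))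
      (fun j => (X 0 + X j.succ : MvPolynomial (Fin (n + 1)) A)) (fun _ => 1)
      (fun j _ => (isHomogeneous_X A 0).add (isHomogeneous_X A j.succ))
    simpa using h
  · have h := (isHomogeneous_X A (0 : Fin (n + 1))).pow n
    simpa using h

/-- degree of the value of a form at a vector of polynomials -/
theorem natDegree_aeval_le {A B : Type} [CommRing A] [CommRing B] [Algebra A B] {m d e : ℕ}
    (F : MvPolynomial (Fin m) A) (hF : F.IsHomogeneous d) (x : Fin m → Polynomial B)
    (hx : ∀ i, (x i).natDegree ≤ e) : (aeval x F : Polynomial B).natDegree ≤ d * e := by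
  rw [aeval_def, eval₂_eq']
  refine Polynomial.natDegree_sum_le_of_forall_le _ _ fun s hs => ?_
  have hd : ∑ i, s i = d := by
    have h1 := hF (mem_support_iff.1 hs)
    have h2 : s.degree = d := by
      rw [Finsupp.degree_eq_weight_one]
      exact h1
    rw [Finsupp.degree_eq_sum] at h2
    exact h2
  have h2 : (algebraMap A (Polynomial B)) (coeff s F) = Polynomial.C (algebraMap A B (coeff s F)) := rfl
  rw [h2]
  refine (Polynomial.natDegree_C_mul_le _ _).trans ?_
  refine (Polynomial.natDegree_prod_le _ _).trans ?_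
  calc ∑ i, (x i ^ s i).natDegree ≤ ∑ i, s i * e := by
        refine Finset.sum_le_sum fun i _ => ?_
        exact Polynomial.natDegree_pow_le_of_le (s i) (hx i)
    _ = d * e := by rw [← Finset.sum_mul, hd]

private theorem B3_natDegree_prod {A : Type} [CommRing A] {e : ℕ} (c : Fin e → A) :
    (∏ l, (1 - Polynomial.C (c l) * Polynomial.X) : Polynomial A).natDegree ≤ e := by
  refine (Polynomial.natDegree_prod_le _ _).trans ?_
  calc ∑ l : Fin e, (1 - Polynomial.C (c l) * Polynomial.X : Polynomial A).natDegree ≤ ∑ _l : Fin e, 1 := by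
        refine Finset.sum_le_sum fun l _ => ?_
        have h1 : (1 : Polynomial A).natDegree ≤ 1 := by
          rw [Polynomial.natDegree_one]
          exact Nat.zero_le 1
        have h2 : (Polynomial.C (c l) * Polynomial.X).natDegree ≤ 1 :=
          (Polynomial.natDegree_C_mul_le _ _).trans Polynomial.natDegree_X_le
        exact (Polynomial.natDegree_sub_le _ _).trans (max_le h1 h2)
    _ = e := by simp

private theorem B3_coeff_zero {A : Type} [CommRing A] {e : ℕ} (c : Fin e → A) :
    Polynomial.eval 0 (∏ l, (1 - Polynomial.C (c l) * Polynomial.X) : Polynomial A) = 1 := by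
  rw [Polynomial.eval_prod]
  refine Finset.prod_eq_one fun l _ => ?_
  simp

private theorem B3_map_lam {A A' : Type} [CommRing A] [CommRing A'] (f : A →+* A') {e : ℕ} (c : Fin e → A) :
    Polynomial.map f (∏ l, (1 - Polynomial.C (c l) * Polynomial.X)) =
      ∏ l, (1 - Polynomial.C (f (c l)) * Polynomial.X) := by
  rw [Polynomial.map_prod]
  refine Finset.prod_congr rfl fun l _ => ?_
  simp

theorem sol_of_eqn {Ω A : Type} [CommRing Ω] [CommRing A] [Algebra Ω A] {n e : ℕ}
    (F : MvPolynomial (Fin (n + 1)) Ω) (hF : F.IsHomogeneous n)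
    (h0 : eval (Pi.single 0 1 : Fin (n + 1) → Ω) F = 0) (c : Fin e → Ω) (ζ : A)
    (a : Fin (n * e) → A) (h : ∀ i, eval a (eqn F c ζ i) = 0) :
    aeval (R := A) (vec ((lam c).map (algebraMap Ω A)) (zed a)) (pen F ζ) = 0 := by
  set V : Fin (n + 1) → Polynomial A := vec ((lam c).map (algebraMap Ω A)) (zed a) with hV
  let V' : Fin (n + 1) → Polynomial (MvPolynomial (Fin (n * e)) A) :=
    vec (Polynomial.map (algebraMap Ω (MvPolynomial (Fin (n * e)) A)) (lam c))
      (zed (fun s => (X s : MvPolynomial (Fin (n * e)) A)))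
  let Φ : Polynomial (MvPolynomial (Fin (n * e)) A) →ₐ[A] Polynomial A :=
    Polynomial.mapAlgHom (aeval a : MvPolynomial (Fin (n * e)) A →ₐ[A] A)
  have hlam : Φ (Polynomial.map (algebraMap Ω (MvPolynomial (Fin (n * e)) A)) (lam c)) =
      (lam c).map (algebraMap Ω A) := by
    show Polynomial.map ((aeval a : MvPolynomial (Fin (n * e)) A →ₐ[A] A) : MvPolynomial (Fin (n * e)) A →+* A)
      (Polynomial.map (algebraMap Ω (MvPolynomial (Fin (n * e)) A)) (lam c)) = _
    rw [Polynomial.map_map]
    congr 1
    ext x
    show (aeval a : MvPolynomial (Fin (n * e)) A →ₐ[A] A) (algebraMap Ω (MvPolynomial (Fin (n * e)) A) x) = _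
    rw [IsScalarTower.algebraMap_apply Ω A (MvPolynomial (Fin (n * e)) A), AlgHom.commutes]
    rfl
  have hzed : ∀ j, Φ (zed (fun s => (X s : MvPolynomial (Fin (n * e)) A)) j) = zed a j := by
    intro j
    show Polynomial.map ((aeval a : MvPolynomial (Fin (n * e)) A →ₐ[A] A) : MvPolynomial (Fin (n * e)) A →+* A)
      (zed (fun s => (X s : MvPolynomial (Fin (n * e)) A)) j) = _
    unfold zed
    rw [Polynomial.map_prod]
    refine Finset.prod_congr rfl fun l _ => ?_
    simp
  have hΦV : ∀ i, Φ (V' i) = V i := by
    intro i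
    refine Fin.cases ?_ (fun j => ?_) i
    · exact hlam
    · show Φ (zed (fun s => (X s : MvPolynomial (Fin (n * e)) A)) j -
        Polynomial.map (algebraMap Ω (MvPolynomial (Fin (n * e)) A)) (lam c)) =
        zed a j - (lam c).map (algebraMap Ω A)
      rw [map_sub, hlam, hzed]
  have hQ : Φ (aeval V' (pen F ζ)) = aeval V (pen F ζ) := by
    rw [comp_aeval_apply]
    congr 2
    funext i
    exact hΦV i
  have hdegV : ∀ i, (V i).natDegree ≤ e := by
    have hl : ((lam c).map (algebraMap Ω A)).natDegree ≤ e := by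
      unfold lam
      rw [B3_map_lam]
      exact B3_natDegree_prod _
    intro i
    refine Fin.cases ?_ (fun j => ?_) i
    · exact hl
    · have hz : (zed a j).natDegree ≤ e := B3_natDegree_prod _
      show (zed a j - (lam c).map (algebraMap Ω A)).natDegree ≤ e
      exact (Polynomial.natDegree_sub_le _ _).trans (max_le hz hl)
  have hpen : (pen F ζ).IsHomogeneous n := by
    unfold pen
    refine (tor_homogeneous A n).add ?_
    have h1 := (isHomogeneous_C (Fin (n + 1)) ζ).mul (hF.map (algebraMap Ω A))
    rwa [zero_add] at h1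
  have hdeg := natDegree_aeval_le (pen F ζ) hpen V hdegV
  have hconst : Polynomial.eval 0 (aeval V (pen F ζ)) = 0 := by
    have h1 : Polynomial.aeval (0 : A) (aeval V (pen F ζ)) =
        aeval (fun i => Polynomial.aeval (0 : A) (V i)) (pen F ζ) := comp_aeval_apply _ _ _
    rw [Polynomial.coe_aeval_eq_eval] at h1
    rw [h1]
    have hl0 : Polynomial.eval 0 ((lam c).map (algebraMap Ω A)) = 1 := by
      unfold lam
      rw [B3_map_lam]
      exact B3_coeff_zero _
    have h2 : (fun i => Polynomial.eval (0 : A) (V i)) = Fin.cons 1 (fun _ : Fin n => (0 : A)) := by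
      funext i
      refine Fin.cases ?_ (fun j => ?_) i
      · exact hl0
      · show Polynomial.eval 0 (zed a j - (lam c).map (algebraMap Ω A)) = 0
        rw [Polynomial.eval_sub, hl0]
        unfold zed
        rw [B3_coeff_zero, sub_self]
    rw [h2, aeval_pen]
    have h3 : (Fin.cons 1 (fun _ : Fin n => (0 : A)) : Fin (n + 1) → A) =
        fun i => algebraMap Ω A ((Pi.single 0 1 : Fin (n + 1) → Ω) i) := by
      funext i
      refine Fin.cases ?_ (fun j => ?_) i
      · simp
      · simp
    have h4 : aeval (Fin.cons 1 (fun _ : Fin n => (0 : A)) : Fin (n + 1) → A) F = 0 := by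
      rw [h3]
      have h5 := comp_aeval_apply (fun i => (Pi.single 0 1 : Fin (n + 1) → Ω) i) (Algebra.ofId Ω A) F
      have h6 : (aeval (fun i => (Pi.single 0 1 : Fin (n + 1) → Ω) i)) F = 0 := by
        rw [← h0]
        rfl
      rw [h6, map_zero] at h5
      exact h5.symm
    rw [h4]
    simp
  ext m
  rw [Polynomial.coeff_zero]
  rcases Nat.eq_zero_or_pos m with hm | hm
  · rw [hm, Polynomial.coeff_zero_eq_eval_zero, hconst]
  · by_cases hle : m ≤ n * e
    · have h7 := h ⟨m - 1, by omega⟩
      rw [← hQ]
      show (Polynomial.map ((aeval a : MvPolynomial (Fin (n * e)) A →ₐ[A] A) :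
        MvPolynomial (Fin (n * e)) A →+* A) (aeval V' (pen F ζ))).coeff m = 0
      rw [Polynomial.coeff_map]
      unfold eqn at h7
      have h8 : m - 1 + 1 = m := by omega
      simp only [h8] at h7
      exact h7
    · exact Polynomial.coeff_eq_zero_of_natDegree_lt (by omega)

end Pool.Agent.LibSU9
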