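import Pool.Agent.LibSU9.Defs

/-!
[SU9 B4] (SHORT/MEDIUM; only Mathlib + Defs) The separating function.

PLAN. `theta_map`, `eval_theta`: `map` / `eval` is a ring homomorphism; coefficient of `zed` (`Polynomial.coeff_map`, `Polynomial.map_prod`).
`zed_degree`: product of `e` factors of degree `≤ 1`. `zed_eq_iff`: if all coefficients of `t^i`, `i ≤ e`, of `zed a j` and `lam c` agree they are equal.
`exists_r`: for the finitely many `τ` for which some difference is nonzero the vector `u_τ = (coeff_i (zed (cc ∘ τ) j) - coeff_i (lam c))_{j,i}` is nonzero; an infinite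
field has a vector `r` with `∑ r u_τ ≠ 0` for these finitely many `τ` (finite union of proper subspaces: `Subspace.biUnion_ne_univ_of_top_nmem`,
or a nonzero polynomial (the product of the linear forms) has a nonzero value, `MvPolynomial.funext`).
`lam_eq_iff`: `∏_l (1 - c_{f l} t) = ∏_l (1 - c_l t)`, `c` injective with nonzero values: if `l₀` is not in the range of `f` evaluate at `t = 1 / c_{l₀}`: right side `0`, left
side `≠ 0`. So `f` is surjective, hence bijective; conversely reindex.
-/

namespace Pool.Agent.LibSU9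

open MvPolynomial

private theorem B4_zed_map {A B : Type} [CommRing A] [CommRing B] (ψ : A →+* B) {n e : ℕ}
    (a : Fin (n * e) → A) (j : Fin n) :
    Polynomial.map ψ (zed a j) = zed (fun s => ψ (a s)) j := by
  unfold zed
  rw [Polynomial.map_prod]
  refine Finset.prod_congr rfl fun l _ => ?_
  rw [Polynomial.map_sub, Polynomial.map_mul, Polynomial.map_C, Polynomial.map_X, Polynomial.map_one]

private theorem B4_zed_coeff_map {A B : Type} [CommRing A] [CommRing B] (ψ : A →+* B) {n e : ℕ}
    (a : Fin (n * e) → A) (j : Fin n) (i : ℕ) :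
    ψ ((zed a j).coeff i) = (zed (fun s => ψ (a s)) j).coeff i := by
  rw [← B4_zed_map, Polynomial.coeff_map]

private theorem B4_deg1 {A : Type} [CommRing A] (x : A) :
    (1 - Polynomial.C x * Polynomial.X : Polynomial A).natDegree ≤ 1 := by
  refine (Polynomial.natDegree_sub_le _ _).trans ?_
  rw [Polynomial.natDegree_one]
  exact max_le (Nat.zero_le _)
    ((Polynomial.natDegree_C_mul_le _ _).trans Polynomial.natDegree_X_le)

private theorem B4_prod_deg {A : Type} [CommRing A] {e : ℕ} (x : Fin e → A) :
    (∏ l, (1 - Polynomial.C (x l) * Polynomial.X : Polynomial A)).natDegree ≤ e := by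
  refine (Polynomial.natDegree_prod_le _ _).trans ?_
  refine (Finset.sum_le_sum fun l _ => B4_deg1 (x l)).trans ?_
  simp

private theorem B4_prod_coeff_zero {A : Type} [CommRing A] {e : ℕ} (x : Fin e → A) :
    (∏ l, (1 - Polynomial.C (x l) * Polynomial.X : Polynomial A)).coeff 0 = 1 := by
  rw [Polynomial.coeff_zero_eq_eval_zero, Polynomial.eval_prod]
  refine Finset.prod_eq_one fun l _ => ?_
  simp

private theorem B4_iff {Ω : Type} [Field Ω] {e : ℕ} (c : Fin e → Ω)
    (hc : Function.Injective c) (hc0 : ∀ l, c l ≠ 0) (f : Fin e → Fin e) :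
    (∏ l : Fin e, (1 - Polynomial.C (c (f l)) * Polynomial.X : Polynomial Ω)) = lam c ↔
      Function.Bijective f := by
  unfold lam
  constructor
  · intro h
    have hs : Function.Surjective f := by
      intro l₀
      have h2 := congrArg (Polynomial.eval (c l₀)⁻¹) h
      rw [Polynomial.eval_prod, Polynomial.eval_prod] at h2
      have h3 : (∏ l : Fin e, Polynomial.eval (c l₀)⁻¹
          (1 - Polynomial.C (c l) * Polynomial.X : Polynomial Ω)) = 0 := by
        refine Finset.prod_eq_zero (Finset.mem_univ l₀) ?_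
        simp [hc0 l₀]
      rw [h3, Finset.prod_eq_zero_iff] at h2
      obtain ⟨l, _, hl⟩ := h2
      refine ⟨l, hc ?_⟩
      simp only [Polynomial.eval_sub, Polynomial.eval_one, Polynomial.eval_mul,
        Polynomial.eval_C, Polynomial.eval_X] at hl
      have h4 : c (f l) * (c l₀)⁻¹ = 1 := (sub_eq_zero.mp hl).symm
      have h5 := congrArg (fun t => t * c l₀) h4
      simpa [mul_assoc, hc0 l₀] using h5
    exact ⟨Finite.injective_iff_surjective.mpr hs, hs⟩
  · intro h
    exact Fintype.prod_bijective f h _ _ fun l => rfl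


theorem theta_map {Ω A A' : Type} [CommRing Ω] [CommRing A] [Algebra Ω A] [CommRing A']
    [Algebra Ω A'] (φ : A →ₐ[Ω] A') {n e : ℕ} (c : Fin e → Ω) (r : Fin n → Fin (e + 1) → Ω) :
    map (φ : A →+* A') (theta c r) = theta c r := by
  unfold theta
  simp only [map_sum, map_mul, map_sub, map_C]
  refine Finset.sum_congr rfl fun j _ => Finset.sum_congr rfl fun i _ => ?_
  have h1 : ∀ w : Ω, (φ : A →+* A') (algebraMap Ω A w) = algebraMap Ω A' w := fun w => φ.commutes w
  rw [h1, h1, B4_zed_coeff_map]
  simp only [map_X]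

theorem eval_theta {Ω A : Type} [CommRing Ω] [CommRing A] [Algebra Ω A] {n e : ℕ}
    (c : Fin e → Ω) (r : Fin n → Fin (e + 1) → Ω) (a : Fin (n * e) → A) :
    eval a (theta c r) = ∑ j, ∑ i : Fin (e + 1), algebraMap Ω A (r j i) *
      ((zed a j).coeff i.val - algebraMap Ω A ((lam c).coeff i.val)) := by
  unfold theta
  simp only [map_sum, map_mul, map_sub, eval_C]
  refine Finset.sum_congr rfl fun j _ => Finset.sum_congr rfl fun i _ => ?_
  rw [B4_zed_coeff_map]
  simp only [eval_X]

theorem zed_degree {A : Type} [CommRing A] {n e : ℕ} (a : Fin (n * e) → A) (j : Fin n) :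
    (zed a j).natDegree ≤ e := by
  exact B4_prod_deg _

theorem lam_degree {A : Type} [CommRing A] {e : ℕ} (c : Fin e → A) : (lam c).natDegree ≤ e := by
  exact B4_prod_deg _

theorem zed_coeff_zero {A : Type} [CommRing A] {n e : ℕ} (a : Fin (n * e) → A) (j : Fin n) :
    (zed a j).coeff 0 = 1 := by
  exact B4_prod_coeff_zero _

theorem lam_coeff_zero {A : Type} [CommRing A] {e : ℕ} (c : Fin e → A) : (lam c).coeff 0 = 1 := by
  exact B4_prod_coeff_zero _

theorem exists_r {Ω : Type} [Field Ω] [Infinite Ω] {n e : ℕ} (c : Fin e → Ω) :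
    ∃ r : Fin n → Fin (e + 1) → Ω, ∀ τ : Equiv.Perm (Fin (n * e)),
      eval (fun k => cc n c (τ k)) (theta (A := Ω) c r) = 0 →
      ∀ j : Fin n, zed (fun k => cc n c (τ k)) j = lam c := by
  classical
  let u : Equiv.Perm (Fin (n * e)) → Fin n → Fin (e + 1) → Ω := fun τ j i =>
    (zed (fun k => cc n c (τ k)) j).coeff i.val - (lam c).coeff i.val
  let ι : Type := {τ : Equiv.Perm (Fin (n * e)) // ∃ j i, u τ j i ≠ 0}
  let f : ι → Module.Dual Ω (Fin n → Fin (e + 1) → Ω) := fun τ =>
    { toFun := fun r => ∑ j, ∑ i : Fin (e + 1), r j i * u τ.1 j i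
      map_add' := fun r s => by
        simp only [Pi.add_apply, add_mul, Finset.sum_add_distrib]
      map_smul' := fun t r => by
        simp only [Pi.smul_apply, smul_eq_mul, RingHom.id_apply, Finset.mul_sum, mul_assoc] }
  have hf : ∀ τ : ι, ∃ r, f τ r ≠ 0 := by
    rintro ⟨τ, j, i, h⟩
    refine ⟨fun j' i' => if j' = j then (if i' = i then 1 else 0) else 0, ?_⟩
    change (∑ j', ∑ i' : Fin (e + 1), (if j' = j then (if i' = i then (1 : Ω) else 0) else 0) *
      u τ j' i') ≠ 0
    rw [Finset.sum_eq_single j, Finset.sum_eq_single i]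
    · simpa using h
    · intro i' _ hi'
      simp [hi']
    · intro hi'
      exact absurd (Finset.mem_univ _) hi'
    · intro j' _ hj'
      simp [hj']
    · intro hj'
      exact absurd (Finset.mem_univ _) hj'
  obtain ⟨r, hr⟩ := Module.Dual.exists_forall_ne_zero_of_forall_exists f hf
  refine ⟨r, fun τ hτ j => ?_⟩
  rw [eval_theta] at hτ
  by_contra hne
  have hex : ∃ j i, u τ j i ≠ 0 := by
    by_contra hno
    push Not at hno
    apply hne
    ext i
    by_cases hi : i < e + 1
    · have := hno j ⟨i, hi⟩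
      exact sub_eq_zero.mp this
    · rw [Polynomial.coeff_eq_zero_of_natDegree_lt, Polynomial.coeff_eq_zero_of_natDegree_lt]
      · have := lam_degree c
        omega
      · have := zed_degree (fun k => cc n c (τ k)) j
        omega
  exact hr ⟨τ, hex⟩ hτ

theorem zed_eq_lam_iff {Ω : Type} [Field Ω] {n e : ℕ} (c : Fin e → Ω)
    (hc : Function.Injective c) (hc0 : ∀ l, c l ≠ 0) (τ : Equiv.Perm (Fin (n * e))) (j : Fin n) :
    zed (fun k => cc n c (τ k)) j = lam c ↔
      Function.Bijective (fun l : Fin e => (finProdFinEquiv.symm (τ (finProdFinEquiv (j, l)))).2) := by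
  have hkey : zed (fun k => cc n c (τ k)) j = ∏ l : Fin e, (1 - Polynomial.C
      (c ((finProdFinEquiv.symm (τ (finProdFinEquiv (j, l)))).2)) * Polynomial.X) := rfl
  rw [hkey]
  exact B4_iff c hc hc0 _

end Pool.Agent.LibSU9
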