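import Pool.Agent.LibSU9.Defs

/-!
[SU9 B5] (MEDIUM; only Mathlib) Counting the permutations which give the trivial solution.

PLAN. Reindex by `finProdFinEquiv : Fin n × Fin e ≃ Fin (n * e)`: permutations `σ` of `Fin n × Fin e` such that for every `j` the map
`l ↦ (σ (j, l)).2` is bijective. Bijection with `(Fin n → Perm (Fin e)) × (Fin e → Perm (Fin n))`: given `(ρ, κ)` put
`σ (j, l) = (κ (ρ j l) j, ρ j l)`; conversely `ρ j l = (σ (j, l)).2` and `κ m j = (σ (j, (ρ j)⁻¹ m)).1`, which is a permutation of `Fin n` for every `m` because the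
`n` cells `(j, (ρ j)⁻¹ m)` are mapped injectively to the cells `(·, m)`. Then `Nat.card_congr`, `Nat.card_prod`, `Nat.card_pi`, `Nat.card_perm`.
-/

namespace Pool.Agent.LibSU9

private noncomputable def B5_phi (α β : Type) (p : (α → Equiv.Perm β) × (β → Equiv.Perm α)) :
    {σ : Equiv.Perm (α × β) // ∀ j : α, Function.Bijective (fun l : β => (σ (j, l)).2)} :=
  ⟨(Equiv.prodCongrRight p.1).trans (Equiv.prodCongrLeft p.2), fun j => by
    have : (fun l : β => (((Equiv.prodCongrRight p.1).trans (Equiv.prodCongrLeft p.2)) (j, l)).2) =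
        fun l => p.1 j l := by
      funext l
      simp [Equiv.prodCongrRight, Equiv.prodCongrLeft]
    rw [this]
    exact (p.1 j).bijective⟩

private theorem B5_phi_apply (α β : Type) (p : (α → Equiv.Perm β) × (β → Equiv.Perm α)) (j : α) (l : β) :
    (B5_phi α β p).1 (j, l) = (p.2 (p.1 j l) j, p.1 j l) := by
  simp [B5_phi, Equiv.prodCongrRight, Equiv.prodCongrLeft]

private theorem B5_bij (α β : Type) [Finite α] : Function.Bijective (B5_phi α β) := by
  constructor
  · rintro ⟨ρ, κ⟩ ⟨ρ', κ'⟩ h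
    have h1 : ∀ j l, (κ (ρ j l) j, ρ j l) = (κ' (ρ' j l) j, ρ' j l) := by
      intro j l
      have h2 := B5_phi_apply α β (ρ, κ) j l
      have h3 := B5_phi_apply α β (ρ', κ') j l
      rw [h] at h2
      rw [← h2, ← h3]
    have hρ : ρ = ρ' := by
      funext j
      ext l
      exact congrArg Prod.snd (h1 j l)
    subst hρ
    have hκ : κ = κ' := by
      funext m
      ext j
      have h2 := congrArg Prod.fst (h1 j ((ρ j).symm m))
      simpa using h2
    rw [hκ]
  · rintro ⟨σ, hσ⟩
    obtain ⟨ρ, hρ⟩ : ∃ ρ : α → Equiv.Perm β, ∀ j l, ρ j l = (σ (j, l)).2 :=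
      ⟨fun j => Equiv.ofBijective _ (hσ j), fun j l => rfl⟩
    have hinj : ∀ m : β, Function.Injective (fun j : α => (σ (j, (ρ j).symm m)).1) := by
      intro m j j' h
      have h1 : ∀ j : α, (σ (j, (ρ j).symm m)).2 = m := by
        intro j
        rw [← hρ, Equiv.apply_symm_apply]
      have h2 : σ (j, (ρ j).symm m) = σ (j', (ρ j').symm m) :=
        Prod.ext h (by rw [h1, h1])
      exact congrArg Prod.fst (σ.injective h2)
    obtain ⟨κ, hκ⟩ : ∃ κ : β → Equiv.Perm α, ∀ m j, κ m j = (σ (j, (ρ j).symm m)).1 :=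
      ⟨fun m => Equiv.ofBijective _ ((Finite.injective_iff_bijective).1 (hinj m)), fun m j => rfl⟩
    refine ⟨(ρ, κ), ?_⟩
    apply Subtype.ext
    apply Equiv.ext
    rintro ⟨j, l⟩
    rw [B5_phi_apply]
    refine Prod.ext ?_ (hρ j l)
    show κ (ρ j l) j = (σ (j, l)).1
    rw [hκ, Equiv.symm_apply_apply]

theorem count (n e : ℕ) :
    Nat.card {τ : Equiv.Perm (Fin (n * e)) // ∀ j : Fin n, Function.Bijective
      (fun l : Fin e => (finProdFinEquiv.symm (τ (finProdFinEquiv (j, l)))).2)} =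
      e.factorial ^ n * n.factorial ^ e := by
  have h1 : {τ : Equiv.Perm (Fin (n * e)) // ∀ j : Fin n, Function.Bijective
      (fun l : Fin e => (finProdFinEquiv.symm (τ (finProdFinEquiv (j, l)))).2)} ≃
      {σ : Equiv.Perm (Fin n × Fin e) // ∀ j : Fin n, Function.Bijective (fun l : Fin e => (σ (j, l)).2)} :=
    (Equiv.permCongr finProdFinEquiv.symm).subtypeEquiv fun τ => Iff.rfl
  rw [Nat.card_congr h1, ← Nat.card_congr (Equiv.ofBijective _ (B5_bij (Fin n) (Fin e)))]
  rw [Nat.card_eq_fintype_card, Fintype.card_prod, Fintype.card_fun, Fintype.card_fun, Fintype.card_perm,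
    Fintype.card_perm, Fintype.card_fin, Fintype.card_fin]

end Pool.Agent.LibSU9
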