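import Pool.Agent.LibSU9.B1

/-!
[SU9 C1] (MEDIUM; may cite `aeval_pen` of B1 as stated) No nontrivial solution reduces to the trivial one.

PLAN. `O` a valuation ring of `L` containing `Ω` (so every nonzero element of `Ω` is a unit of `O`), `O.valuation ζ < 1`, `v j` polynomials of degree `≤ e` without
constant term, all coefficients of valuation `< 1`, and `∏_j (λ + v_j) - λ^n + ζ F(λ, v) = 0`. Suppose some `v_j ≠ 0`. The values `v_j(1/c_l)`
(`e` points, and `v_j(0) = 0`, degree `≤ e`) determine `v_j`: so some `v_j(1/c_l) ≠ 0`; choose `(j₀, l₀)` with `ε = v_{j₀}(1/c_{l₀})` of maximal valuation; `ε ≠ 0`, and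
`v(ε) < 1`. By Lagrange interpolation at `0, 1/c_l` (`Lagrange.interpolate`, denominators are units from `Ω`; `Polynomial.eq_interpolate_of_eval_eq`) all coefficients of
all `v_j` are in `ε O`. Substitute `t = 1/c_{l₀} + ε s` (polynomials in `s`): `λ(1/c + ε s) = ε (κ s + ε (...))` with `κ = λ'(1/c_{l₀}) ∈ Ω`, `κ ≠ 0` (simple root) and `(...)` a polynomial
with coefficients in `O` (Taylor expansion, `Polynomial.taylor`); `v_j(1/c + ε s) = ε (u_j + ε (...))`, `u_j = v_j(1/c)/ε ∈ O`, `u_{j₀} = 1`. So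
`λ = ε L'`, `v_j = ε V_j'` with polynomials over `O`. The left side is homogeneous of degree `n` in `(λ, v)`: divide by `ε^n` and reduce modulo the maximal
ideal of `O` (`ζ ↦ 0`): in the residue field: `∏_j (κ s + ū_j) = (κ s)^n` as polynomials in `s`. Evaluate at `s = -ū_j/κ`: `0 = (-ū_j)^n`, so `ū_j = 0` for
all `j`; but `ū_{j₀} = 1`. Contradiction (`n ≥ 1` because `j₀` exists).
-/

namespace Pool.Agent.LibSU9

open MvPolynomial

private theorem C1_homog {Ω L : Type} [CommRing Ω] [CommRing L] [Algebra Ω L] {m n : ℕ}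
    (F : MvPolynomial (Fin m) Ω) (hF : F.IsHomogeneous n) (ε : L) (x : Fin m → L) :
    aeval (fun i => ε * x i) F = ε ^ n * aeval x F := by
  rw [aeval_def, aeval_def, eval₂_eq', eval₂_eq', Finset.mul_sum]
  refine Finset.sum_congr rfl fun d hd => ?_
  have hdeg : ∑ i, d i = n := by
    have h1 := hF (mem_support_iff.1 hd)
    rw [← h1, Finsupp.weight_apply, Finsupp.sum_fintype]
    · simp
    · simp
  have h2 : ∏ i, (ε * x i) ^ d i = ε ^ n * ∏ i, x i ^ d i := by
    simp only [mul_pow]
    rw [Finset.prod_mul_distrib, Finset.prod_pow_eq_pow_sum, hdeg]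
  rw [h2]
  ring

private theorem C1_int {Ω L : Type} [Field Ω] [Field L] [Algebra Ω L] (O : ValuationSubring L)
    (hO : ∀ a : Ω, algebraMap Ω L a ∈ O) {m : ℕ} (F : MvPolynomial (Fin m) Ω) (x : Fin m → L)
    (hx : ∀ i, x i ∈ O) : aeval x F ∈ O := by
  rw [aeval_def, eval₂_eq']
  exact sum_mem fun d _ => mul_mem (hO _) (prod_mem fun i _ => pow_mem (hx i) _)

private theorem C1_div {L : Type} [Field L] (O : ValuationSubring L) (W : Polynomial O) {s t : L}
    (hs : s ∈ O) (ht : t ∈ O) : ∃ q ∈ O, (W.map O.subtype).eval t - (W.map O.subtype).eval s =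
      (t - s) * q := by
  obtain ⟨q, hq⟩ := Polynomial.sub_dvd_eval_sub (⟨t, ht⟩ : O) ⟨s, hs⟩ W
  refine ⟨q, q.2, ?_⟩
  have h1 : ∀ (y : L) (hy : y ∈ O), (W.map O.subtype).eval y = ((W.eval ⟨y, hy⟩ : O) : L) := by
    intro y hy
    have h2 : y = O.subtype ⟨y, hy⟩ := rfl
    rw [Polynomial.eval_map]
    conv_lhs => rw [h2]
    rw [Polynomial.eval₂_at_apply]
    rfl
  rw [h1 t ht, h1 s hs]
  have h3 := congrArg (Subtype.val) hq
  simpa using h3

/-- interpolation: integral values at points of `Ω` give integral coefficients -/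
private theorem C1_interp {L : Type} [Field L] (O : ValuationSubring L) {ι : Type} [Fintype ι]
    [DecidableEq ι] (x : ι → L) (hx : Function.Injective x)
    (hxO : ∀ i j, i ≠ j → (x i - x j)⁻¹ ∈ O) (hx' : ∀ i, x i ∈ O) (p : Polynomial L)
    (hp : p.degree < Fintype.card ι) (hv : ∀ i, p.eval (x i) ∈ O) :
    ∃ W : Polynomial O, W.map O.subtype = p := by
  have h1 := Lagrange.eq_interpolate (s := Finset.univ) (v := x) hx.injOn
    (f := p) (by simpa using hp)
  have h2 : p ∈ Polynomial.lifts O.subtype := by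
    rw [h1, Lagrange.interpolate_apply]
    refine sum_mem fun i _ => mul_mem ?_ ?_
    · exact (Polynomial.mem_lifts _).2 ⟨Polynomial.C ⟨_, hv i⟩, by simp⟩
    · unfold Lagrange.basis
      refine prod_mem fun j hj => ?_
      have hij : i ≠ j := fun h => by simp [h] at hj
      unfold Lagrange.basisDivisor
      refine mul_mem ?_ ?_
      · exact (Polynomial.mem_lifts _).2 ⟨Polynomial.C ⟨_, hxO i j hij⟩, by simp⟩
      · exact (Polynomial.mem_lifts _).2 ⟨Polynomial.X - Polynomial.C ⟨_, hx' j⟩, by simp⟩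
  exact (Polynomial.mem_lifts _).1 h2

private theorem C1_lt {L : Type} [Field L] (O : ValuationSubring L) (p : Polynomial L)
    (hp : ∀ i, O.valuation (p.coeff i) < 1) {t : L} (ht : t ∈ O) : O.valuation (p.eval t) < 1 := by
  rw [Polynomial.eval_eq_sum_range]
  refine Valuation.map_sum_lt _ one_ne_zero fun i _ => ?_
  rw [map_mul]
  have h1 : O.valuation (t ^ i) ≤ 1 := (O.valuation_le_one_iff _).2 (pow_mem ht i)
  exact lt_of_le_of_lt (mul_le_of_le_one_right' h1) (hp i)

theorem no_small {Ω L : Type} [Field Ω] [Field L] [Algebra Ω L] (O : ValuationSubring L)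
    (hO : ∀ a : Ω, algebraMap Ω L a ∈ O) {n e : ℕ} (F : MvPolynomial (Fin (n + 1)) Ω)
    (hF : F.IsHomogeneous n) (c : Fin e → Ω) (hc : Function.Injective c) (hc0 : ∀ l, c l ≠ 0)
    (ζ : L) (hζ : O.valuation ζ < 1) (v : Fin n → Polynomial L)
    (hdeg : ∀ j, (v j).natDegree ≤ e) (h0 : ∀ j, (v j).coeff 0 = 0)
    (hv : ∀ j i, O.valuation ((v j).coeff i) < 1)
    (h : aeval (R := L) (Fin.cons ((lam c).map (algebraMap Ω L)) v : Fin (n + 1) → Polynomial L)
      (pen F ζ) = 0) : ∀ j, v j = 0 := by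
  classical
  by_contra hcon
  push Not at hcon
  obtain ⟨j₁, hj₁⟩ := hcon
  set cL : Fin e → L := fun l => algebraMap Ω L (c l) with hcL
  have hcL0 : ∀ l, cL l ≠ 0 := fun l => by simpa [hcL] using hc0 l
  -- the nodes
  let x0 : Option (Fin e) → Ω := fun o => o.elim 0 fun l => (c l)⁻¹
  have hx0 : Function.Injective x0 := by
    intro a b hab
    cases a with
    | none => cases b with
      | none => rfl
      | some l => exact absurd hab.symm (by simpa [x0] using inv_ne_zero (hc0 l))
    | some l => cases b with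
      | none => exact absurd hab (by simpa [x0] using inv_ne_zero (hc0 l))
      | some l' => rw [hc (inv_injective (show (c l)⁻¹ = (c l')⁻¹ from hab))]
  let x : Option (Fin e) → L := fun o => algebraMap Ω L (x0 o)
  have hx : Function.Injective x := (algebraMap Ω L).injective.comp hx0
  have hxO : ∀ i, x i ∈ O := fun i => hO _
  have hxO' : ∀ i j, i ≠ j → (x i - x j)⁻¹ ∈ O := by
    intro i j _
    have : (x i - x j)⁻¹ = algebraMap Ω L ((x0 i - x0 j)⁻¹) := by simp [x]
    rw [this]
    exact hO _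
  have hxs : ∀ l, x (some l) = (cL l)⁻¹ := fun l => by simp [x, x0, hcL]
  have hcard : Fintype.card (Option (Fin e)) = e + 1 := by simp
  have hdeg' : ∀ j, (v j).degree < Fintype.card (Option (Fin e)) := by
    intro j
    rw [hcard]
    refine lt_of_le_of_lt Polynomial.degree_le_natDegree ?_
    exact_mod_cast Nat.lt_succ_of_le (hdeg j)
  have hvx0 : ∀ j, (v j).eval (x none) = 0 := by
    intro j
    simp only [x, x0, Option.elim, map_zero]
    rw [← Polynomial.coeff_zero_eq_eval_zero]
    exact h0 j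
  -- a nonzero value
  obtain ⟨l₁, hl₁⟩ : ∃ l, (v j₁).eval (x (some l)) ≠ 0 := by
    by_contra hno
    push Not at hno
    apply hj₁
    refine Polynomial.eq_zero_of_natDegree_lt_card_of_eval_eq_zero (v j₁) hx (fun i => ?_) ?_
    · cases i with
      | none => exact hvx0 j₁
      | some l => exact hno l
    · rw [hcard]
      exact Nat.lt_succ_of_le (hdeg j₁)
  have : Nonempty (Fin n × Fin e) := ⟨(j₁, l₁)⟩
  obtain ⟨⟨j₀, l₀⟩, hmax⟩ := Finite.exists_max
    (fun q : Fin n × Fin e => O.valuation ((v q.1).eval (x (some q.2))))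
  set ε := (v j₀).eval (x (some l₀)) with hε
  have hε0 : ε ≠ 0 := by
    intro hz
    have h1 := hmax (j₁, l₁)
    simp only at h1
    rw [hz, map_zero, le_zero_iff] at h1
    exact hl₁ ((map_eq_zero _).1 h1)
  have hεlt : O.valuation ε < 1 := C1_lt O _ (hv j₀) (hxO _)
  have hεO : ε ∈ O := (O.valuation_le_one_iff _).1 hεlt.le
  have hdivε : ∀ y : L, O.valuation y ≤ O.valuation ε → y / ε ∈ O := by
    intro y hy
    rw [← O.valuation_le_one_iff, map_div₀]
    exact div_le_one_of_le₀ hy zero_le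
  -- all coefficients are multiples of `ε`
  have hW : ∀ j, ∃ W : Polynomial O, Polynomial.C ε * W.map O.subtype = v j := by
    intro j
    obtain ⟨W, hW⟩ := C1_interp O x hx hxO' hxO (Polynomial.C ε⁻¹ * v j) (by
      rw [Polynomial.degree_C_mul (inv_ne_zero hε0)]
      exact hdeg' j) (by
      intro i
      rw [Polynomial.eval_mul, Polynomial.eval_C]
      cases i with
      | none => rw [hvx0 j, mul_zero]; exact O.zero_mem
      | some l =>
        have h1 := hdivε _ (hmax (j, l))
        rwa [div_eq_inv_mul] at h1)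
    refine ⟨W, ?_⟩
    rw [hW, ← mul_assoc, ← Polynomial.C_mul, mul_inv_cancel₀ hε0, Polynomial.C_1, one_mul]
  choose W hW using hW
  -- the cofactor of the root
  let MO : Polynomial O := ∏ l ∈ Finset.univ.erase l₀,
    (1 - Polynomial.C (⟨cL l, hO _⟩ : O) * Polynomial.X)
  have hMO : ∀ s : L, (MO.map O.subtype).eval s = ∏ l ∈ Finset.univ.erase l₀, (1 - cL l * s) := by
    intro s
    simp only [MO, Polynomial.map_prod, Polynomial.eval_prod]
    refine Finset.prod_congr rfl fun l _ => ?_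
    simp
  have hlam : ∀ s : L, ((lam c).map (algebraMap Ω L)).eval s =
      (1 - cL l₀ * s) * (MO.map O.subtype).eval s := by
    intro s
    rw [hMO, ← Finset.mul_prod_erase Finset.univ (fun l => 1 - cL l * s) (Finset.mem_univ l₀) |>.symm]
    simp [lam, Polynomial.map_prod, Polynomial.eval_prod, hcL]
  set t₀ := x (some l₀) with ht₀
  have ht₀c : cL l₀ * t₀ = 1 := by rw [ht₀, hxs, mul_inv_cancel₀ (hcL0 l₀)]
  have ht₀O : t₀ ∈ O := hxO _
  set μ := (MO.map O.subtype).eval t₀ with hμ
  -- `μ` comes from `Ω` and is not zero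
  obtain ⟨μ₀, hμ₀, hμ₀'⟩ : ∃ μ₀ : Ω, algebraMap Ω L μ₀ = μ ∧ μ₀ ≠ 0 := by
    refine ⟨∏ l ∈ Finset.univ.erase l₀, (1 - c l * (c l₀)⁻¹), ?_, ?_⟩
    · rw [hμ, hMO, map_prod]
      refine Finset.prod_congr rfl fun l _ => ?_
      simp [hcL, ht₀, hxs]
    · refine Finset.prod_ne_zero_iff.2 fun l hl hz => ?_
      have hne : l ≠ l₀ := (Finset.mem_erase.1 hl).1
      apply hne
      apply hc
      have h1 : c l * (c l₀)⁻¹ = 1 := (sub_eq_zero.1 hz).symm
      field_simp [hc0 l₀] at h1
      exact h1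
  have hμ0 : μ ≠ 0 := by
    rw [← hμ₀]
    simpa using hμ₀'
  have hκ : (cL l₀ * μ)⁻¹ ∈ O := by
    have : (cL l₀ * μ)⁻¹ = algebraMap Ω L ((c l₀ * μ₀)⁻¹) := by
      rw [← hμ₀]
      simp [hcL]
    rw [this]
    exact hO _
  have hμi : μ⁻¹ ∈ O := by
    have : μ⁻¹ = algebraMap Ω L (μ₀⁻¹) := by rw [← hμ₀]; simp
    rw [this]
    exact hO _
  set k := (cL l₀ * μ)⁻¹ with hk
  set t := t₀ + ε * k with ht
  have htO : t ∈ O := add_mem ht₀O (mul_mem hεO hκ)
  have htt : t - t₀ = ε * k := by rw [ht]; ring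
  obtain ⟨q, hqO, hq⟩ := C1_div O MO ht₀O htO
  rw [htt, ← hμ] at hq
  -- the value of `λ`
  set a := k * q * μ⁻¹ with ha
  have haO : a ∈ O := mul_mem (mul_mem hκ hqO) hμi
  have hlamt : ((lam c).map (algebraMap Ω L)).eval t = ε * (-(1 + ε * a)) := by
    rw [hlam]
    have h1 : 1 - cL l₀ * t = - (ε * μ⁻¹) := by
      have h2 : cL l₀ * k = μ⁻¹ := by
        rw [hk, mul_inv, ← mul_assoc, mul_inv_cancel₀ (hcL0 l₀), one_mul]
      calc 1 - cL l₀ * t = 1 - cL l₀ * t₀ - ε * (cL l₀ * k) := by rw [ht]; ring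
        _ = - (ε * μ⁻¹) := by rw [ht₀c, h2]; ring
    have h3 : (MO.map O.subtype).eval t = μ + ε * k * q := by
      rw [← hq]; ring
    rw [h1, h3, ha]
    have h4 : μ⁻¹ * μ = 1 := inv_mul_cancel₀ hμ0
    linear_combination (-ε) * h4
  -- the values of `v j`
  have hvt : ∀ j, ∃ b ∈ O, (v j).eval t = ε * ((v j).eval t₀ / ε + ε * b) := by
    intro j
    obtain ⟨q', hq'O, hq'⟩ := C1_div O (W j) ht₀O htO
    rw [htt] at hq'
    refine ⟨k * q', mul_mem hκ hq'O, ?_⟩
    have h1 : ∀ s, (v j).eval s = ε * ((W j).map O.subtype).eval s := by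
      intro s
      rw [← hW j, Polynomial.eval_mul, Polynomial.eval_C]
    rw [h1 t, h1 t₀, mul_div_cancel_left₀ _ hε0]
    linear_combination ε * hq'
  choose b hbO hb using hvt
  have huO : ∀ j, (v j).eval t₀ / ε ∈ O := fun j => hdivε _ (hmax (j, l₀))
  -- the equation at `t`
  have heq := congrArg (Polynomial.eval t) h
  rw [aeval_pen] at heq
  have hFt : (aeval (Fin.cons ((lam c).map (algebraMap Ω L)) v : Fin (n + 1) → Polynomial L) F).eval t
      = ε ^ n * aeval (Fin.cons (-(1 + ε * a)) (fun j => (v j).eval t₀ / ε + ε * b j) :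
        Fin (n + 1) → L) F := by
    rw [← C1_homog F hF]
    have h1 : ∀ G : MvPolynomial (Fin (n + 1)) Ω,
        (aeval (Fin.cons ((lam c).map (algebraMap Ω L)) v : Fin (n + 1) → Polynomial L) G).eval t =
        aeval (fun i => ((Fin.cons ((lam c).map (algebraMap Ω L)) v : Fin (n + 1) → Polynomial L)
          i).eval t) G := by
      intro G
      have h2 := MvPolynomial.comp_aeval_apply
        (f := (Fin.cons ((lam c).map (algebraMap Ω L)) v : Fin (n + 1) → Polynomial L))
        ((Polynomial.aeval (R := L) t).restrictScalars Ω) G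
      simpa [Polynomial.coe_aeval_eq_eval] using h2
    rw [h1 F]
    congr 2
    funext i
    refine Fin.cases ?_ (fun j => ?_) i
    · simpa using hlamt
    · simpa using hb j
  have hFO := C1_int O hO F (Fin.cons (-(1 + ε * a)) (fun j => (v j).eval t₀ / ε + ε * b j))
    (fun i => by
      refine Fin.cases ?_ (fun j => ?_) i
      · exact neg_mem (add_mem O.one_mem (mul_mem hεO haO))
      · exact add_mem (huO j) (mul_mem hεO (hbO j)))
  set f₁ := aeval (Fin.cons (-(1 + ε * a)) (fun j => (v j).eval t₀ / ε + ε * b j) :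
        Fin (n + 1) → L) F with hf₁
  have hprod : ∏ j, (((lam c).map (algebraMap Ω L)).eval t + (v j).eval t) =
      ε ^ n * ∏ j, (-(1 + ε * a) + ((v j).eval t₀ / ε + ε * b j)) := by
    have : ∀ j, ((lam c).map (algebraMap Ω L)).eval t + (v j).eval t =
        ε * (-(1 + ε * a) + ((v j).eval t₀ / ε + ε * b j)) := by
      intro j
      rw [hlamt, hb j]
      ring
    rw [Finset.prod_congr rfl fun j _ => this j, Finset.prod_mul_distrib, Finset.prod_const,
      Finset.card_univ, Fintype.card_fin]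
  have heq2 : ε ^ n * (∏ j, (-(1 + ε * a) + ((v j).eval t₀ / ε + ε * b j)) -
      (-(1 + ε * a)) ^ n + ζ * f₁) = 0 := by
    have h1 : Polynomial.eval t (∏ j, ((lam c).map (algebraMap Ω L) + v j) -
        ((lam c).map (algebraMap Ω L)) ^ n + (algebraMap L (Polynomial L)) ζ *
        aeval (Fin.cons ((lam c).map (algebraMap Ω L)) v : Fin (n + 1) → Polynomial L) F) = 0 := by
      simpa using heq
    rw [Polynomial.eval_add, Polynomial.eval_sub, Polynomial.eval_mul, Polynomial.eval_pow,
      Polynomial.eval_prod, hFt, hlamt] at h1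
    simp only [Polynomial.eval_add] at h1
    rw [hprod] at h1
    have h2 : Polynomial.eval t ((algebraMap L (Polynomial L)) ζ) = ζ := by
      rw [Polynomial.algebraMap_eq, Polynomial.eval_C]
    rw [h2, mul_pow] at h1
    linear_combination h1
  have heq3 := (mul_eq_zero.1 heq2).resolve_left (pow_ne_zero n hε0)
  -- the product is small
  have hsmall : O.valuation (∏ j, (-(1 + ε * a) + ((v j).eval t₀ / ε + ε * b j))) < 1 := by
    rw [← Finset.mul_prod_erase Finset.univ _ (Finset.mem_univ j₀), map_mul]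
    have h1 : -(1 + ε * a) + ((v j₀).eval t₀ / ε + ε * b j₀) = ε * (b j₀ - a) := by
      rw [show (v j₀).eval t₀ = ε from rfl, div_self hε0]
      ring
    have h2 : O.valuation (ε * (b j₀ - a)) < 1 := by
      rw [map_mul]
      have h3 : O.valuation (b j₀ - a) ≤ 1 := (O.valuation_le_one_iff _).2 (sub_mem (hbO j₀) haO)
      exact lt_of_le_of_lt (mul_le_of_le_one_right' h3) hεlt
    have h4 : O.valuation (∏ j ∈ Finset.univ.erase j₀,
        (-(1 + ε * a) + ((v j).eval t₀ / ε + ε * b j))) ≤ 1 := by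
      refine (O.valuation_le_one_iff _).2 (prod_mem fun j _ => ?_)
      exact add_mem (neg_mem (add_mem O.one_mem (mul_mem hεO haO)))
        (add_mem (huO j) (mul_mem hεO (hbO j)))
    rw [h1]
    exact lt_of_le_of_lt (mul_le_of_le_one_right' h4) h2
  have hsmall2 : O.valuation (ζ * f₁) < 1 := by
    rw [map_mul]
    have h3 : O.valuation f₁ ≤ 1 := (O.valuation_le_one_iff _).2 hFO
    exact lt_of_le_of_lt (mul_le_of_le_one_right' h3) hζ
  have hunit : O.valuation ((-(1 + ε * a)) ^ n) = 1 := by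
    rw [map_pow, Valuation.map_neg]
    have h1 : O.valuation (ε * a) < 1 := by
      rw [map_mul]
      have h3 : O.valuation a ≤ 1 := (O.valuation_le_one_iff _).2 haO
      exact lt_of_le_of_lt (mul_le_of_le_one_right' h3) hεlt
    rw [Valuation.map_one_add_of_lt _ h1, one_pow]
  have hfin : (-(1 + ε * a)) ^ n = ∏ j, (-(1 + ε * a) + ((v j).eval t₀ / ε + ε * b j)) + ζ * f₁ := by
    linear_combination -heq3
  have hlt : O.valuation ((-(1 + ε * a)) ^ n) < 1 := by
    rw [hfin]
    exact Valuation.map_add_lt _ hsmall hsmall2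
  rw [hunit] at hlt
  exact lt_irrefl _ hlt

end Pool.Agent.LibSU9
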