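import Pool.Agent.LibSU9.Defs

/-!
[SU9 C2] (MEDIUM; only Mathlib) Multiplicity of the root `0` in the special and the generic fibre.

PLAN. `m` = multiplicity of `0` in `χ` over `K`, i.e. `X^m ∣ χ`, exactly; since `X^m` is monic, `χ = X^m ψ` with `ψ ∈ R[X]` monic (`Polynomial.X_pow_dvd_iff` on coefficients, `R ⊂ K` injective)
and `ψ(0) ≠ 0`. Over `L` (algebraically closed) `ψ = ∏ (X - ρ_k)`, `ρ_k ≠ 0`, roots of `χ`; each `ρ_k` is integral over `R`, so `ρ_k ∈ O` (`O` is integrally closed,
`ValuationSubring.mem_of_integral`...); by `h` the valuation of `ρ_k` is not `< 1`, so it is `1`. So `ψ(0) = ± ∏ ρ_k` has valuation `1`, so `ψ(0)`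
is not in the maximal ideal of `R` (`hm`), so `π (ψ(0)) ≠ 0` (`ker π` = maximal ideal, `R` local, `π` surjective onto a field). Then `χ.map π = X^m * ψ.map π` has
multiplicity exactly `m` at `0`.
-/

namespace Pool.Agent.LibSU9

private theorem C2_trail {S T : Type} [CommRing S] [CommRing T] (f : S →+* T) (p : Polynomial S)
    (h : f (p.coeff p.natTrailingDegree) ≠ 0) :
    (p.map f).natTrailingDegree = p.natTrailingDegree := by
  apply le_antisymm
  · apply Polynomial.natTrailingDegree_le_of_ne_zero
    rw [Polynomial.coeff_map]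
    exact h
  · have hne : p.map f ≠ 0 := by
      intro h0
      apply h
      rw [← Polynomial.coeff_map, h0, Polynomial.coeff_zero]
    apply Polynomial.le_natTrailingDegree hne
    intro i hi
    rw [Polynomial.coeff_map, Polynomial.coeff_eq_zero_of_lt_natTrailingDegree hi, map_zero]

private theorem C2_mem {L : Type} [Field L] (O : ValuationSubring L) {R : Type} [CommRing R]
    [Algebra R L] (hO : ∀ r : R, algebraMap R L r ∈ O) (χ : Polynomial R) (hχ : χ.Monic) (ρ : L)
    (hρ : Polynomial.aeval ρ χ = 0) : ρ ∈ O := by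
  let φ : R →+* O := (algebraMap R L).codRestrict O.toSubring hO
  have hint : IsIntegral O ρ := by
    refine ⟨χ.map φ, hχ.map φ, ?_⟩
    rw [Polynomial.eval₂_map]
    have : (algebraMap O L).comp φ = algebraMap R L := by
      ext r; rfl
    rw [this]
    exact hρ
  obtain ⟨y, hy⟩ := IsIntegrallyClosed.isIntegral_iff.1 hint
  rw [← hy]
  exact y.2

theorem mult_lemma {R Ω K L : Type} [CommRing R] [IsDomain R] [IsLocalRing R] [Field Ω]
    (π : R →+* Ω) (hπ : Function.Surjective π) [Field K] [Algebra R K] [IsFractionRing R K]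
    [Field L] [Algebra K L] [Algebra R L] [IsScalarTower R K L] [IsAlgClosed L]
    (O : ValuationSubring L) (hO : ∀ r : R, algebraMap R L r ∈ O)
    (hm : ∀ r ∈ IsLocalRing.maximalIdeal R, O.valuation (algebraMap R L r) < 1)
    (χ : Polynomial R) (hχ : χ.Monic)
    (h : ∀ ρ : L, Polynomial.aeval ρ χ = 0 → O.valuation ρ < 1 → ρ = 0) :
    (χ.map (algebraMap R K)).rootMultiplicity 0 = (χ.map π).rootMultiplicity 0 := by
  have hRK : Function.Injective (algebraMap R K) := IsFractionRing.injective R K
  have hRL : Function.Injective (algebraMap R L) := by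
    rw [IsScalarTower.algebraMap_eq R K L]
    exact (algebraMap K L).injective.comp hRK
  set m := χ.natTrailingDegree with hmdef
  have hcm : χ.coeff m ≠ 0 := by
    have := Polynomial.trailingCoeff_nonzero_iff_nonzero.2 hχ.ne_zero
    exact this
  obtain ⟨ψ, hψ⟩ : Polynomial.X ^ m ∣ χ := by
    rw [Polynomial.X_pow_dvd_iff]
    intro i hi
    exact Polynomial.coeff_eq_zero_of_lt_natTrailingDegree hi
  have hψm : ψ.Monic := by
    apply (Polynomial.monic_X_pow m).of_mul_monic_left
    rw [← hψ]; exact hχ
  have hψ0 : ψ.coeff 0 = χ.coeff m := by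
    rw [hψ, Polynomial.coeff_X_pow_mul']
    simp
  have hval : O.valuation (algebraMap R L (χ.coeff m)) = 1 := by
    have hs : (ψ.map (algebraMap R L)).Splits := IsAlgClosed.splits _
    have h1 := hs.coeff_zero_eq_prod_roots_of_monic (hψm.map _)
    rw [Polynomial.coeff_map, hψ0] at h1
    rw [h1, map_mul, map_pow, Valuation.map_neg, map_one, one_pow, one_mul]
    have h2 : ∀ ρ ∈ (ψ.map (algebraMap R L)).roots, O.valuation ρ = 1 := by
      intro ρ hρ
      rw [Polynomial.mem_roots (hψm.map _).ne_zero, Polynomial.IsRoot.def,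
        Polynomial.eval_map_algebraMap] at hρ
      have h3 : Polynomial.aeval ρ χ = 0 := by
        rw [hψ, map_mul, hρ, mul_zero]
      have h4 : ρ ≠ 0 := by
        intro h0
        rw [h0, Polynomial.aeval_def, Polynomial.eval₂_at_zero, hψ0] at hρ
        exact hcm (hRL (by rw [hρ, map_zero]))
      have h5 := C2_mem O hO χ hχ ρ h3
      have h6 : O.valuation ρ ≤ 1 := (O.valuation_le_one_iff ρ).2 h5
      rcases lt_or_eq_of_le h6 with h7 | h7
      · exact absurd (h ρ h3 h7) h4
      · exact h7
    rw [map_multiset_prod]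
    apply Multiset.prod_eq_one
    intro x hx
    rw [Multiset.mem_map] at hx
    obtain ⟨ρ, hρ, rfl⟩ := hx
    exact h2 ρ hρ
  have hπ0 : π (χ.coeff m) ≠ 0 := by
    intro h0
    have h1 : χ.coeff m ∈ IsLocalRing.maximalIdeal R := by
      have h2 : (RingHom.ker π) = IsLocalRing.maximalIdeal R :=
        IsLocalRing.eq_maximalIdeal (RingHom.ker_isMaximal_of_surjective π hπ)
      rw [← h2]
      exact h0
    have h3 := hm _ h1
    rw [hval] at h3
    exact lt_irrefl _ h3
  rw [Polynomial.rootMultiplicity_eq_natTrailingDegree',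
    Polynomial.rootMultiplicity_eq_natTrailingDegree', C2_trail π χ hπ0, C2_trail (algebraMap R K) χ]
  intro h0
  exact hcm (hRK (by rw [h0, map_zero]))

end Pool.Agent.LibSU9
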