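import Pool.Agent.LibSU9.A6

/-!
[SU9 C3] (SHORT/MEDIUM; may cite A6 as stated) Eigenvalues of `θ` are values at points.

PLAN. `Q = K[a]/(g)`, finite dimensional (A6), `M.charpoly` = charpoly of the multiplication by `θ`. `ρ` is a root of the charpoly, hence of the minimal polynomial of the
class `θ'` of `θ` (`LinearMap` / matrix: charpoly and minpoly have the same irreducible factors, `Matrix.charpoly_dvd_minpoly_pow`..., or: if `θ' ⊗ 1 - 1 ⊗ ρ` were a unit in
`Q ⊗_K L` then the determinant of the multiplication, which is `± M.charpoly(ρ)`, would be nonzero). So `θ' - ρ` is not a unit in the finite `L`-algebra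
`L ⊗_K Q`; it lies in a maximal ideal, whose residue field is finite over `L`, so equal to `L`: a homomorphism `Q → L` with `θ' ↦ ρ`. `a k` = image of `X k`.
-/

namespace Pool.Agent.LibSU9

open MvPolynomial

open TensorProduct in
private theorem C3_mul {K L Q : Type} [Field K] [Field L] [Algebra K L] [CommRing Q] [Algebra K Q] (θ : Q)
    (v : L ⊗[K] Q) : (LinearMap.mulLeft K θ).baseChange L v = ((1 : L) ⊗ₜ[K] θ) * v := by
  induction v using TensorProduct.induction_on with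
  | zero => rw [map_zero, mul_zero]
  | tmul x y => rw [LinearMap.baseChange_tmul, Algebra.TensorProduct.tmul_mul_tmul, one_mul, LinearMap.mulLeft_apply]
  | add x y hx hy => rw [map_add, hx, hy, mul_add]

open TensorProduct in
private theorem C3_point {K L Q : Type} [Field K] [Field L] [Algebra K L] [IsAlgClosed L] [CommRing Q] [Algebra K Q]
    [Module.Finite K Q] (θ : Q) (ρ : L) (h : Polynomial.aeval ρ (LinearMap.charpoly (LinearMap.mulLeft K θ)) = 0) :
    ∃ ψ : Q →ₐ[K] L, ψ θ = ρ := by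
  have h1 : (LinearMap.charpoly ((LinearMap.mulLeft K θ).baseChange L)).IsRoot ρ := by
    rw [LinearMap.charpoly_baseChange, Polynomial.IsRoot, Polynomial.eval_map_algebraMap]
    exact h
  have h2 := (Module.End.hasEigenvalue_iff_isRoot_charpoly _ ρ).2 h1
  obtain ⟨v, hv, hv0⟩ := h2.exists_hasEigenvector
  have h3 : ((1 : L) ⊗ₜ[K] θ) * v = ρ • v := by
    rw [← C3_mul]
    exact Module.End.mem_eigenspace_iff.1 hv
  have h4 : ((1 : L) ⊗ₜ[K] θ - ρ ⊗ₜ[K] (1 : Q)) * v = 0 := by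
    rw [sub_mul, h3, sub_eq_zero, Algebra.smul_def]
    rfl
  have h5 : ((1 : L) ⊗ₜ[K] θ - ρ ⊗ₜ[K] (1 : Q)) ∈ nonunits (L ⊗[K] Q) := by
    intro hu
    exact hv0 ((hu.mul_right_eq_zero).1 h4)
  obtain ⟨m, hm, hmem⟩ := exists_max_ideal_of_mem_nonunits h5
  let _ : Field ((L ⊗[K] Q) ⧸ m) := Ideal.Quotient.field m
  have : Module.Finite L ((L ⊗[K] Q) ⧸ m) := inferInstance
  have : Algebra.IsIntegral L ((L ⊗[K] Q) ⧸ m) := inferInstance
  have hbij := IsAlgClosed.algebraMap_bijective_of_isIntegral (k := L) (K := (L ⊗[K] Q) ⧸ m)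
  let e : L ≃ₐ[L] ((L ⊗[K] Q) ⧸ m) := AlgEquiv.ofBijective (Algebra.ofId L _) hbij
  let Ψ : (L ⊗[K] Q) →ₐ[L] L := (e.symm : ((L ⊗[K] Q) ⧸ m) →ₐ[L] L).comp (Ideal.Quotient.mkₐ L m)
  have h6 : Ψ ((1 : L) ⊗ₜ[K] θ) = ρ := by
    have h7 : Ψ ((1 : L) ⊗ₜ[K] θ - ρ ⊗ₜ[K] (1 : Q)) = 0 := by
      have h8 : Ideal.Quotient.mkₐ L m ((1 : L) ⊗ₜ[K] θ - ρ ⊗ₜ[K] (1 : Q)) = 0 :=
        Ideal.Quotient.eq_zero_iff_mem.2 hmem
      show e.symm (Ideal.Quotient.mkₐ L m _) = 0
      rw [h8, map_zero]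
    rw [map_sub, sub_eq_zero] at h7
    rw [h7]
    have h9 : ρ ⊗ₜ[K] (1 : Q) = algebraMap L (L ⊗[K] Q) ρ := rfl
    rw [h9, AlgHom.commutes]
    rfl
  exact ⟨(Ψ.restrictScalars K).comp Algebra.TensorProduct.includeRight, h6⟩

theorem exists_point {K L : Type} [Field K] [Field L] [Algebra K L] [IsAlgClosed L] {N : ℕ}
    {g : Fin N → MvPolynomial (Fin N) K} {B : Finset (Fin N →₀ ℕ)} (h : Stair N K g B)
    {θ : MvPolynomial (Fin N) K} {M : Matrix B B K} (hM : IsMul g B θ M) (ρ : L)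
    (hρ : Polynomial.aeval ρ M.charpoly = 0) :
    ∃ a : Fin N → L, (∀ i, aeval a (g i) = 0) ∧ aeval a θ = ρ := by
  classical
  obtain ⟨hfin, -, hch⟩ := IsMul.charpoly h hM
  obtain ⟨ψ, hψ⟩ := C3_point (K := K) (L := L) (Ideal.Quotient.mk (Ideal.span (Set.range g)) θ) ρ (by
    rw [hch]
    exact hρ)
  have hcomp : ∀ p : MvPolynomial (Fin N) K,
      aeval (fun i => ψ (Ideal.Quotient.mk (Ideal.span (Set.range g)) (X i))) p =
        ψ (Ideal.Quotient.mk (Ideal.span (Set.range g)) p) := by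
    intro p
    have h1 : (aeval (fun i => ψ (Ideal.Quotient.mk (Ideal.span (Set.range g)) (X i))) :
        MvPolynomial (Fin N) K →ₐ[K] L) =
        ψ.comp (Ideal.Quotient.mkₐ K (Ideal.span (Set.range g))) := by
      apply MvPolynomial.algHom_ext
      intro i
      rw [aeval_X]
      rfl
    rw [h1]
    rfl
  refine ⟨fun i => ψ (Ideal.Quotient.mk (Ideal.span (Set.range g)) (X i)), fun i => ?_, ?_⟩
  · have h2 : Ideal.Quotient.mk (Ideal.span (Set.range g)) (g i) = 0 :=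
      Ideal.Quotient.eq_zero_iff_mem.2 (Ideal.subset_span (Set.mem_range_self i))
    rw [hcomp, h2, map_zero]
  · rw [hcomp, hψ]

end Pool.Agent.LibSU9
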