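import Pool.Agent.LibSU9.A6

/-!
[SU9 C4] (SHORT/MEDIUM; `exists_val`, `toric_sol` only Mathlib; `integral_sol` may cite A6 as stated).

PLAN. `exists_val`: Mathlib has the existence of a valuation ring dominating a local subring
(`LocalSubring.exists_le_valuationSubring` or `LocalSubring.exists_valuationRing_of_isMax`, file `Mathlib/RingTheory/Valuation/LocalSubring.lean`; the image of `R` in `L` is a local subring).
`integral_sol`: the evaluation at `a` kills the `g i`, so it factors through `R[a]/(g)`, a finite free `R`-module; so `a k` is integral over `R`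
(`IsIntegral.of_finite`, image under an algebra homomorphism).
`toric_sol`: the polynomials `∏ (T - a_k)` and `∏ (T - b_k)` have the same coefficients (`Multiset.prod_X_sub_C_coeff`, `MvPolynomial.aeval_esymm_eq_multiset_esymm`), so the
same roots with multiplicities: the multisets `Finset.univ.val.map a`, `Finset.univ.val.map b` are equal, so `a = b ∘ τ` for a permutation `τ` (e.g. by
`List.Perm` / `Multiset.map_univ_eq_iff`, `Tuple` lemmas: search `map_univ_eq_iff`).
-/

namespace Pool.Agent.LibSU9

open MvPolynomial

theorem exists_val {R L : Type} [CommRing R] [IsDomain R] [IsLocalRing R] [Field L] [Algebra R L]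
    (hinj : Function.Injective (algebraMap R L)) :
    ∃ O : ValuationSubring L, (∀ r : R, algebraMap R L r ∈ O) ∧
      ∀ r ∈ IsLocalRing.maximalIdeal R, O.valuation (algebraMap R L r) < 1 := by
  obtain ⟨A, h, hloc⟩ := IsLocalRing.exists_factor_valuationRing (algebraMap R L)
  refine ⟨A, fun r => h r, fun r hr => ?_⟩
  have h1 : ¬ IsUnit r := (IsLocalRing.mem_maximalIdeal r).1 hr
  have h2 : ¬ IsUnit ((algebraMap R L).codRestrict A.toSubring h r) := fun hu => h1 (hloc.map_nonunit r hu)
  have h3 := (A.valuation_lt_one_iff ⟨algebraMap R L r, h r⟩).1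
    ((IsLocalRing.mem_maximalIdeal _).2 h2)
  exact h3

theorem integral_sol {R L : Type} [CommRing R] [Field L] [Algebra R L] {N : ℕ}
    {g : Fin N → MvPolynomial (Fin N) R} {B : Finset (Fin N →₀ ℕ)} (h : Stair N R g B)
    (a : Fin N → L) (ha : ∀ i, aeval a (g i) = 0) (k : Fin N) : IsIntegral R (a k) := by
  obtain ⟨b, -⟩ := stair_basis h
  have hfin : Module.Finite R (MvPolynomial (Fin N) R ⧸ Ideal.span (Set.range g)) :=
    Module.Finite.of_basis b
  have hker : ∀ x ∈ Ideal.span (Set.range g), (aeval a : MvPolynomial (Fin N) R →ₐ[R] L) x = 0 := by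
    intro x hx
    have h1 : Ideal.span (Set.range g) ≤ RingHom.ker (aeval a : MvPolynomial (Fin N) R →ₐ[R] L) := by
      rw [Ideal.span_le]
      rintro _ ⟨i, rfl⟩
      exact ha i
    exact h1 hx
  have h2 : IsIntegral R (Ideal.Quotient.mk (Ideal.span (Set.range g)) (X k)) := IsIntegral.of_finite R _
  have h3 := h2.map (Ideal.Quotient.liftₐ (Ideal.span (Set.range g)) (aeval a) hker)
  have h4 : (Ideal.Quotient.liftₐ (Ideal.span (Set.range g)) (aeval a) hker)
      (Ideal.Quotient.mk (Ideal.span (Set.range g)) (X k)) = a k := by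
    show (aeval a : MvPolynomial (Fin N) R →ₐ[R] L) (X k) = a k
    exact aeval_X a k
  rwa [h4] at h3

private theorem C4_perm {k : Type} {N : ℕ} (a b : Fin N → k)
    (h : Finset.univ.val.map a = Finset.univ.val.map b) : ∃ τ : Equiv.Perm (Fin N), ∀ i, a i = b (τ i) := by
  classical
  have h1 : ∀ v : k, Nonempty ({i // a i = v} ≃ {i // b i = v}) := by
    intro v
    apply Fintype.card_eq.1
    rw [Fintype.card_subtype, Fintype.card_subtype]
    have h2 := congrArg (Multiset.count v) h
    rw [Multiset.count_map, Multiset.count_map] at h2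
    have e1 : ∀ c : Fin N → k, (Multiset.filter (fun i => v = c i) Finset.univ.val).card =
        (Finset.univ.filter fun i => c i = v).card := by
      intro c
      rw [Finset.card_def, Finset.filter_val]
      congr 1
      apply Multiset.filter_congr
      intro x _
      exact eq_comm
    rw [e1, e1] at h2
    exact h2
  choose e he using fun v => (⟨Classical.choice (h1 v), trivial⟩ : ∃ _ : {i // a i = v} ≃ {i // b i = v}, True)
  refine ⟨(Equiv.sigmaFiberEquiv a).symm.trans ((Equiv.sigmaCongrRight e).trans (Equiv.sigmaFiberEquiv b)), ?_⟩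
  intro i
  have h3 := (e (a i) ⟨i, rfl⟩).2
  exact h3.symm

theorem toric_sol {k : Type} [Field k] {N : ℕ} (a b : Fin N → k)
    (h : ∀ i, eval a (gt b i) = 0) : ∃ τ : Equiv.Perm (Fin N), ∀ i, a i = b (τ i) := by
  apply C4_perm
  have hes : ∀ j ≤ N, (Finset.univ.val.map a).esymm j = (Finset.univ.val.map b).esymm j := by
    intro j hj
    have key : ∀ c : Fin N → k, (Finset.univ.val.map c).esymm j = eval c (esymm (Fin N) k j) := by
      intro c
      rw [← MvPolynomial.aeval_esymm_eq_multiset_esymm (Fin N) k j c]
      rfl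
    rcases Nat.eq_zero_or_pos j with rfl | hpos
    · rw [key, key, esymm_zero]
      simp
    · obtain ⟨i, rfl⟩ : ∃ i, j = i + 1 := ⟨j - 1, by omega⟩
      have h1 := h ⟨i, by omega⟩
      unfold gt at h1
      rw [map_sub, map_mul, eval_C, eval_C, ← mul_sub] at h1
      have h2 : ((-1 : k) ^ (i + 1)) ≠ 0 := pow_ne_zero _ (neg_ne_zero.2 one_ne_zero)
      have h3 := (mul_eq_zero.1 h1).resolve_left h2
      rw [key, key]
      exact sub_eq_zero.1 h3
  have hcard : ∀ c : Fin N → k, (Finset.univ.val.map c).card = N := by
    intro c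
    rw [Multiset.card_map]
    simp
  have hprod : ((Finset.univ.val.map a).map fun t => Polynomial.X - Polynomial.C t).prod =
      ((Finset.univ.val.map b).map fun t => Polynomial.X - Polynomial.C t).prod := by
    rw [Multiset.prod_X_sub_X_eq_sum_esymm, Multiset.prod_X_sub_X_eq_sum_esymm, hcard, hcard]
    refine Finset.sum_congr rfl fun j hj => ?_
    rw [hes j (by have := Finset.mem_range.1 hj; omega)]
  have h4 := congrArg Polynomial.roots hprod
  rwa [Polynomial.roots_multiset_prod_X_sub_C, Polynomial.roots_multiset_prod_X_sub_C] at h4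

end Pool.Agent.LibSU9
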