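import Pool.Agent.LibSU9.A3
import Pool.Agent.LibSU9.A4
import Pool.Agent.LibSU9.B2
import Pool.Agent.LibSU9.B3
import Pool.Agent.LibSU9.B4
import Pool.Agent.LibSU9.C1
import Pool.Agent.LibSU9.C4

/-!
[SU9 C5] (MEDIUM; may cite A3, A4, B1-B4, C1, C4 as stated) A solution at which `θ` is small has `θ = 0`.

PLAN. `R` a DVR containing `Ω`, `π : R → Ω` an `Ω`-homomorphism with `π z = 0`; `O` a valuation ring of `L` containing `R`, dominating it.
`a` a solution over `L` of the equations `eqn F c z` (over `R`), `ϑ = aeval a (theta c r)` of valuation `< 1`.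
(1) `Stair (n e) R (eqn F c z) (SB (n e))` (lemma `stair_eqn` here): A4 for `π`, because `map π (eqn F c z i) = eqn F c (π z) i = eqn F c 0 i = gt (cc n c) i` (`eqn_map`, `eqn_zero`), `stair_gt`,
`eqn_degree`. (2) `a k` is integral over `R` (C4), so in `O`. Let `ā k` be its image in the residue field `k_O` of `O`
(`IsLocalRing.residue O`). `R → O → k_O` kills the maximal ideal of `R`, so it factors as `R → Ω → k_O` (through `π`: two homomorphisms `R → k_O`, `r ↦ residue r` and
`r ↦ residue (algebraMap Ω (π r))`, agree because `r - algebraMap Ω R (π r)` is in `ker π` = maximal ideal). Hence `ā` is a zero of `gt (cc n c)` over `k_O`, so `ā = cc n c ∘ τ` (C4 `toric_sol`), and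
`θ(ā) = 0` in `k_O`, so `eval (cc n c ∘ τ) (theta c r) = 0` in `Ω` (`Ω → k_O` injective). By `hr`, `zed (cc n c ∘ τ) j = lam c` for all `j`; so all coefficients of
`v_j = zed a j - lam c` have valuation `< 1` (their residues are `0`). (3) B3 (for `A = L`, using `eqn_map` to pass from `R` to `L`) gives the
identity, C1 gives `v_j = 0` for all `j`, so `ϑ = 0` by `eval_theta`.
-/

namespace Pool.Agent.LibSU9

open MvPolynomial

private theorem C5_zed_map {A A' : Type} [CommRing A] [CommRing A'] (f : A →+* A') {n e : ℕ}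
    (a : Fin (n * e) → A) (j : Fin n) : (zed a j).map f = zed (fun k => f (a k)) j := by
  unfold zed
  rw [Polynomial.map_prod]
  apply Finset.prod_congr rfl
  intro l _
  simp

private theorem C5_aeval {R L : Type} [CommRing R] [Field L] [Algebra R L]
    (O : ValuationSubring L) (ρ : R →+* O) (hρ : ∀ r, ((ρ r : O) : L) = algebraMap R L r)
    {N : ℕ} (a' : Fin N → O) (p : MvPolynomial (Fin N) R) :
    aeval (fun k => ((a' k : O) : L)) p = ((eval₂ ρ a' p : O) : L) := by
  have h1 : (algebraMap R L) = (algebraMap O L).comp ρ := by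
    ext r
    exact (hρ r).symm
  rw [aeval_def, h1]
  exact (eval₂_comp_left (algebraMap O L) ρ a' p).symm

theorem stair_eqn {Ω R : Type} [Field Ω] [CommRing R] [IsDomain R] [IsDiscreteValuationRing R]
    [Algebra Ω R] (π : R →ₐ[Ω] Ω) (hπ : Function.Surjective π) (z : R) (hz : π z = 0) {n e : ℕ}
    (F : MvPolynomial (Fin (n + 1)) Ω) (c : Fin e → Ω) :
    Stair (n * e) R (eqn F c z) (SB (n * e)) := by
  have h : Stair (n * e) Ω (fun i => map (π : R →+* Ω) (eqn F c z i)) (SB (n * e)) := by
    have h1 : (fun i => map (π : R →+* Ω) (eqn F c z i)) =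
        gt (fun k => algebraMap Ω Ω (cc n c k)) := by
      funext i
      rw [eqn_map π F c z i, hz, eqn_zero]
    rw [h1]
    exact stair_gt _
  exact stair_pert (π : R →+* Ω) hπ (eqn F c z) (eqn_degree F c z) h

theorem small_theta {Ω R L : Type} [Field Ω] [CommRing R] [IsDomain R] [IsDiscreteValuationRing R]
    [Algebra Ω R] (π : R →ₐ[Ω] Ω) (hπ : Function.Surjective π) (z : R) (hz : π z = 0)
    [Field L] [Algebra R L] [Algebra Ω L] [IsScalarTower Ω R L]
    (O : ValuationSubring L) (hO : ∀ r : R, algebraMap R L r ∈ O)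
    (hm : ∀ r ∈ IsLocalRing.maximalIdeal R, O.valuation (algebraMap R L r) < 1) {n e : ℕ}
    (F : MvPolynomial (Fin (n + 1)) Ω) (hF : F.IsHomogeneous n)
    (h0 : eval (Pi.single 0 1 : Fin (n + 1) → Ω) F = 0)
    (c : Fin e → Ω) (hc : Function.Injective c) (hc0 : ∀ l, c l ≠ 0)
    (r : Fin n → Fin (e + 1) → Ω)
    (hr : ∀ τ : Equiv.Perm (Fin (n * e)),
      eval (fun k => cc n c (τ k)) (theta (A := Ω) c r) = 0 →
      ∀ j : Fin n, zed (fun k => cc n c (τ k)) j = lam c)
    (a : Fin (n * e) → L) (ha : ∀ i, aeval a (eqn F c z i) = 0)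
    (hs : O.valuation (aeval a (theta (A := R) c r)) < 1) :
    aeval a (theta (A := R) c r) = 0 := by
  let ρ : R →+* O := (algebraMap R L).codRestrict O hO
  have hρ : ∀ r, ((ρ r : O) : L) = algebraMap R L r := fun r => rfl
  let ψ : R →+* IsLocalRing.ResidueField O := (IsLocalRing.residue O).comp ρ
  have hψ : ∀ r, ψ r = IsLocalRing.residue O (ρ r) := fun r => rfl
  let _ : Algebra Ω (IsLocalRing.ResidueField O) := (ψ.comp (algebraMap Ω R)).toAlgebra
  have hφ : ∀ w : Ω, algebraMap Ω (IsLocalRing.ResidueField O) w = ψ (algebraMap Ω R w) :=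
    fun w => rfl
  let ψA : R →ₐ[Ω] IsLocalRing.ResidueField O := { ψ with commutes' := fun w => rfl }
  have hψA : (ψA : R →+* IsLocalRing.ResidueField O) = ψ := rfl
  have hres0 : ∀ x : O, O.valuation (x : L) < 1 → IsLocalRing.residue O x = 0 := by
    intro x hx
    rw [IsLocalRing.residue_eq_zero_iff]
    exact (O.valuation_lt_one_iff x).2 hx
  have hres1 : ∀ x : O, IsLocalRing.residue O x = 0 → O.valuation (x : L) < 1 := by
    intro x hx
    rw [IsLocalRing.residue_eq_zero_iff] at hx
    exact (O.valuation_lt_one_iff x).1 hx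
  have hzm : z ∈ IsLocalRing.maximalIdeal R := by
    rw [IsLocalRing.mem_maximalIdeal, mem_nonunits_iff]
    intro hu
    have := hu.map π
    rw [hz] at this
    exact not_isUnit_zero this
  have hψz : ψ z = 0 := hres0 (ρ z) (hm z hzm)
  -- the solution lies in `O`
  have haO : ∀ k, ∃ y : O, (y : L) = a k := by
    intro k
    obtain ⟨p, hp, hpe⟩ := integral_sol (stair_eqn π hπ z hz F c) a ha k
    have h1 : IsIntegral O (a k) := by
      refine ⟨p.map ρ, hp.map ρ, ?_⟩
      rw [Polynomial.eval₂_map]
      exact hpe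
    obtain ⟨y, hy⟩ := IsIntegrallyClosed.isIntegral_iff.1 h1
    exact ⟨y, hy⟩
  choose a' ha' using haO
  have haa : a = fun k => ((a' k : O) : L) := by
    funext k
    exact (ha' k).symm
  -- the reduction of a value
  have hred : ∀ p : MvPolynomial (Fin (n * e)) R,
      IsLocalRing.residue O (eval₂ ρ a' p) =
        eval (fun k => IsLocalRing.residue O (a' k)) (map ψ p) := by
    intro p
    rw [eval_map]
    exact eval₂_comp_left (IsLocalRing.residue O) ρ a' p
  have hgt : ∀ i, eval (fun k => IsLocalRing.residue O (a' k))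
      (gt (fun k => algebraMap Ω (IsLocalRing.ResidueField O) (cc n c k)) i) = 0 := by
    intro i
    have h1 := eqn_map ψA F c z i
    have h2 : ψA z = 0 := hψz
    rw [h2, eqn_zero, hψA] at h1
    rw [← h1, ← hred]
    have h3 := ha i
    rw [haa, C5_aeval O ρ hρ a'] at h3
    have h4 : eval₂ ρ a' (eqn F c z i) = 0 := Subtype.ext h3
    rw [h4, map_zero]
  obtain ⟨τ, hτ⟩ := toric_sol (fun k => IsLocalRing.residue O (a' k))
    (fun k => algebraMap Ω (IsLocalRing.ResidueField O) (cc n c k)) hgt
  have hab : (fun k => IsLocalRing.residue O (a' k)) =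
      fun k => algebraMap Ω (IsLocalRing.ResidueField O) (cc n c (τ k)) := funext hτ
  -- the value of `theta` is zero over `Ω`
  have hth : eval (fun k => cc n c (τ k)) (theta (A := Ω) c r) = 0 := by
    have h1 : IsLocalRing.residue O (eval₂ ρ a' (theta (A := R) c r)) = 0 := by
      apply hres0
      rw [haa, C5_aeval O ρ hρ a'] at hs
      exact hs
    rw [hred] at h1
    have h2 := theta_map ψA c r
    rw [hψA] at h2
    rw [h2, hab] at h1
    have h3 := theta_map (Algebra.ofId Ω (IsLocalRing.ResidueField O)) c r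
    rw [← h3, eval_map] at h1
    have h4 : algebraMap Ω (IsLocalRing.ResidueField O)
        (eval (fun k => cc n c (τ k)) (theta (A := Ω) c r)) = 0 := by
      rw [← h1]
      exact eval₂_comp_left (algebraMap Ω (IsLocalRing.ResidueField O)) (RingHom.id Ω)
        (fun k => cc n c (τ k)) (theta (A := Ω) c r)
    exact (map_eq_zero (algebraMap Ω (IsLocalRing.ResidueField O))).1 h4
  have hzl := hr τ hth
  -- the differences
  have hv : ∀ j i, O.valuation
      ((zed a j - (lam c).map (algebraMap Ω L)).coeff i) < 1 := by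
    intro j i
    have h1 : (zed a j - (lam c).map (algebraMap Ω L)).coeff i =
        (((zed a' j).coeff i - ρ (algebraMap Ω R ((lam c).coeff i)) : O) : L) := by
      have h2 : zed a j = (zed a' j).map (algebraMap O L) := by
        rw [C5_zed_map, haa]
        rfl
      rw [Polynomial.coeff_sub, h2, Polynomial.coeff_map, Polynomial.coeff_map,
        IsScalarTower.algebraMap_apply Ω R L]
      rfl
    rw [h1]
    apply hres1
    rw [map_sub]
    have h3 : IsLocalRing.residue O ((zed a' j).coeff i) =
        algebraMap Ω (IsLocalRing.ResidueField O) ((lam c).coeff i) := by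
      rw [← Polynomial.coeff_map, C5_zed_map, hab,
        ← C5_zed_map (algebraMap Ω (IsLocalRing.ResidueField O)) (fun k => cc n c (τ k)) j,
        hzl j, Polynomial.coeff_map]
    rw [h3, hφ]
    exact sub_self _
  have hsol : aeval (R := L)
      (vec ((lam c).map (algebraMap Ω L)) (zed a)) (pen F (algebraMap R L z)) = 0 := by
    apply sol_of_eqn F hF h0 c (algebraMap R L z) a
    intro i
    have h1 := eqn_map (IsScalarTower.toAlgHom Ω R L) F c z i
    have h2 : (IsScalarTower.toAlgHom Ω R L) z = algebraMap R L z := rfl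
    rw [h2] at h1
    rw [← h1, eval_map]
    exact ha i
  have hall := no_small O (fun w => by
      rw [IsScalarTower.algebraMap_apply Ω R L]
      exact hO _) F hF c hc hc0 (algebraMap R L z) (hm z hzm)
    (fun j => zed a j - (lam c).map (algebraMap Ω L))
    (fun j => (Polynomial.natDegree_sub_le _ _).trans (max_le (zed_degree a j)
      (Polynomial.natDegree_map_le.trans (lam_degree c))))
    (fun j => by
      change (zed a j - (lam c).map (algebraMap Ω L)).coeff 0 = 0
      rw [Polynomial.coeff_sub, Polynomial.coeff_map, zed_coeff_zero, lam_coeff_zero, map_one,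
        sub_self])
    hv hsol
  have hfin : aeval a (theta (A := R) c r) = eval a (theta (A := L) c r) := by
    have h1 := theta_map (IsScalarTower.toAlgHom Ω R L) c r
    rw [← h1, eval_map]
    rfl
  rw [hfin, eval_theta]
  apply Finset.sum_eq_zero
  intro j _
  apply Finset.sum_eq_zero
  intro i _
  have h1 := congrArg (fun q => Polynomial.coeff q i.val) (hall j)
  simp only [Polynomial.coeff_sub, Polynomial.coeff_map, Polynomial.coeff_zero] at h1
  rw [h1, mul_zero]

end Pool.Agent.LibSU9
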