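import Pool.Agent.LibSU9.Defs

/-!
[SU9 D1] (MEDIUM; only Mathlib) Points of degree prime to `p`.

PLAN. (1) For a finite-dimensional commutative `K`-algebra `C'` with `p ∤ dim C'` there is a maximal ideal `𝔫` with `p ∤ dim (C'/𝔫)`; more generally for a finite `C'`-module `M` with
`p ∤ dim_K M`: strong induction on `dim M`: `M ≠ 0` has a simple quotient (or submodule) `≅ C'/𝔫` (finite length); `dim M = dim (C'/𝔫) + dim (rest)`, so if `p ∣ dim (C'/𝔫)` pass to the rest.
(2) Fitting: for `T` = multiplication by `θ` on `C`, `V₀ = ker T^m`, `m ≥ dim`, has dimension the multiplicity of the root `0` in the charpoly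
(Mathlib: `LinearMap.finrank_maxGenEigenspace_eq`, or `finrank_maxGenEigenspace`); `V₀` is an ideal `I` of `C`, `C/I ≅ image of T^m` as a `C`-module, `θ` acts invertibly on it. Apply (1) to the
`C`-module `C ⧸ I` (dimension = the number in `h`, as `finrank C = dim I + dim C/I`): `𝔫` with `C/𝔫` a simple subquotient of `C/I`, on which `θ` acts invertibly, so `θ ∉ 𝔫`.
-/

namespace Pool.Agent.LibSU9

private theorem D1_step {K C : Type} [Field K] [CommRing C] [Algebra K C] [Module.Finite K C]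
    (J' J : Ideal C) (h : J' ⋖ J) : ∃ I : Ideal C, I.IsMaximal ∧
      Nonempty ((J ⧸ Submodule.comap J.subtype J') ≃ₗ[C] C ⧸ I) ∧
      Module.finrank K J = Module.finrank K J' + Module.finrank K (C ⧸ I) := by
  have hs : IsSimpleModule C (J ⧸ Submodule.comap J.subtype J') :=
    (covBy_iff_quot_is_simple h.le).mp h
  obtain ⟨I, hI, ⟨e⟩⟩ := isSimpleModule_iff_quot_maximal.mp hs
  refine ⟨I, hI, ⟨e⟩, ?_⟩
  have h1 := (e.restrictScalars K).finrank_eq
  have h2 := (Submodule.Quotient.restrictScalarsEquiv K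
    (Submodule.comap J.subtype J')).finrank_eq
  have h3 := Submodule.finrank_quotient_add_finrank
    ((Submodule.comap J.subtype J').restrictScalars K)
  have h4 := ((Submodule.comapSubtypeEquivOfLe h.le).restrictScalars K).finrank_eq
  have h5 : Module.finrank K ((Submodule.comap J.subtype J').restrictScalars K) =
      Module.finrank K (Submodule.comap J.subtype J') := rfl
  rw [h2, h1, h5, h4] at h3
  omega

theorem prime_point {K C : Type} [Field K] [CommRing C] [Algebra K C] [Module.Finite K C] (p : ℕ)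
    (hp : p.Prime) (θ : C)
    (h : ¬ p ∣ Module.finrank K C -
      (LinearMap.charpoly (LinearMap.mulLeft K θ)).rootMultiplicity 0) :
    ∃ I : Ideal C, I.IsMaximal ∧ θ ∉ I ∧ ¬ p ∣ Module.finrank K (C ⧸ I) := by
  classical
  have hArt : IsArtinianRing C := IsArtinianRing.of_finite K C
  have hNoe : IsNoetherianRing C := inferInstance
  by_contra hcon
  have hno : ∀ I : Ideal C, I.IsMaximal → θ ∉ I → p ∣ Module.finrank K (C ⧸ I) := by
    intro I h1 h2
    by_contra h3
    exact hcon ⟨I, h1, h2, h3⟩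
  obtain ⟨T, hT⟩ : ∃ T : Module.End K C, T = LinearMap.mulLeft K θ := ⟨_, rfl⟩
  have hTk : ∀ (k : ℕ) (x : C), (T ^ k) x = θ ^ k * x := by
    intro k x
    rw [hT, LinearMap.pow_mulLeft, LinearMap.mulLeft_apply]
  have hmem : ∀ x : C, x ∈ T.maxGenEigenspace 0 ↔ ∃ k : ℕ, θ ^ k * x = 0 := by
    intro x
    rw [Module.End.mem_maxGenEigenspace]
    refine exists_congr (fun k => ?_)
    rw [zero_smul, sub_zero, hTk]
  obtain ⟨I0, hI0⟩ : ∃ I0 : Ideal C, ∀ x : C, x ∈ I0 ↔ x ∈ T.maxGenEigenspace 0 :=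
    ⟨{ carrier := {x | x ∈ T.maxGenEigenspace 0}
       add_mem' := fun ha hb => Submodule.add_mem (T.maxGenEigenspace 0) ha hb
       zero_mem' := Submodule.zero_mem (T.maxGenEigenspace 0)
       smul_mem' := fun c x hx => by
         obtain ⟨k, hk⟩ := (hmem x).mp hx
         refine (hmem _).mpr ⟨k, ?_⟩
         rw [smul_eq_mul, mul_left_comm, hk, mul_zero] }, fun x => Iff.rfl⟩
  have hdim0 : Module.finrank K I0 =
      (LinearMap.charpoly (LinearMap.mulLeft K θ)).rootMultiplicity 0 := by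
    have h1 : I0.restrictScalars K = T.maxGenEigenspace 0 := by
      ext x
      exact hI0 x
    have h2 : Module.finrank K (I0.restrictScalars K) = Module.finrank K I0 := rfl
    rw [← h2, h1, LinearMap.finrank_maxGenEigenspace_eq, hT]
  -- the inverse of `θ` modulo `I0`
  obtain ⟨n, c, hc⟩ := IsArtinian.exists_pow_succ_smul_dvd θ (1 : C)
  have hinv : θ * c - 1 ∈ I0 := by
    rw [hI0, hmem]
    refine ⟨n, ?_⟩
    rw [smul_eq_mul, smul_eq_mul, mul_one, Nat.succ_eq_add_one, pow_succ] at hc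
    rw [mul_sub, mul_one, ← mul_assoc, hc, sub_self]
  have hθ : ∀ J' J : Ideal C, I0 ≤ J' → ∀ I : Ideal C, I.IsMaximal →
      Nonempty ((J ⧸ Submodule.comap J.subtype J') ≃ₗ[C] C ⧸ I) → θ ∉ I := by
    rintro J' J hJ' I hI ⟨e⟩ hmemI
    obtain ⟨y, hy⟩ := e.surjective (Submodule.Quotient.mk 1)
    have h1 : (θ * c - 1) • y = 0 := by
      obtain ⟨z, rfl⟩ := Submodule.Quotient.mk_surjective _ y
      rw [← Submodule.Quotient.mk_smul, Submodule.Quotient.mk_eq_zero, Submodule.mem_comap]
      show ((θ * c - 1) • (z : C)) ∈ J'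
      rw [smul_eq_mul]
      exact J'.mul_mem_right _ (hJ' hinv)
    have h2 : (θ * c - 1) • (Submodule.Quotient.mk 1 : C ⧸ I) = 0 := by
      rw [← hy, ← map_smul, h1, map_zero]
    rw [← Submodule.Quotient.mk_smul, Submodule.Quotient.mk_eq_zero, smul_eq_mul, mul_one] at h2
    have h3 : (1 : C) ∈ I := by
      have h4 := I.sub_mem (I.mul_mem_right c hmemI) h2
      rwa [sub_sub_cancel] at h4
    exact hI.ne_top ((Ideal.eq_top_iff_one I).mpr h3)
  have hmain : ∀ J : Ideal C, I0 ≤ J → ∃ n : ℕ,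
      Module.finrank K J = Module.finrank K I0 + p * n := by
    intro J
    induction J using WellFoundedLT.induction with
    | ind J ih =>
      intro hJ
      rcases eq_or_lt_of_le hJ with h1 | h1
      · exact ⟨0, by rw [← h1, mul_zero, add_zero]⟩
      · obtain ⟨J', hJ', hcov⟩ := exists_le_covBy_of_lt h1
        obtain ⟨n1, hn1⟩ := ih J' hcov.lt hJ'
        obtain ⟨I, hI, he, hdim⟩ := D1_step (K := K) J' J hcov
        obtain ⟨n2, hn2⟩ := hno I hI (hθ J' J hJ' I hI he)
        refine ⟨n1 + n2, ?_⟩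
        rw [hdim, hn1, hn2]
        ring
  obtain ⟨n', hn'⟩ := hmain ⊤ le_top
  have htop : Module.finrank K (⊤ : Ideal C) = Module.finrank K C :=
    (Submodule.topEquiv.restrictScalars K : (⊤ : Ideal C) ≃ₗ[K] C).finrank_eq
  apply h
  rw [← htop, hn', hdim0, Nat.add_sub_cancel_left]
  exact dvd_mul_right p n'

end Pool.Agent.LibSU9
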