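import Pool.Agent.LibSU9.Defs

/-!
[SU9 D2] (SHORT/MEDIUM; only Mathlib) The local ring of the line at `0`.

PLAN. `R = Localization.AtPrime (Ideal.span {X} : Ideal Ω[X])` (prime because `X` is prime), a DVR (localization of a Dedekind domain at a nonzero prime:
`IsLocalization.AtPrime.isDiscreteValuationRing_of_dedekind_domain`), `RatFunc Ω` is its fraction field (`IsFractionRing` by
`IsFractionRing.isFractionRing_of_isDomain_of_isLocalization` after giving `RatFunc Ω` the algebra structure by `IsLocalization.lift`), `π` = evaluation at `0` lifted to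
the localization (`IsLocalization.lift`; elements outside `(X)` have nonzero constant coefficient). (Other models of `R` are fine, e.g. a subring of `RatFunc Ω`:
`{f | f.denom.eval 0 ≠ 0}`.)
-/

namespace Pool.Agent.LibSU9

private theorem D2_aux (Ω : Type) [Field Ω] (P : Ideal (Polynomial Ω)) [P.IsPrime]
    (hPdef : Ideal.span {(Polynomial.X : Polynomial Ω)} = P) (hP0 : P ≠ ⊥)
    (R : Type) [iR : CommRing R] [iO : Algebra Ω R] [Algebra (Polynomial Ω) R]
    [IsScalarTower Ω (Polynomial Ω) R] [IsLocalization.AtPrime R P] :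
    ∃ (R : Type) (_ : CommRing R) (_ : IsDomain R) (_ : IsDiscreteValuationRing R)
      (_ : Algebra Ω R) (_ : Algebra R (RatFunc Ω)) (_ : IsFractionRing R (RatFunc Ω))
      (_ : IsScalarTower Ω R (RatFunc Ω)) (z : R) (π : R →ₐ[Ω] Ω),
      algebraMap R (RatFunc Ω) z = RatFunc.X ∧ Function.Surjective π ∧ π z = 0 := by
  have hunit : ∀ y : P.primeCompl, IsUnit (algebraMap (Polynomial Ω) (RatFunc Ω) y) := by
    intro y
    rw [isUnit_iff_ne_zero, Ne, map_eq_zero_iff _ (RatFunc.algebraMap_injective Ω)]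
    intro h
    exact y.2 (h ▸ P.zero_mem)
  let i1 : Algebra R (RatFunc Ω) :=
    (IsLocalization.lift (M := P.primeCompl) (S := R) hunit).toAlgebra
  have hmap : ∀ p : Polynomial Ω, algebraMap R (RatFunc Ω) (algebraMap (Polynomial Ω) R p) =
      algebraMap (Polynomial Ω) (RatFunc Ω) p := by
    intro p
    exact IsLocalization.lift_eq hunit p
  have tow1 : IsScalarTower (Polynomial Ω) R (RatFunc Ω) :=
    IsScalarTower.of_algebraMap_eq (fun p => (hmap p).symm)
  have hdom : IsDomain R := IsLocalization.isDomain_of_le_nonZeroDivisors R (M := P.primeCompl) P.primeCompl_le_nonZeroDivisors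
  have hdvr : IsDiscreteValuationRing R :=
    IsLocalization.AtPrime.isDiscreteValuationRing_of_dedekind_domain (Polynomial Ω) hP0 R
  have hfrac : IsFractionRing R (RatFunc Ω) :=
    IsFractionRing.isFractionRing_of_isDomain_of_isLocalization P.primeCompl R (RatFunc Ω)
  have tow2 : IsScalarTower Ω R (RatFunc Ω) := by
    refine IsScalarTower.of_algebraMap_eq (fun c => ?_)
    rw [IsScalarTower.algebraMap_apply Ω (Polynomial Ω) R, hmap,
      ← IsScalarTower.algebraMap_apply]
  have hev : ∀ y : P.primeCompl, IsUnit ((Polynomial.aeval (0 : Ω) : Polynomial Ω →ₐ[Ω] Ω) y) := by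
    intro y
    rw [isUnit_iff_ne_zero]
    intro h
    have hy : (y : Polynomial Ω) ∉ P := y.2
    apply hy
    have hle : Ideal.span {(Polynomial.X : Polynomial Ω)} ≤ P := hPdef.le
    apply hle
    rw [Ideal.mem_span_singleton, Polynomial.X_dvd_iff, Polynomial.coeff_zero_eq_aeval_zero]
    exact h
  refine ⟨R, iR, hdom, hdvr, iO, i1, hfrac, tow2,
    algebraMap (Polynomial Ω) R Polynomial.X,
    IsLocalization.liftAlgHom (M := P.primeCompl) (f := (Polynomial.aeval (0 : Ω) : Polynomial Ω →ₐ[Ω] Ω)) hev,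
    ?_, ?_, ?_⟩
  · rw [hmap, RatFunc.algebraMap_X]
  · intro c
    refine ⟨algebraMap Ω R c, ?_⟩
    rw [AlgHom.commutes]
    rfl
  · rw [IsLocalization.liftAlgHom_apply, IsLocalization.lift_eq]
    simp

theorem exists_R (Ω : Type) [Field Ω] :
    ∃ (R : Type) (_ : CommRing R) (_ : IsDomain R) (_ : IsDiscreteValuationRing R)
      (_ : Algebra Ω R) (_ : Algebra R (RatFunc Ω)) (_ : IsFractionRing R (RatFunc Ω))
      (_ : IsScalarTower Ω R (RatFunc Ω)) (z : R) (π : R →ₐ[Ω] Ω),
      algebraMap R (RatFunc Ω) z = RatFunc.X ∧ Function.Surjective π ∧ π z = 0 := by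
  have hXne : (Polynomial.X : Polynomial Ω) ≠ 0 := Polynomial.X_ne_zero
  have hP : (Ideal.span {(Polynomial.X : Polynomial Ω)}).IsPrime :=
    (Ideal.span_singleton_prime hXne).mpr Polynomial.prime_X
  have hP0 : Ideal.span {(Polynomial.X : Polynomial Ω)} ≠ ⊥ := by
    rw [Ne, Ideal.span_singleton_eq_bot]
    exact hXne
  exact D2_aux Ω _ rfl hP0 (Localization.AtPrime (Ideal.span {(Polynomial.X : Polynomial Ω)}))

end Pool.Agent.LibSU9
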