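import Pool.Agent.LibSU9.Defs

/-!
[SU9 D3] (MEDIUM/STRONG; only Mathlib) A place of degree prime to `p` over `1/X = 0`.

PLAN. `A = Ω[T]` with the embedding `T ↦ X⁻¹` into `K0 = RatFunc Ω` (give `K0` / `K1` the `A`-algebra structure `(Polynomial.aeval X⁻¹)` locally; `K0` is its fraction field: the `Ω`-automorphism
`X ↦ X⁻¹` of `K0`, or: every element of `K0` is a quotient of polynomials in `X⁻¹`). `K1/K0` is separable because its degree is not divisible by `p`
(`Algebra.IsSeparable`: the inseparable degree is a power of `p` dividing the degree; Mathlib: `Field.finInsepDegree`, or: the degree of every minimal polynomial is prime to `p`, an irreducible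
inseparable polynomial is a polynomial in `X^p`, `Irreducible.separable...`/`Polynomial.contract`). `B` = integral closure of `A` in `K1`: Dedekind, finite over `A`
(`IsIntegralClosure.isDedekindDomain`, `IsIntegralClosure.finite`). For `P = (T)`: `∑_{Q ∣ P B} e(Q) f(Q) = [K1 : K0]` (`Ideal.sum_ramification_inertia`), so some `f(Q)` is not divisible by `p`
(`p ∣ ∑` otherwise). `O = Localization.AtPrime Q`, `κ = B/Q` (or the residue field of `O`), `f(Q) = finrank (A/P) (B/Q) = finrank Ω κ` (`A/(T) ≅ Ω`), `η = T`.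
The library files `Pool/Agent/LibHL77/Z1.lean`, `LibCW77/T1.lean` do very similar things and can be used as a template.
-/

namespace Pool.Agent.LibSU9

section D3aux

open Polynomial nonZeroDivisors

private theorem D3_sep {F E : Type} [Field F] [Field E] [Algebra F E] (p : ℕ) [Fact p.Prime]
    [CharP F p] [FiniteDimensional F E] (h : ¬ p ∣ Module.finrank F E) :
    Algebra.IsSeparable F E := by
  obtain ⟨n, hn⟩ := IsPurelyInseparable.finrank_eq_pow (separableClosure F E) E p
  have h1 : Module.finrank F (separableClosure F E) *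
      Module.finrank (separableClosure F E) E = Module.finrank F E :=
    Module.finrank_mul_finrank _ _ _
  have h2 : n = 0 := by
    by_contra hn0
    apply h
    rw [← h1, hn]
    exact Dvd.dvd.mul_left (dvd_pow_self p hn0) _
  rw [h2, pow_zero] at hn
  have h3 : separableClosure F E = ⊤ := by
    apply IntermediateField.eq_of_le_of_finrank_eq le_top
    rw [IntermediateField.finrank_top', ← h1, hn, mul_one]
  exact (separableClosure.eq_top_iff F E).1 h3

private theorem D3_main {k K0 K1 : Type} [Field k] [Field K0] [Field K1] [Algebra k[X] K0]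
    [IsFractionRing k[X] K0] [Algebra K0 K1] [FiniteDimensional K0 K1]
    [Algebra.IsSeparable K0 K1] (p : ℕ) (h : ¬ p ∣ Module.finrank K0 K1) :
    ∃ (O : Type) (_ : CommRing O) (_ : IsDomain O) (_ : IsDiscreteValuationRing O)
      (_ : Algebra O K1) (_ : IsFractionRing O K1) (_ : Algebra k O)
      (κ : Type) (_ : Field κ) (_ : Algebra k κ) (π : O →ₐ[k] κ) (η : O),
      Function.Surjective π ∧ FiniteDimensional k κ ∧ ¬ p ∣ Module.finrank k κ ∧
      (∀ a : k, algebraMap O K1 (algebraMap k O a) =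
        algebraMap K0 K1 (algebraMap k[X] K0 (C a))) ∧
      algebraMap O K1 η = algebraMap K0 K1 (algebraMap k[X] K0 X) ∧ π η = 0 := by
  let _ : Algebra k[X] K1 := ((algebraMap K0 K1).comp (algebraMap k[X] K0)).toAlgebra
  have htow : IsScalarTower k[X] K0 K1 := IsScalarTower.of_algebraMap_eq' rfl
  have hded : IsDedekindDomain (integralClosure k[X] K1) :=
    integralClosure.isDedekindDomain k[X] K0 K1
  have hfr : IsFractionRing (integralClosure k[X] K1) K1 :=
    integralClosure.isFractionRing_of_finite_extension K0 K1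
  have hfin : Module.Finite k[X] (integralClosure k[X] K1) :=
    IsIntegralClosure.finite k[X] K0 K1 _
  set B := integralClosure k[X] K1 with hB
  have hinjK : Function.Injective (algebraMap k[X] K1) :=
    (algebraMap K0 K1).injective.comp (IsFractionRing.injective k[X] K0)
  have hinjB : Function.Injective (algebraMap k[X] B) := fun a b hab =>
    hinjK (congrArg Subtype.val hab)
  have hfaith : FaithfulSMul k[X] B := (faithfulSMul_iff_algebraMap_injective k[X] B).2 hinjB
  set P0 : Ideal k[X] := Ideal.span {X - C (0 : k)} with hP0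
  have hPbot : ¬ (X - C (0 : k)) = 0 := X_sub_C_ne_zero 0
  have hmax : P0.IsMaximal :=
    PrincipalIdealRing.isMaximal_of_irreducible (irreducible_X_sub_C (0 : k))
  have hne : P0 ≠ ⊥ := by
    rw [hP0, Ne, Ideal.span_singleton_eq_bot]
    exact hPbot
  have hsum := Ideal.sum_ramification_inertia B K0 K1 hne
  obtain ⟨Q, hQ, hf⟩ : ∃ Q ∈ IsDedekindDomain.primesOverFinset P0 B, ¬ p ∣ Ideal.inertiaDeg' P0 Q := by
    by_contra hcon
    push Not at hcon
    apply h
    rw [← hsum]
    exact Finset.dvd_sum fun Q hQ => Dvd.dvd.mul_left (hcon Q hQ) _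
  obtain ⟨hQp, hQl⟩ := (IsDedekindDomain.mem_primesOverFinset_iff hne _).1 hQ
  rw [Ideal.inertiaDeg'_algebraMap] at hf
  have hQne : Q ≠ ⊥ := Ideal.ne_bot_of_liesOver_of_ne_bot hne Q
  have hQmax : Q.IsMaximal := hQp.isMaximal hQne
  have hle : Q.primeCompl ≤ B⁰ := Q.primeCompl_le_nonZeroDivisors
  let O := Localization.subalgebra.ofField K1 Q.primeCompl hle
  have hdvr : IsDiscreteValuationRing O :=
    IsLocalization.AtPrime.isDiscreteValuationRing_of_dedekind_domain B hQne O
  let _ : Field (B ⧸ Q) := Ideal.Quotient.field Q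
  let _ : Algebra k O := ((algebraMap B O).comp ((algebraMap k[X] B).comp C)).toAlgebra
  let _ : Algebra k (B ⧸ Q) := ((Ideal.Quotient.mk Q).comp ((algebraMap k[X] B).comp C)).toAlgebra
  have hu : ∀ y : Q.primeCompl, IsUnit (Ideal.Quotient.mk Q (y : B)) := by
    intro y
    rw [isUnit_iff_ne_zero, Ne, Ideal.Quotient.eq_zero_iff_mem]
    exact y.2
  let π0 : O →+* B ⧸ Q := IsLocalization.lift (M := Q.primeCompl) (S := O) hu
  have hπ0 : ∀ b : B, π0 (algebraMap B O b) = Ideal.Quotient.mk Q b := fun b =>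
    IsLocalization.lift_eq hu b
  let π : O →ₐ[k] B ⧸ Q := { π0 with commutes' := fun a => hπ0 _ }
  have hπ : ∀ b : B, π (algebraMap B O b) = Ideal.Quotient.mk Q b := hπ0
  have hrank : Module.finrank k (B ⧸ Q) = Module.finrank (k[X] ⧸ P0) (B ⧸ Q) := by
    refine Algebra.finrank_eq_of_equiv_equiv
      (Polynomial.quotientSpanXSubCAlgEquiv (0 : k)).symm.toRingEquiv (RingEquiv.refl _) ?_
    ext a
    rfl
  refine ⟨O, inferInstance, inferInstance, hdvr, inferInstance, inferInstance, inferInstance,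
    B ⧸ Q, inferInstance, inferInstance, π, algebraMap B O (algebraMap k[X] B X), ?_, ?_, ?_, ?_,
    ?_, ?_⟩
  · intro y
    obtain ⟨b, rfl⟩ := Ideal.Quotient.mk_surjective y
    exact ⟨algebraMap B O b, hπ b⟩
  · apply Module.finite_of_finrank_pos
    rw [hrank]
    rcases Nat.eq_zero_or_pos (Module.finrank (k[X] ⧸ P0) (B ⧸ Q)) with h0 | h0
    · exfalso
      apply hf
      rw [h0]
      exact dvd_zero p
    · exact h0
  · rw [hrank]
    exact hf
  · intro a
    rfl
  · rfl
  · rw [hπ, Ideal.Quotient.eq_zero_iff_mem]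
    have h1 : (X : k[X]) ∈ P0 := by
      rw [hP0, Ideal.mem_span_singleton]
      simp
    rw [hQl.over] at h1
    exact h1

private noncomputable def D3_phi (k : Type) [Field k] : k[X] →+* RatFunc k :=
  (Polynomial.aeval (RatFunc.X : RatFunc k)⁻¹).toRingHom

private theorem D3_phi_C (k : Type) [Field k] (a : k) : D3_phi k (C a) = RatFunc.C a := by
  change Polynomial.aeval (RatFunc.X : RatFunc k)⁻¹ (C a) = RatFunc.C a
  rw [Polynomial.aeval_C, RatFunc.algebraMap_eq_C]

private theorem D3_phi_X (k : Type) [Field k] : D3_phi k X = (RatFunc.X : RatFunc k)⁻¹ := by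
  change Polynomial.aeval (RatFunc.X : RatFunc k)⁻¹ X = _
  rw [Polynomial.aeval_X]

private theorem D3_rev (k : Type) [Field k] (f : k[X]) :
    D3_phi k f.reverse * RatFunc.X ^ f.natDegree = algebraMap k[X] (RatFunc k) f := by
  have hX : (RatFunc.X : RatFunc k) ≠ 0 := RatFunc.X_ne_zero
  let _ : Invertible (RatFunc.X : RatFunc k) := invertibleOfNonzero hX
  have h1 := Polynomial.eval₂_reverse_mul_pow (algebraMap k (RatFunc k)) (RatFunc.X : RatFunc k) f
  have h2 : Polynomial.eval₂ (algebraMap k (RatFunc k)) (RatFunc.X : RatFunc k) f =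
      algebraMap k[X] (RatFunc k) f := by
    have h3 := RatFunc.aeval_X_left_eq_algebraMap f
    exact h3
  rw [h2] at h1
  rw [← h1, invOf_eq_inv]
  rfl

private theorem D3_phi_inj (k : Type) [Field k] : Function.Injective (D3_phi k) := by
  have h1 : Transcendental k (RatFunc.X : RatFunc k)⁻¹ := fun h =>
    RatFunc.transcendental_X (IsAlgebraic.inv_iff.1 h)
  exact transcendental_iff_injective.1 h1

private theorem D3_frac (k : Type) [Field k] :
    @IsFractionRing k[X] _ (RatFunc k) _ (D3_phi k).toAlgebra := by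
  have hf : @FaithfulSMul k[X] (RatFunc k) (D3_phi k).toAlgebra.toSMul :=
    (@faithfulSMul_iff_algebraMap_injective k[X] (RatFunc k) _ _ (D3_phi k).toAlgebra).2
      (D3_phi_inj k)
  refine @IsFractionRing.of_field k[X] _ (RatFunc k) _ (D3_phi k).toAlgebra hf ?_
  intro z
  have hX : (RatFunc.X : RatFunc k) ≠ 0 := RatFunc.X_ne_zero
  refine ⟨z.num.reverse * X ^ z.denom.natDegree, z.denom.reverse * X ^ z.num.natDegree, ?_⟩
  have h1 := D3_rev k z.num
  have h2 := D3_rev k z.denom
  have h3 : D3_phi k z.denom.reverse ≠ 0 := by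
    intro h
    rw [h, zero_mul] at h2
    have h4 := (map_eq_zero_iff _ (RatFunc.algebraMap_injective k)).1 h2.symm
    exact z.denom_ne_zero h4
  change z = D3_phi k _ / D3_phi k _
  rw [map_mul, map_mul, map_pow, map_pow, D3_phi_X, inv_pow, inv_pow]
  conv_lhs => rw [← RatFunc.num_div_denom z, ← h1, ← h2]
  field_simp

end D3aux

theorem place {Ω : Type} [Field Ω] (p : ℕ) [Fact p.Prime] [CharP Ω p] {K1 : Type} [Field K1]
    [Algebra (RatFunc Ω) K1] [FiniteDimensional (RatFunc Ω) K1]
    (h : ¬ p ∣ Module.finrank (RatFunc Ω) K1) :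
    ∃ (O : Type) (_ : CommRing O) (_ : IsDomain O) (_ : IsDiscreteValuationRing O)
      (_ : Algebra O K1) (_ : IsFractionRing O K1) (_ : Algebra Ω O)
      (κ : Type) (_ : Field κ) (_ : Algebra Ω κ) (π : O →ₐ[Ω] κ) (η : O),
      Function.Surjective π ∧ FiniteDimensional Ω κ ∧ ¬ p ∣ Module.finrank Ω κ ∧
      (∀ a : Ω, algebraMap O K1 (algebraMap Ω O a) = algebraMap (RatFunc Ω) K1 (RatFunc.C a)) ∧
      algebraMap O K1 η * algebraMap (RatFunc Ω) K1 RatFunc.X = 1 ∧ π η = 0 := by
  have hch : CharP (RatFunc Ω) p := charP_of_injective_algebraMap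
    (algebraMap Ω (RatFunc Ω)).injective p
  have hsep := D3_sep p h
  obtain ⟨O, i1, i2, i3, i4, i5, i6, κ, i7, i8, π, η, h1, h2, h3, h4, h5, h6⟩ :=
    @D3_main Ω (RatFunc Ω) K1 _ _ _ (D3_phi Ω).toAlgebra (D3_frac Ω) _ _ hsep p h
  refine ⟨O, i1, i2, i3, i4, i5, i6, κ, i7, i8, π, η, h1, h2, h3, ?_, ?_, h6⟩
  · intro a
    rw [h4 a]
    exact congrArg _ (D3_phi_C Ω a)
  · rw [h5]
    have h7 : D3_phi Ω Polynomial.X * RatFunc.X = 1 := by
      rw [D3_phi_X, inv_mul_cancel₀ RatFunc.X_ne_zero]
    rw [← map_one (algebraMap (RatFunc Ω) K1), ← h7, map_mul]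
    rfl

end Pool.Agent.LibSU9
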