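import Pool.Agent.LibSU9.B1

/-!
[SU9 D4] (MEDIUM; may cite `aeval_pen` of B1, which has the same computation) Limit of a solution with integral coefficients.

PLAN. Everything over `O` first: the identity `h` holds in `Polynomial O` as `Polynomial O → Polynomial K1` is injective (so `h` is stated over `O`).
Case 1: some `v_j` is nonzero modulo the maximal ideal (`Polynomial.map π (v j) ≠ 0`): take `L = (lam c).map (algebraMap Ω κ)`, `γ j = (v j).map π`; apply
`Polynomial.map π` to the identity (`π η = 0`).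
Case 2: all `(v j).map π = 0`: let `ϖ` be a uniformizer, `m ≥ 1` maximal such that `ϖ^m` divides all coefficients of all `v j`, `v j = C (ϖ^m) * v' j`, some `(v' j).map π ≠ 0`. This
polynomial has degree `≤ e` and vanishes at `0`, so it cannot vanish at all `1/c_l` (`e` further points): choose `l` and put `w j = ` value of `(v' j).map π` at `1/c_l`, `w ≠ 0`.
Substitute `t = 1/c_l + ϖ^m s` in the identity (composition with the polynomial `C (1/c_l) + C (ϖ^m) * X` over `O`): `lam c` becomes `ϖ^m * (κ₀ s + ϖ^m (...))`, `κ₀ = (lam c)'(1/c_l) ≠ 0`, `v j` becomes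
`ϖ^m * (v' j (1/c_l) + ϖ^m (...))`. The left side of the identity is homogeneous of degree `n` in `(λ, v)`: cancel `ϖ^{mn}` (domain) and apply `π`: `F(κ₀ s, w) = 0` in `κ[s]`
(`π η = 0`). Homogenize: `F(κ₀, s w) = 0`: for every polynomial identity `F(κ₀ s, w) = 0` of a form of degree `n`: `F(x)` with `x = (κ₀ s, w)`; use `Polynomial.reverse`-like substitution, or compare coefficients: `F = ∑_i x_0^{n-i} F_i(x_1..)`,
`F(κ₀ s, w) = ∑ κ₀^{n-i} s^{n-i} F_i(w)`, so `F_i(w) = 0` for all `i`. Take `L = 1`, `γ j = C (w j / κ₀) * X` (`e ≥ 1` because `l` exists).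
-/

namespace Pool.Agent.LibSU9

open MvPolynomial

private theorem D4_hom {R A σ : Type} [CommRing R] [CommRing A] [Algebra R A] {n : ℕ}
    {G : MvPolynomial σ R} (hG : G.IsHomogeneous n) (r : A) (x : σ → A) :
    aeval (fun i => r * x i) G = r ^ n * aeval x G := by
  rw [aeval_def, aeval_def, eval₂_eq, eval₂_eq, Finset.mul_sum]
  refine Finset.sum_congr rfl fun d hd => ?_
  have h1 : ∏ i ∈ d.support, (r * x i) ^ d i = r ^ n * ∏ i ∈ d.support, x i ^ d i := by
    have hn := hG.degree_eq_sum_deg_support hd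
    have h0 : r ^ n = ∏ i ∈ d.support, r ^ d i := by
      rw [Finset.prod_pow_eq_pow_sum, ← hn]
    rw [h0, ← Finset.prod_mul_distrib]
    exact Finset.prod_congr rfl fun i _ => mul_pow _ _ _
  rw [h1]
  ring

private theorem D4_tor (A : Type) [CommRing A] (n : ℕ) : (tor A n).IsHomogeneous n := by
  unfold tor
  refine IsHomogeneous.sub ?_ ?_
  · have h := IsHomogeneous.prod (Finset.univ : Finset (Fin n))
      (fun j => (X 0 + X j.succ : MvPolynomial (Fin (n + 1)) A)) (fun _ => 1)
      (fun j _ => (isHomogeneous_X A 0).add (isHomogeneous_X A j.succ))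
    rw [Finset.sum_const, Finset.card_univ, Fintype.card_fin, smul_eq_mul, mul_one] at h
    exact h
  · have h := (isHomogeneous_X (σ := Fin (n + 1)) A 0).pow n
    rwa [one_mul] at h

section red
variable {Ω O κ : Type} [Field Ω] [CommRing O] [Algebra Ω O] [Field κ] [Algebra Ω κ]

private theorem D4_red (π : O →ₐ[Ω] κ) (η : O) (hη : π η = 0) {n : ℕ}
    (F : MvPolynomial (Fin (n + 1)) Ω) (x : Fin (n + 1) → Polynomial O)
    (h : aeval (R := O) x (C η * tor O n + map (algebraMap Ω O) F) = 0) :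
    aeval (R := Ω) (fun i => (x i).map (π : O →+* κ)) F = 0 := by
  have h1 := congrArg (Polynomial.mapRingHom (π : O →+* κ)) h
  rw [map_zero, aeval_def, eval₂_comp_left, eval₂_add, eval₂_mul, eval₂_C, eval₂_map] at h1
  have h2 : ((Polynomial.mapRingHom (π : O →+* κ)).comp (algebraMap O (Polynomial O))) η = 0 := by
    change (Polynomial.C η).map (π : O →+* κ) = 0
    rw [Polynomial.map_C]
    change Polynomial.C (π η) = 0
    rw [hη, Polynomial.C_0]
  rw [h2, zero_mul, zero_add] at h1
  have h3 : ((Polynomial.mapRingHom (π : O →+* κ)).comp (algebraMap O (Polynomial O))).comp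
      (algebraMap Ω O) = algebraMap Ω (Polynomial κ) := by
    refine RingHom.ext fun a => ?_
    change (Polynomial.C (algebraMap Ω O a)).map (π : O →+* κ) = Polynomial.C (algebraMap Ω κ a)
    rw [Polynomial.map_C]
    congr 1
    exact π.commutes a
  rw [h3] at h1
  exact h1

private theorem D4_lam_deg {A : Type} [CommRing A] {e : ℕ} (c : Fin e → A) : (lam c).natDegree ≤ e := by
  unfold lam
  refine (Polynomial.natDegree_prod_le _ _).trans ?_
  refine (Finset.sum_le_card_nsmul _ _ 1 fun l _ => ?_).trans (by simp)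
  refine (Polynomial.natDegree_sub_le _ _).trans ?_
  rw [Polynomial.natDegree_one]
  exact max_le (Nat.zero_le _) ((Polynomial.natDegree_C_mul_le _ _).trans Polynomial.natDegree_X_le)

private theorem D4_lam_zero {A : Type} [CommRing A] {e : ℕ} (c : Fin e → A) : (lam c).coeff 0 = 1 := by
  unfold lam
  rw [Polynomial.coeff_zero_eq_eval_zero, Polynomial.eval_prod]
  refine Finset.prod_eq_one fun l _ => ?_
  simp

private theorem D4_lam_map {A B : Type} [CommRing A] [CommRing B] (f : A →+* B) {e : ℕ} (c : Fin e → A) :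
    (lam c).map f = ∏ l, (1 - Polynomial.C (f (c l)) * Polynomial.X) := by
  unfold lam
  rw [Polynomial.map_prod]
  refine Finset.prod_congr rfl fun l _ => ?_
  rw [Polynomial.map_sub, Polynomial.map_one, Polynomial.map_mul, Polynomial.map_C, Polynomial.map_X]

end red

section dvr
variable {Ω O κ : Type} [Field Ω] [CommRing O] [IsDomain O] [IsDiscreteValuationRing O]
    [Algebra Ω O] [Field κ] [Algebra Ω κ]

private theorem D4_ker (π : O →ₐ[Ω] κ) (hπ : Function.Surjective π) {ϖ : O} (hϖ : Irreducible ϖ) (a : O) :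
    π a = 0 ↔ ϖ ∣ a := by
  have h1 : (RingHom.ker (π : O →+* κ)).IsMaximal := RingHom.ker_isMaximal_of_surjective _ hπ
  have h2 := IsLocalRing.eq_maximalIdeal h1
  rw [hϖ.maximalIdeal_eq] at h2
  have h3 : a ∈ RingHom.ker (π : O →+* κ) ↔ a ∈ Ideal.span {ϖ} := by rw [h2]
  rw [RingHom.mem_ker, Ideal.mem_span_singleton] at h3
  exact h3

private theorem D4_div (π : O →ₐ[Ω] κ) (hπ : Function.Surjective π) {ϖ : O} (hϖ : Irreducible ϖ) {n : ℕ}
    (v : Fin n → Polynomial O) (hv : ∃ j, v j ≠ 0) : ∃ (m : ℕ) (v' : Fin n → Polynomial O),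
      (∀ j, v j = Polynomial.C (ϖ ^ m) * v' j) ∧ ∃ j, (v' j).map (π : O →+* κ) ≠ 0 := by
  classical
  obtain ⟨j0, hj0⟩ := hv
  obtain ⟨k0, hk0⟩ : ∃ k, (v j0).coeff k ≠ 0 := by
    by_contra hcon
    push Not at hcon
    exact hj0 (Polynomial.ext fun k => by rw [hcon k, Polynomial.coeff_zero])
  obtain ⟨N, u, hN⟩ := IsDiscreteValuationRing.eq_unit_mul_pow_irreducible hk0 hϖ
  have hex : ∃ m : ℕ, ¬ ∀ j k, ϖ ^ m ∣ (v j).coeff k := by
    refine ⟨N + 1, fun h => ?_⟩
    have h1 := h j0 k0
    rw [hN, pow_succ', Units.dvd_mul_left] at h1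
    have h2 : ϖ ^ N * ϖ ∣ ϖ ^ N * 1 := by rw [mul_one, mul_comm]; exact h1
    exact hϖ.not_isUnit (isUnit_of_dvd_one ((mul_dvd_mul_iff_left (pow_ne_zero _ hϖ.ne_zero)).1 h2))
  have hmin := Nat.find_spec hex
  have hpos : Nat.find hex ≠ 0 := by
    intro h0
    apply hmin
    intro j k
    rw [h0, pow_zero]
    exact one_dvd _
  obtain ⟨m, hm⟩ := Nat.exists_eq_succ_of_ne_zero hpos
  have hm' : ∀ j k, ϖ ^ m ∣ (v j).coeff k := by
    by_contra hcon
    have := Nat.find_min' hex hcon
    omega
  rw [hm] at hmin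
  choose v' hv' using fun j => (Polynomial.C_dvd_iff_dvd_coeff (ϖ ^ m) (v j)).2 (hm' j)
  refine ⟨m, v', hv', ?_⟩
  by_contra hcon
  push Not at hcon
  apply hmin
  intro j k
  have h1 : π ((v' j).coeff k) = 0 := by
    have h2 := congrArg (fun p : Polynomial κ => p.coeff k) (hcon j)
    rw [Polynomial.coeff_map, Polynomial.coeff_zero] at h2
    exact h2
  rw [hv' j, Polynomial.coeff_C_mul, Nat.succ_eq_add_one, pow_succ]
  exact mul_dvd_mul_left _ ((D4_ker π hπ hϖ _).1 h1)

private theorem D4_inv {n : ℕ} (F : MvPolynomial (Fin (n + 1)) Ω) (hF : F.IsHomogeneous n) (k0 : κ)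
    (hk0 : k0 ≠ 0) (w : Fin n → κ)
    (h : aeval (R := Ω) (Fin.cons (Polynomial.C k0 * Polynomial.X) (fun j => Polynomial.C (w j)) :
      Fin (n + 1) → Polynomial κ) F = 0) :
    aeval (R := Ω) (Fin.cons 1 (fun j => Polynomial.C (w j / k0) * Polynomial.X) :
      Fin (n + 1) → Polynomial κ) F = 0 := by
  have e1 : ∀ x : Fin (n + 1) → Polynomial κ, aeval (R := Ω) x F =
      aeval (R := κ) x (map (algebraMap Ω κ) F) := fun x => (aeval_map_algebraMap κ x F).symm
  rw [e1] at h ⊢
  have hF' : (map (algebraMap Ω κ) F).IsHomogeneous n := hF.map _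
  have h1 := congrArg (Polynomial.aeval (RatFunc.X (K := κ))⁻¹) h
  rw [map_zero, comp_aeval_apply] at h1
  have h2 := D4_hom hF' (RatFunc.X (K := κ) / RatFunc.C k0)
    (fun i => Polynomial.aeval (RatFunc.X (K := κ))⁻¹ ((Fin.cons (Polynomial.C k0 * Polynomial.X)
      (fun j => Polynomial.C (w j)) : Fin (n + 1) → Polynomial κ) i))
  rw [h1, mul_zero] at h2
  have hC : RatFunc.C k0 ≠ 0 := (map_ne_zero _).2 hk0
  have hX : (RatFunc.X (K := κ)) ≠ 0 := RatFunc.X_ne_zero
  have h3 : (fun i => RatFunc.X (K := κ) / RatFunc.C k0 * Polynomial.aeval (RatFunc.X (K := κ))⁻¹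
      ((Fin.cons (Polynomial.C k0 * Polynomial.X)
      (fun j => Polynomial.C (w j)) : Fin (n + 1) → Polynomial κ) i)) =
      fun i => algebraMap (Polynomial κ) (RatFunc κ) ((Fin.cons 1 (fun j => Polynomial.C (w j / k0) *
        Polynomial.X) : Fin (n + 1) → Polynomial κ) i) := by
    funext i
    refine Fin.cases ?_ (fun j => ?_) i
    · rw [Fin.cons_zero, Fin.cons_zero, map_mul, Polynomial.aeval_C, Polynomial.aeval_X, map_one]
      change RatFunc.X / RatFunc.C k0 * (RatFunc.C k0 * RatFunc.X⁻¹) = 1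
      field_simp
    · rw [Fin.cons_succ, Fin.cons_succ, Polynomial.aeval_C, map_mul, RatFunc.algebraMap_X,
        RatFunc.algebraMap_C, map_div₀]
      change RatFunc.X / RatFunc.C k0 * RatFunc.C (w j) = _
      ring
  rw [h3] at h2
  have h4 : aeval (R := κ) (fun i => algebraMap (Polynomial κ) (RatFunc κ) ((Fin.cons 1
      (fun j => Polynomial.C (w j / k0) * Polynomial.X) : Fin (n + 1) → Polynomial κ) i))
      (map (algebraMap Ω κ) F) = algebraMap (Polynomial κ) (RatFunc κ) (aeval (R := κ) (Fin.cons 1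
      (fun j => Polynomial.C (w j / k0) * Polynomial.X) : Fin (n + 1) → Polynomial κ)
      (map (algebraMap Ω κ) F)) :=
    aeval_algebraMap_apply (RatFunc κ) _ _
  rw [h4] at h2
  exact (map_eq_zero_iff _ (IsFractionRing.injective (Polynomial κ) (RatFunc κ))).1 h2

end dvr

theorem limit_int {Ω O κ : Type} [Field Ω] [CommRing O] [IsDomain O] [IsDiscreteValuationRing O]
    [Algebra Ω O] [Field κ] [Algebra Ω κ] (π : O →ₐ[Ω] κ) (hπ : Function.Surjective π)
    (η : O) (hη : π η = 0) {n e : ℕ} (F : MvPolynomial (Fin (n + 1)) Ω) (hF : F.IsHomogeneous n)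
    (c : Fin e → Ω) (hc : Function.Injective c) (hc0 : ∀ l, c l ≠ 0)
    (v : Fin n → Polynomial O) (hdeg : ∀ j, (v j).natDegree ≤ e) (h0 : ∀ j, (v j).coeff 0 = 0)
    (hv : ∃ j, v j ≠ 0)
    (h : aeval (R := O) (Fin.cons ((lam c).map (algebraMap Ω O)) v : Fin (n + 1) → Polynomial O)
      (C η * tor O n + map (algebraMap Ω O) F) = 0) :
    ∃ (L : Polynomial κ) (γ : Fin n → Polynomial κ), L.natDegree ≤ e ∧ L.coeff 0 = 1 ∧
      (∀ j, (γ j).natDegree ≤ e ∧ (γ j).coeff 0 = 0) ∧ (∃ j, γ j ≠ 0) ∧
      aeval (R := Ω) (Fin.cons L γ : Fin (n + 1) → Polynomial κ) F = 0 := by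
  classical
  obtain ⟨ϖ, hϖ⟩ := IsDiscreteValuationRing.exists_irreducible O
  obtain ⟨m, v', hv', j0, hj0⟩ := D4_div π hπ hϖ v hv
  have hϖm : ϖ ^ m ≠ 0 := pow_ne_zero _ hϖ.ne_zero
  have hdeg' : ∀ j, (v' j).natDegree ≤ e := by
    intro j
    have h1 := hdeg j
    rwa [hv' j, Polynomial.natDegree_C_mul hϖm] at h1
  have h0' : ∀ j, (v' j).coeff 0 = 0 := by
    intro j
    have h1 := h0 j
    rw [hv' j, Polynomial.coeff_C_mul] at h1
    exact (mul_eq_zero.1 h1).resolve_left hϖm
  have hred := D4_red π η hη F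
  by_cases hm : m = 0
  · subst hm
    have hvv : ∀ j, v j = v' j := fun j => by rw [hv' j, pow_zero, Polynomial.C_1, one_mul]
    have h1 := hred _ h
    refine ⟨(lam c).map (algebraMap Ω κ), fun j => (v j).map (π : O →+* κ),
      Polynomial.natDegree_map_le.trans (D4_lam_deg c), ?_, fun j => ⟨?_, ?_⟩, ⟨j0, ?_⟩, ?_⟩
    · rw [Polynomial.coeff_map, D4_lam_zero, map_one]
    · exact Polynomial.natDegree_map_le.trans (hdeg j)
    · rw [Polynomial.coeff_map, h0 j, map_zero]
    · change (v j0).map (π : O →+* κ) ≠ 0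
      rw [hvv j0]
      exact hj0
    · have e1 : (fun i => ((Fin.cons ((lam c).map (algebraMap Ω O)) v : Fin (n + 1) → Polynomial O) i).map
          (π : O →+* κ)) = (Fin.cons ((lam c).map (algebraMap Ω κ)) (fun j => (v j).map (π : O →+* κ)) :
            Fin (n + 1) → Polynomial κ) := by
        funext i
        refine Fin.cases ?_ (fun j => rfl) i
        rw [Fin.cons_zero, Fin.cons_zero, Polynomial.map_map]
        congr 1
        ext a
        exact π.commutes a
      rw [e1] at h1
      exact h1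
  · have hπϖ : π (ϖ ^ m) = 0 := (D4_ker π hπ hϖ _).2 (dvd_pow_self ϖ hm)
    obtain ⟨l, hl⟩ : ∃ l : Fin e, ((v' j0).map (π : O →+* κ)).eval (algebraMap Ω κ (c l)⁻¹) ≠ 0 := by
      by_contra hcon
      push Not at hcon
      apply hj0
      refine Polynomial.eq_zero_of_natDegree_lt_card_of_eval_eq_zero _
        (f := fun o : Option (Fin e) => o.elim 0 (fun l => algebraMap Ω κ (c l)⁻¹)) ?_ ?_ ?_
      · intro a b hab
        have hne : ∀ l, algebraMap Ω κ (c l)⁻¹ ≠ 0 := fun l =>
          (map_ne_zero _).2 (inv_ne_zero (hc0 l))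
        cases a with
        | none =>
          cases b with
          | none => rfl
          | some b => exact (hne b hab.symm).elim
        | some a =>
          cases b with
          | none => exact (hne a hab).elim
          | some b =>
            have h1 : (c a)⁻¹ = (c b)⁻¹ := (algebraMap Ω κ).injective hab
            rw [hc (inv_injective h1)]
      · intro o
        cases o with
        | none =>
          change ((v' j0).map (π : O →+* κ)).eval 0 = 0
          rw [← Polynomial.coeff_zero_eq_eval_zero, Polynomial.coeff_map, h0' j0, map_zero]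
        | some l => exact hcon l
      · rw [Fintype.card_option, Fintype.card_fin]
        exact Nat.lt_succ_of_le (Polynomial.natDegree_map_le.trans (hdeg' j0))
    obtain ⟨a, ha⟩ : ∃ a : O, a = algebraMap Ω O (c l)⁻¹ := ⟨_, rfl⟩
    have hπa : π a = algebraMap Ω κ (c l)⁻¹ := by rw [ha]; exact π.commutes _
    obtain ⟨p, hp⟩ : ∃ p : Polynomial O, p = Polynomial.C a + Polynomial.C (ϖ ^ m) * Polynomial.X :=
      ⟨_, rfl⟩
    have hpπ : p.map (π : O →+* κ) = Polynomial.C (algebraMap Ω κ (c l)⁻¹) := by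
      rw [hp, Polynomial.map_add, Polynomial.map_mul, Polynomial.map_C, Polynomial.map_C, Polynomial.map_X]
      change Polynomial.C (π a) + Polynomial.C (π (ϖ ^ m)) * Polynomial.X = _
      rw [hπa, hπϖ, Polynomial.C_0, zero_mul, add_zero]
    have hlp : 1 - Polynomial.C (algebraMap Ω O (c l)) * p =
        Polynomial.C (ϖ ^ m) * (-(Polynomial.C (algebraMap Ω O (c l)) * Polynomial.X)) := by
      have h1 : Polynomial.C (algebraMap Ω O (c l)) * Polynomial.C a = 1 := by
        rw [ha, ← Polynomial.C_mul, ← map_mul, mul_inv_cancel₀ (hc0 l), map_one, Polynomial.C_1]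
      rw [hp, mul_add, h1]
      ring
    obtain ⟨x0, hx0⟩ : ∃ x0 : Polynomial O, x0 = -(Polynomial.C (algebraMap Ω O (c l)) * Polynomial.X) *
        ∏ i ∈ Finset.univ.erase l, (1 - Polynomial.C (algebraMap Ω O (c i)) * p) := ⟨_, rfl⟩
    have hlam : ((lam c).map (algebraMap Ω O)).comp p = Polynomial.C (ϖ ^ m) * x0 := by
      rw [D4_lam_map, Polynomial.prod_comp, hx0, ← mul_assoc, ← hlp,
        ← Finset.mul_prod_erase Finset.univ _ (Finset.mem_univ l)]
      have h1 : ∀ i, (1 - Polynomial.C (algebraMap Ω O (c i)) * Polynomial.X).comp p =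
          1 - Polynomial.C (algebraMap Ω O (c i)) * p := by
        intro i
        rw [Polynomial.sub_comp, Polynomial.one_comp, Polynomial.mul_comp, Polynomial.C_comp,
          Polynomial.X_comp]
      rw [h1]
      congr 1
      exact Finset.prod_congr rfl fun i _ => h1 i
    obtain ⟨k0, hk0⟩ : ∃ k0 : κ, k0 = -(algebraMap Ω κ (c l)) *
        ∏ i ∈ Finset.univ.erase l, (1 - algebraMap Ω κ (c i) * algebraMap Ω κ (c l)⁻¹) := ⟨_, rfl⟩
    have hk0' : k0 ≠ 0 := by
      rw [hk0]
      refine mul_ne_zero (neg_ne_zero.2 ((map_ne_zero _).2 (hc0 l))) ?_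
      rw [Finset.prod_ne_zero_iff]
      intro i hi h1
      rw [← map_mul, ← map_one (algebraMap Ω κ), ← map_sub, map_eq_zero] at h1
      have h2 : c i = c l := by
        have h3 : c i * (c l)⁻¹ = 1 := (sub_eq_zero.1 h1).symm
        exact (mul_inv_eq_one₀ (hc0 l)).1 h3
      exact (Finset.ne_of_mem_erase hi) (hc h2)
    have hx0π : x0.map (π : O →+* κ) = Polynomial.C k0 * Polynomial.X := by
      have hcm : ∀ i, (π : O →+* κ) (algebraMap Ω O (c i)) = algebraMap Ω κ (c i) := fun i => π.commutes _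
      rw [hx0, Polynomial.map_mul, Polynomial.map_neg, Polynomial.map_mul, Polynomial.map_C,
        Polynomial.map_X, Polynomial.map_prod, hcm, hk0, Polynomial.C_mul, Polynomial.C_neg, map_prod]
      have h1 : ∀ i, (1 - Polynomial.C (algebraMap Ω O (c i)) * p).map (π : O →+* κ) =
          Polynomial.C (1 - algebraMap Ω κ (c i) * algebraMap Ω κ (c l)⁻¹) := by
        intro i
        rw [Polynomial.map_sub, Polynomial.map_one, Polynomial.map_mul, Polynomial.map_C, hcm, hpπ,
          Polynomial.C_sub, Polynomial.C_1, Polynomial.C_mul]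
      rw [Finset.prod_congr rfl fun i _ => h1 i]
      ring
    have hG : (C η * tor O n + map (algebraMap Ω O) F : MvPolynomial (Fin (n + 1)) O).IsHomogeneous n :=
      ((D4_tor O n).C_mul η).add (hF.map _)
    have h1 := congrArg (Polynomial.compRingHom p) h
    rw [map_zero, aeval_def, eval₂_comp_left] at h1
    have h2 : (Polynomial.compRingHom p).comp (algebraMap O (Polynomial O)) =
        algebraMap O (Polynomial O) := by
      ext b : 1
      change (Polynomial.C b).comp p = Polynomial.C b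
      rw [Polynomial.C_comp]
    rw [h2, ← aeval_def] at h1
    have h3 : (⇑(Polynomial.compRingHom p) ∘ (Fin.cons ((lam c).map (algebraMap Ω O)) v :
        Fin (n + 1) → Polynomial O)) = fun i => Polynomial.C (ϖ ^ m) *
          (Fin.cons x0 (fun j => (v' j).comp p) : Fin (n + 1) → Polynomial O) i := by
      funext i
      refine Fin.cases ?_ (fun j => ?_) i
      · change ((lam c).map (algebraMap Ω O)).comp p = Polynomial.C (ϖ ^ m) * x0
        exact hlam
      · change (v j).comp p = Polynomial.C (ϖ ^ m) * (v' j).comp p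
        rw [hv' j, Polynomial.mul_comp, Polynomial.C_comp]
    rw [h3, D4_hom hG] at h1
    have h4 := (mul_eq_zero.1 h1).resolve_left (pow_ne_zero _ (Polynomial.C_ne_zero.2 hϖm))
    have h5 := hred _ h4
    have h6 : (fun i => ((Fin.cons x0 (fun j => (v' j).comp p) : Fin (n + 1) → Polynomial O) i).map
        (π : O →+* κ)) = (Fin.cons (Polynomial.C k0 * Polynomial.X) (fun j => Polynomial.C
          (((v' j).map (π : O →+* κ)).eval (algebraMap Ω κ (c l)⁻¹))) : Fin (n + 1) → Polynomial κ) := by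
      funext i
      refine Fin.cases ?_ (fun j => ?_) i
      · rw [Fin.cons_zero, Fin.cons_zero]
        exact hx0π
      · rw [Fin.cons_succ, Fin.cons_succ, Polynomial.map_comp, hpπ, Polynomial.comp_C]
    rw [h6] at h5
    have h7 := D4_inv F hF k0 hk0' _ h5
    have he : 1 ≤ e := Nat.one_le_iff_ne_zero.2 (fun he => by
      subst he
      exact l.elim0)
    refine ⟨1, fun j => Polynomial.C (((v' j).map (π : O →+* κ)).eval (algebraMap Ω κ (c l)⁻¹) / k0) *
      Polynomial.X, ?_, ?_, fun j => ⟨?_, ?_⟩, ⟨j0, ?_⟩, h7⟩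
    · rw [Polynomial.natDegree_one]
      exact Nat.zero_le _
    · rw [Polynomial.coeff_one_zero]
    · exact ((Polynomial.natDegree_C_mul_le _ _).trans Polynomial.natDegree_X_le).trans he
    · rw [Polynomial.mul_coeff_zero, Polynomial.coeff_X_zero, mul_zero]
    · exact mul_ne_zero (Polynomial.C_ne_zero.2 (div_ne_zero hl hk0')) Polynomial.X_ne_zero

end Pool.Agent.LibSU9
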