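import Pool.Agent.LibSU9.Defs

/-!
[SU9 D5] (MEDIUM; only Mathlib + Defs) Limit of a solution with non-integral coefficients.

PLAN. `ϖ` a uniformizer of `O`, `ord` the additive valuation of `K1`. Write `v_{j,i}` for the coefficient of `t^i` in `v j`, `1 ≤ i ≤ e`. Among the nonzero `v_{j,i}` choose `(j₀, i₀)` for which
`-ord(v_{j,i}) / i` is maximal; by `hv` it is positive: `m₀ = -ord(v_{j₀ i₀}) ≥ 1`, and `-ord(v_{j,i}) * i₀ ≤ m₀ * i` for all `(j, i)`. Let
`B = O[Y]/(Y^{i₀} - ϖ)` (`AdjoinRoot (X^{i₀} - C ϖ)`), free over `O` with basis `1, Y, ..., Y^{i₀-1}`, so `ϖ` (and every nonzero element of `O`) is a nonzerodivisor of `B` and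
`B → K1 ⊗_O B = K1[Y]/(Y^{i₀} - ϖ) =: B'` is injective; `ρ : B → κ`, `Y ↦ 0`, `π` on `O` (well defined because `π ϖ = 0`). Put `y = Y^{m₀}`. Then for all `(j,i)` the element `v_{j,i} y^i` of `B'` is in `B`:
`v_{j,i} = u ϖ^{-m'}`, `u ∈ O` (unit or `m' = 0`), `m' i₀ ≤ m₀ i`, so `v_{j,i} y^i = u Y^{m₀ i - i₀ m'}`; for `(j₀, i₀)` it is the unit `u` of `O`, whose image under `ρ` is nonzero. Substitute `t = y s` in the
identity: `η * tor(λ(y s), v(y s)) + F(λ(y s), v(y s)) = 0` in `B'[s]`, all entries in `B[s]`, so the identity holds in `B[s]`; apply `ρ`: `λ(y s) ↦ 1` (as `ρ y = 0`: `m₀ ≥ 1`, constant coefficient `1`), `η ↦ 0`,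
`v_j(y s) ↦ γ_j(s)`, `γ_{j₀} ≠ 0`. Take `L = 1`.
(To avoid `B'`: multiply the identity by powers of `ϖ`: choose `M` with all `ϖ^M v_{j,i} ∈ O`; `F` and `tor` are homogeneous of degree `n`, so the identity for `(ϖ^M λ, ϖ^M v)` over `O` holds;
substitute `t = y s` in `B[s]`, all entries become `ϖ^M` times elements of `B[s]`; cancel `ϖ^{M n}`.)
-/

namespace Pool.Agent.LibSU9

open MvPolynomial

/-- value of the pencil -/
private noncomputable def D5_P {Ω A : Type} [CommRing Ω] [CommRing A] {n : ℕ}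
    (F : MvPolynomial (Fin (n + 1)) Ω) (g : Ω →+* A) (ζ : A) (x : Fin (n + 1) → A) : A :=
  ζ * (∏ j : Fin n, (x 0 + x j.succ) - x 0 ^ n) + eval₂ g x F

private theorem D5_P_hom {Ω A A' : Type} [CommRing Ω] [CommRing A] [CommRing A'] {n : ℕ}
    (F : MvPolynomial (Fin (n + 1)) Ω) (g : Ω →+* A) (ζ : A) (x : Fin (n + 1) → A) (f : A →+* A') :
    f (D5_P F g ζ x) = D5_P F (f.comp g) (f ζ) (fun i => f (x i)) := by
  unfold D5_P
  rw [map_add, map_mul, map_sub, map_prod, map_pow, MvPolynomial.hom_eval₂]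
  simp only [map_add]

private theorem D5_P_smul {Ω A : Type} [CommRing Ω] [CommRing A] {n : ℕ}
    (F : MvPolynomial (Fin (n + 1)) Ω) (hF : F.IsHomogeneous n) (g : Ω →+* A) (ζ a : A)
    (x : Fin (n + 1) → A) :
    D5_P F g ζ (fun i => a * x i) = a ^ n * D5_P F g ζ x := by
  unfold D5_P
  have h1 : ∏ j : Fin n, (a * x 0 + a * x j.succ) = a ^ n * ∏ j : Fin n, (x 0 + x j.succ) := by
    simp only [← mul_add]
    rw [Finset.prod_mul_distrib, Finset.prod_const, Finset.card_univ, Fintype.card_fin]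
  have h2 : eval₂ g (fun i => a * x i) F = a ^ n * eval₂ g x F := by
    rw [MvPolynomial.eval₂_eq', MvPolynomial.eval₂_eq', Finset.mul_sum]
    refine Finset.sum_congr rfl fun m hm => ?_
    have h3 : ∑ i, m i = n := by
      have h4 := hF (MvPolynomial.mem_support_iff.1 hm)
      rw [Finsupp.weight_apply, Finsupp.sum_fintype _ _ (by simp)] at h4
      simpa using h4
    simp only [mul_pow]
    rw [Finset.prod_mul_distrib, Finset.prod_pow_eq_pow_sum, h3]
    ring
  rw [h1, h2]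
  ring

private noncomputable def D5_pl {A : Type} [CommRing A] (e : ℕ) (f : ℕ → A) : Polynomial A :=
  ∑ i ∈ Finset.range (e + 1), Polynomial.C (f i) * Polynomial.X ^ i

private theorem D5_pl_coeff {A : Type} [CommRing A] (e : ℕ) (f : ℕ → A) (i : ℕ) :
    (D5_pl e f).coeff i = if i ≤ e then f i else 0 := by
  unfold D5_pl
  rw [Polynomial.finsetSum_coeff]
  simp only [Polynomial.coeff_C_mul_X_pow]
  rw [Finset.sum_ite_eq]
  simp [Nat.lt_succ_iff]

private theorem D5_pl_deg {A : Type} [CommRing A] (e : ℕ) (f : ℕ → A) : (D5_pl e f).natDegree ≤ e := by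
  rw [Polynomial.natDegree_le_iff_coeff_eq_zero]
  intro i hi
  rw [D5_pl_coeff, if_neg (by omega)]

private theorem D5_pow {B : Type} [CommRing B] (Y w : B) {i₀ : ℕ} (h : Y ^ i₀ = w) (k : ℕ) :
    w ^ k = Y ^ (i₀ * k) := by
  rw [← h, pow_mul]

theorem limit_frac {Ω O K1 κ : Type} [Field Ω] [CommRing O] [IsDomain O]
    [IsDiscreteValuationRing O] [Field K1] [Algebra O K1] [IsFractionRing O K1]
    [Algebra Ω O] [Algebra Ω K1] [IsScalarTower Ω O K1] [Field κ] [Algebra Ω κ]
    (π : O →ₐ[Ω] κ) (hπ : Function.Surjective π) (η : O) (hη : π η = 0) {n e : ℕ}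
    (F : MvPolynomial (Fin (n + 1)) Ω) (hF : F.IsHomogeneous n) (c : Fin e → Ω)
    (v : Fin n → Polynomial K1) (hdeg : ∀ j, (v j).natDegree ≤ e) (h0 : ∀ j, (v j).coeff 0 = 0)
    (hv : ∃ j i, (v j).coeff i ∉ Set.range (algebraMap O K1))
    (h : aeval (R := K1) (Fin.cons ((lam c).map (algebraMap Ω K1)) v : Fin (n + 1) → Polynomial K1)
      (C (algebraMap O K1 η) * tor K1 n + map (algebraMap Ω K1) F) = 0) :
    ∃ (L : Polynomial κ) (γ : Fin n → Polynomial κ), L.natDegree ≤ e ∧ L.coeff 0 = 1 ∧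
      (∀ j, (γ j).natDegree ≤ e ∧ (γ j).coeff 0 = 0) ∧ (∃ j, γ j ≠ 0) ∧
      aeval (R := Ω) (Fin.cons L γ : Fin (n + 1) → Polynomial κ) F = 0 := by
  classical
  obtain ⟨ϖ, hϖ⟩ := IsDiscreteValuationRing.exists_irreducible O
  have hϖ0 : ϖ ≠ 0 := hϖ.ne_zero
  have hinj : Function.Injective (algebraMap O K1) := IsFractionRing.injective O K1
  -- residues
  have hπu : ∀ u : O, IsUnit u → π u ≠ 0 := fun u hu => (hu.map π).ne_zero
  have hπϖ : π ϖ = 0 := by
    have h1 : (RingHom.ker (π : O →+* κ)).IsMaximal :=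
      RingHom.ker_isMaximal_of_surjective (π : O →+* κ) hπ
    have h2 : RingHom.ker (π : O →+* κ) = IsLocalRing.maximalIdeal O :=
      IsLocalRing.eq_maximalIdeal h1
    have h3 : ϖ ∈ RingHom.ker (π : O →+* κ) := by
      rw [h2, IsLocalRing.mem_maximalIdeal]
      exact hϖ.not_isUnit
    exact h3
  -- common denominators
  obtain ⟨M, hM⟩ : ∃ M : ℕ, ∀ (j : Fin n) (i : ℕ), ∃ V : O,
      algebraMap O K1 V = algebraMap O K1 ϖ ^ M * (v j).coeff i := by
    obtain ⟨b, hb⟩ := IsLocalization.exist_integer_multiples_of_finite (nonZeroDivisors O)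
      (fun t : Fin n × Fin (e + 1) => (v t.1).coeff t.2)
    have hb0 : (b : O) ≠ 0 := nonZeroDivisors.ne_zero b.2
    obtain ⟨M, u, hu⟩ := IsDiscreteValuationRing.eq_unit_mul_pow_irreducible hb0 hϖ
    refine ⟨M, fun j i => ?_⟩
    by_cases hi : i ≤ e
    · obtain ⟨x, hx⟩ := hb (j, ⟨i, by omega⟩)
      refine ⟨(↑u⁻¹ : O) * x, ?_⟩
      have hx' : algebraMap O K1 x = (b : O) • (v j).coeff i := hx
      rw [map_mul, hx', Algebra.smul_def, hu, map_mul, map_pow, ← mul_assoc, ← mul_assoc, ← map_mul]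
      simp
    · refine ⟨0, ?_⟩
      rw [map_zero, Polynomial.coeff_eq_zero_of_natDegree_lt (lt_of_le_of_lt (hdeg j) (by omega)),
        mul_zero]
  choose V hV using hM
  have hV0 : ∀ j, V j 0 = 0 := by
    intro j
    apply hinj
    rw [hV, h0, mul_zero, map_zero]
  have hVe : ∀ j i, e < i → V j i = 0 := by
    intro j i hi
    apply hinj
    rw [hV, Polynomial.coeff_eq_zero_of_natDegree_lt (lt_of_le_of_lt (hdeg j) hi), mul_zero, map_zero]
  -- orders
  have hord : ∀ j i, ∃ (a : ℕ) (u : O), IsUnit u ∧ (V j i ≠ 0 → V j i = u * ϖ ^ a) := by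
    intro j i
    by_cases h1 : V j i = 0
    · exact ⟨0, 1, isUnit_one, fun h2 => absurd h1 h2⟩
    · obtain ⟨a, u, hu⟩ := IsDiscreteValuationRing.eq_unit_mul_pow_irreducible h1 hϖ
      exact ⟨a, u, u.isUnit, fun _ => hu⟩
  choose a u hu hVa using hord
  -- the maximal slope
  set T : Finset (Fin n × ℕ) := ((Finset.univ : Finset (Fin n)) ×ˢ Finset.Icc 1 e).filter
    (fun t => V t.1 t.2 ≠ 0 ∧ a t.1 t.2 < M) with hT
  have hTne : T.Nonempty := by
    obtain ⟨j, i, hji⟩ := hv
    have h1 : V j i ≠ 0 := by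
      intro h1
      apply hji
      refine ⟨0, ?_⟩
      have h2 := hV j i
      rw [h1, map_zero] at h2
      rw [map_zero]
      exact ((mul_eq_zero.1 h2.symm).resolve_left
        (pow_ne_zero _ (fun h3 => hϖ0 (hinj (by rw [h3, map_zero]))))).symm
    have h2 : a j i < M := by
      by_contra hcon
      push Not at hcon
      apply hji
      refine ⟨u j i * ϖ ^ (a j i - M), ?_⟩
      have h3 := hV j i
      rw [hVa j i h1] at h3
      have h4 : algebraMap O K1 ϖ ^ M ≠ 0 :=
        pow_ne_zero _ (fun h3 => hϖ0 (hinj (by rw [h3, map_zero])))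
      apply mul_left_cancel₀ h4
      rw [← h3, ← map_pow, ← map_mul]
      congr 1
      calc ϖ ^ M * (u j i * ϖ ^ (a j i - M)) = u j i * (ϖ ^ M * ϖ ^ (a j i - M)) := by ring
        _ = u j i * ϖ ^ a j i := by rw [← pow_add, Nat.add_sub_cancel' hcon]
    refine ⟨(j, i), ?_⟩
    rw [hT, Finset.mem_filter, Finset.mem_product, Finset.mem_Icc]
    refine ⟨⟨Finset.mem_univ _, ?_, ?_⟩, h1, h2⟩
    · by_contra hcon
      have : i = 0 := by omega
      subst this
      exact h1 (hV0 j)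
    · by_contra hcon
      exact h1 (hVe j i (by omega))
  obtain ⟨⟨j₀, i₀⟩, ht₀, hmax⟩ := Finset.exists_max_image T
    (fun t => ((M : ℚ) - a t.1 t.2) / t.2) hTne
  rw [hT, Finset.mem_filter, Finset.mem_product, Finset.mem_Icc] at ht₀
  obtain ⟨⟨_, hi₀, hi₀e⟩, hV₀, ha₀⟩ := ht₀
  simp only at hi₀ hi₀e hV₀ ha₀ hmax
  set m₀ : ℕ := M - a j₀ i₀ with hm₀
  have hm₀1 : 1 ≤ m₀ := by omega
  have hslope : ∀ j i, V j i ≠ 0 → M * i₀ ≤ a j i * i₀ + m₀ * i := by
    intro j i hji
    have hi1 : 1 ≤ i := by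
      by_contra hcon
      have : i = 0 := by omega
      subst this
      exact hji (hV0 j)
    have hie : i ≤ e := by
      by_contra hcon
      exact hji (hVe j i (by omega))
    by_cases h1 : a j i < M
    · have h2 := hmax (j, i) (by
        rw [hT, Finset.mem_filter, Finset.mem_product, Finset.mem_Icc]
        exact ⟨⟨Finset.mem_univ _, hi1, hie⟩, hji, h1⟩)
      simp only at h2
      have hiq : (0 : ℚ) < i := by exact_mod_cast hi1
      have hi₀q : (0 : ℚ) < i₀ := by exact_mod_cast hi₀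
      rw [div_le_div_iff₀ hiq hi₀q] at h2
      have h3 : (m₀ : ℚ) = (M : ℚ) - a j₀ i₀ := by
        rw [hm₀, Nat.cast_sub ha₀.le]
      rw [← h3] at h2
      have h4 : (M : ℚ) * i₀ ≤ a j i * i₀ + m₀ * i := by linarith
      exact_mod_cast h4
    · push Not at h1
      calc M * i₀ ≤ a j i * i₀ := Nat.mul_le_mul_right _ h1
        _ ≤ a j i * i₀ + m₀ * i := Nat.le_add_right _ _
  -- the ramified extension
  let f : Polynomial O := Polynomial.X ^ i₀ - Polynomial.C ϖ
  have hmon : f.Monic := Polynomial.monic_X_pow_sub_C ϖ (by omega)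
  let Y : AdjoinRoot f := AdjoinRoot.root f
  let ι : O →+* AdjoinRoot f := AdjoinRoot.of f
  have hY : Y ^ i₀ = ι ϖ := by
    have h1 : AdjoinRoot.mk f f = 0 := AdjoinRoot.mk_self
    have h2 : AdjoinRoot.mk f f = Y ^ i₀ - ι ϖ := by
      show AdjoinRoot.mk f (Polynomial.X ^ i₀ - Polynomial.C ϖ) = _
      rw [map_sub, map_pow, AdjoinRoot.mk_X, AdjoinRoot.mk_C]
    rw [h2] at h1
    exact sub_eq_zero.1 h1
  have hcancel : ∀ (k : ℕ) (b : AdjoinRoot f), ι ϖ ^ k * b = 0 → b = 0 := by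
    intro k b hb
    let bs := (AdjoinRoot.powerBasis' hmon).basis
    have h1 : ϖ ^ k • b = 0 := by
      rw [Algebra.smul_def, map_pow]
      exact hb
    apply bs.repr.injective
    rw [map_zero]
    ext t
    have h2 := congrArg (fun z => bs.repr z t) h1
    simp only [map_smul, Finsupp.smul_apply, map_zero, Finsupp.coe_zero, Pi.zero_apply,
      smul_eq_mul] at h2
    rw [Finsupp.coe_zero, Pi.zero_apply]
    exact (mul_eq_zero.1 h2).resolve_left (pow_ne_zero _ hϖ0)
  let ρ : AdjoinRoot f →+* κ := AdjoinRoot.lift (π : O →+* κ) 0 (by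
    show Polynomial.eval₂ (π : O →+* κ) 0 (Polynomial.X ^ i₀ - Polynomial.C ϖ) = 0
    rw [Polynomial.eval₂_sub, Polynomial.eval₂_X_pow, Polynomial.eval₂_C, zero_pow (by omega)]
    show 0 - π ϖ = 0
    rw [hπϖ, sub_zero])
  have hρι : ∀ x : O, ρ (ι x) = π x := fun x => AdjoinRoot.lift_of _
  have hρY : ρ Y = 0 := AdjoinRoot.lift_root _
  -- the rescaled coefficients
  have hWex : ∀ j i, ∃ W : AdjoinRoot f, ι ϖ ^ M * W = ι (V j i) * (Y ^ m₀) ^ i := by
    intro j i
    by_cases h1 : V j i = 0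
    · exact ⟨0, by rw [h1, map_zero, mul_zero, zero_mul]⟩
    · refine ⟨ι (u j i) * Y ^ (a j i * i₀ + m₀ * i - M * i₀), ?_⟩
      have h2 := hslope j i h1
      rw [hVa j i h1, map_mul, map_pow, D5_pow Y (ι ϖ) hY M, D5_pow Y (ι ϖ) hY (a j i), ← pow_mul]
      have h3 : Y ^ (i₀ * M) * Y ^ (a j i * i₀ + m₀ * i - M * i₀) = Y ^ (i₀ * a j i) * Y ^ (m₀ * i) := by
        rw [← pow_add, ← pow_add]
        congr 1
        rw [mul_comm i₀ M, mul_comm i₀ (a j i)]
        omega
      calc Y ^ (i₀ * M) * (ι (u j i) * Y ^ (a j i * i₀ + m₀ * i - M * i₀))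
          = ι (u j i) * (Y ^ (i₀ * M) * Y ^ (a j i * i₀ + m₀ * i - M * i₀)) := by ring
        _ = ι (u j i) * (Y ^ (i₀ * a j i) * Y ^ (m₀ * i)) := by rw [h3]
        _ = _ := by ring
  choose W hW using hWex
  have hW00 : ∀ j, W j 0 = 0 := by
    intro j
    apply hcancel M
    rw [hW, hV0, map_zero, zero_mul]
  have hW₀ : W j₀ i₀ = ι (u j₀ i₀) := by
    rw [← sub_eq_zero]
    apply hcancel M
    rw [mul_sub, hW, hVa j₀ i₀ hV₀, map_mul, map_pow, ← pow_mul, mul_comm m₀ i₀, pow_mul, hY]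
    have h1 : ι ϖ ^ M = ι ϖ ^ a j₀ i₀ * ι ϖ ^ m₀ := by
      rw [← pow_add, hm₀, Nat.add_sub_cancel' ha₀.le]
    rw [h1]
    ring
  -- the identity over `O`
  let lamO : Polynomial O := (lam c).map (algebraMap Ω O)
  let gO : Ω →+* Polynomial O := Polynomial.C.comp (algebraMap Ω O)
  have hlamK : lamO.map (algebraMap O K1) = (lam c).map (algebraMap Ω K1) := by
    show ((lam c).map (algebraMap Ω O)).map (algebraMap O K1) = _
    rw [Polynomial.map_map, ← IsScalarTower.algebraMap_eq]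
  have hVK : ∀ j, (D5_pl e (V j)).map (algebraMap O K1) =
      Polynomial.C (algebraMap O K1 ϖ ^ M) * v j := by
    intro j
    ext i
    rw [Polynomial.coeff_map, D5_pl_coeff, Polynomial.coeff_C_mul]
    split_ifs with hi
    · exact hV j i
    · rw [map_zero, Polynomial.coeff_eq_zero_of_natDegree_lt (lt_of_le_of_lt (hdeg j) (by omega)),
        mul_zero]
  have hO : D5_P F gO (Polynomial.C η)
      (Fin.cons (Polynomial.C (ϖ ^ M) * lamO) (fun j => D5_pl e (V j))) = 0 := by
    apply Polynomial.map_injective (algebraMap O K1) hinj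
    rw [Polynomial.map_zero]
    have h1 := D5_P_hom F gO (Polynomial.C η)
      (Fin.cons (Polynomial.C (ϖ ^ M) * lamO) (fun j => D5_pl e (V j)))
      (Polynomial.mapRingHom (algebraMap O K1))
    rw [Polynomial.coe_mapRingHom] at h1
    rw [h1]
    have h2 : (fun i => Polynomial.map (algebraMap O K1)
        ((Fin.cons (Polynomial.C (ϖ ^ M) * lamO) (fun j => D5_pl e (V j)) :
          Fin (n + 1) → Polynomial O) i)) =
        fun i => Polynomial.C (algebraMap O K1 ϖ ^ M) *
          (Fin.cons ((lam c).map (algebraMap Ω K1)) v : Fin (n + 1) → Polynomial K1) i := by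
      funext i
      refine Fin.cases ?_ (fun j => ?_) i
      · rw [Fin.cons_zero, Fin.cons_zero, Polynomial.map_mul, Polynomial.map_C, map_pow, hlamK]
      · rw [Fin.cons_succ, Fin.cons_succ, hVK]
    rw [h2, D5_P_smul F hF]
    have h3 : D5_P F ((Polynomial.mapRingHom (algebraMap O K1)).comp gO)
        (Polynomial.map (algebraMap O K1) (Polynomial.C η))
        (Fin.cons ((lam c).map (algebraMap Ω K1)) v) = 0 := by
      rw [← h]
      unfold D5_P tor
      rw [map_add, map_mul, MvPolynomial.aeval_C, map_sub, map_prod, map_pow, MvPolynomial.aeval_X,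
        MvPolynomial.aeval_def (p := map (algebraMap Ω K1) F), MvPolynomial.eval₂_map,
        Polynomial.map_C]
      have h4 : (Polynomial.mapRingHom (algebraMap O K1)).comp gO =
          (algebraMap K1 (Polynomial K1)).comp (algebraMap Ω K1) := by
        refine RingHom.ext fun w => ?_
        show Polynomial.map (algebraMap O K1) (Polynomial.C (algebraMap Ω O w)) = _
        rw [Polynomial.map_C, ← IsScalarTower.algebraMap_apply]
        rfl
      rw [h4]
      simp only [map_add, MvPolynomial.aeval_X]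
      rfl
    rw [h3, mul_zero]
  -- the identity over the extension
  let Θ : Polynomial O →+* Polynomial (AdjoinRoot f) :=
    (Polynomial.compRingHom (Polynomial.C (Y ^ m₀) * Polynomial.X)).comp (Polynomial.mapRingHom ι)
  have hΘ : ∀ (p : Polynomial O) (i : ℕ), (Θ p).coeff i = ι (p.coeff i) * (Y ^ m₀) ^ i := by
    intro p i
    show ((p.map ι).comp (Polynomial.C (Y ^ m₀) * Polynomial.X)).coeff i = _
    rw [Polynomial.comp_C_mul_X_coeff, Polynomial.coeff_map]
  have hΘC : ∀ x : O, Θ (Polynomial.C x) = Polynomial.C (ι x) := by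
    intro x
    show ((Polynomial.C x).map ι).comp (Polynomial.C (Y ^ m₀) * Polynomial.X) = _
    rw [Polynomial.map_C, Polynomial.C_comp]
  have hΘV : ∀ j, Θ (D5_pl e (V j)) = Polynomial.C (ι ϖ ^ M) * D5_pl e (W j) := by
    intro j
    ext i
    rw [hΘ, Polynomial.coeff_C_mul, D5_pl_coeff, D5_pl_coeff]
    split_ifs with hi
    · exact (hW j i).symm
    · rw [map_zero, zero_mul, mul_zero]
  have hB := congrArg Θ hO
  rw [map_zero, D5_P_hom] at hB
  have h2 : (fun i => Θ ((Fin.cons (Polynomial.C (ϖ ^ M) * lamO) (fun j => D5_pl e (V j)) :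
        Fin (n + 1) → Polynomial O) i)) =
      fun i => Polynomial.C (ι ϖ ^ M) *
        (Fin.cons (Θ lamO) (fun j => D5_pl e (W j)) : Fin (n + 1) → Polynomial (AdjoinRoot f)) i := by
    funext i
    refine Fin.cases ?_ (fun j => ?_) i
    · rw [Fin.cons_zero, Fin.cons_zero, map_mul, hΘC, map_pow]
    · rw [Fin.cons_succ, Fin.cons_succ, hΘV]
  rw [h2, D5_P_smul F hF, ← map_pow] at hB
  have hB' : D5_P F (Θ.comp gO) (Θ (Polynomial.C η)) (Fin.cons (Θ lamO) (fun j => D5_pl e (W j))) = 0 := by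
    ext i
    have h3 := congrArg (fun z => Polynomial.coeff z i) hB
    simp only [Polynomial.coeff_C_mul, Polynomial.coeff_zero] at h3
    rw [← pow_mul] at h3
    rw [Polynomial.coeff_zero]
    exact hcancel _ _ h3
  -- the residue
  have hκ := congrArg (Polynomial.mapRingHom ρ) hB'
  rw [map_zero, D5_P_hom, hΘC] at hκ
  have hη0 : (Polynomial.mapRingHom ρ) (Polynomial.C (ι η)) = 0 := by
    rw [Polynomial.coe_mapRingHom, Polynomial.map_C, hρι, hη, map_zero]
  have hlam0 : lamO.coeff 0 = 1 := by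
    show ((lam c).map (algebraMap Ω O)).coeff 0 = 1
    rw [Polynomial.coeff_map]
    unfold lam
    rw [Polynomial.coeff_zero_eq_eval_zero, Polynomial.eval_prod]
    simp
  have hL : Polynomial.map ρ (Θ lamO) = 1 := by
    ext i
    rw [Polynomial.coeff_map, hΘ, map_mul, hρι, map_pow, map_pow, hρY, zero_pow (by omega)]
    by_cases hi : i = 0
    · subst hi
      rw [hlam0, map_one, pow_zero, mul_one, Polynomial.coeff_one_zero]
    · rw [zero_pow hi, mul_zero, Polynomial.coeff_one, if_neg hi]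
  refine ⟨1, fun j => Polynomial.map ρ (D5_pl e (W j)), ?_, ?_, fun j => ⟨?_, ?_⟩, ⟨j₀, ?_⟩, ?_⟩
  · rw [Polynomial.natDegree_one]
    exact Nat.zero_le _
  · exact Polynomial.coeff_one_zero
  · exact (Polynomial.natDegree_map_le).trans (D5_pl_deg e _)
  · rw [Polynomial.coeff_map, D5_pl_coeff, if_pos (Nat.zero_le _), hW00, map_zero]
  · intro h4
    have h5 := congrArg (fun z => Polynomial.coeff z i₀) h4
    simp only [Polynomial.coeff_map, Polynomial.coeff_zero] at h5
    rw [D5_pl_coeff, if_pos hi₀e, hW₀, hρι] at h5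
    exact hπu _ (hu j₀ i₀) h5
  · rw [hη0] at hκ
    unfold D5_P at hκ
    rw [zero_mul, zero_add] at hκ
    rw [MvPolynomial.aeval_def]
    have h6 : (algebraMap Ω (Polynomial κ)) = (Polynomial.mapRingHom ρ).comp (Θ.comp gO) := by
      refine RingHom.ext fun w => ?_
      show _ = Polynomial.map ρ (Θ (Polynomial.C (algebraMap Ω O w)))
      rw [hΘC, Polynomial.map_C, hρι, AlgHom.commutes]
      rfl
    have h7 : (Fin.cons 1 (fun j => Polynomial.map ρ (D5_pl e (W j))) : Fin (n + 1) → Polynomial κ) =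
        fun i => (Polynomial.mapRingHom ρ)
          ((Fin.cons (Θ lamO) (fun j => D5_pl e (W j)) : Fin (n + 1) → Polynomial (AdjoinRoot f)) i) := by
      funext i
      refine Fin.cases ?_ (fun j => ?_) i
      · rw [Fin.cons_zero, Fin.cons_zero, Polynomial.coe_mapRingHom, hL]
      · rw [Fin.cons_succ, Fin.cons_succ, Polynomial.coe_mapRingHom]
    rw [h6, h7]
    exact hκ

end Pool.Agent.LibSU9
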