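import Pool.Agent.LibSU9.Defs

/-!
[SU9 D6] (SHORT/MEDIUM; only Mathlib + Defs) Change of coordinates.

PLAN. Choose an invertible matrix `T` over `Ω` with first column `y` (extend `y ≠ 0` to a basis, or: `y i₀ ≠ 0`, take the identity matrix with column `i₀` replaced by `y` and swap columns `0, i₀`).
`F' = F(T x)` (`bind₁ (fun i => ∑ k, C (T i k) * X k) F`) is homogeneous of degree `n` and vanishes at `e_0`. `H F'` gives `κ, L, γ'`; let
`x' = Fin.cons L γ'`, `γ i = ∑ k, C (T i k) * x' k`. Then `aeval γ F = aeval x' F' = 0`, `γ(0) = T e_0 = y`, degrees `≤ e`; if `γ = l • y` then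
`x' = T⁻¹ γ = l • e_0`, so `γ' j = 0` for all `j`, contradiction.
-/

namespace Pool.Agent.LibSU9

open MvPolynomial

private theorem D6_equiv {Ω : Type} [Field Ω] {n : ℕ} (y : Fin (n + 1) → Ω) (hy : y ≠ 0) :
    ∃ T S : Matrix (Fin (n + 1)) (Fin (n + 1)) Ω, S * T = 1 ∧ T * S = 1 ∧ ∀ i, T i 0 = y i := by
  have he : (Pi.single 0 1 : Fin (n + 1) → Ω) ≠ 0 := by
    intro h
    have h1 := congrFun h 0
    rw [Pi.single_eq_same, Pi.zero_apply] at h1
    exact one_ne_zero h1
  let f := (LinearEquiv.toSpanNonzeroSingleton Ω _ (Pi.single 0 1 : Fin (n + 1) → Ω) he).symm ≪≫ₗ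
    LinearEquiv.toSpanNonzeroSingleton Ω _ y hy
  obtain ⟨g, hg⟩ := Submodule.exists_linearEquiv_restrict_eq f
  have hg0 : g (Pi.single 0 1) = y := by
    have h1 := hg ⟨Pi.single 0 1, Submodule.mem_span_singleton_self _⟩
    have h2 : (LinearEquiv.toSpanNonzeroSingleton Ω _ (Pi.single 0 1 : Fin (n + 1) → Ω) he).symm
        ⟨Pi.single 0 1, Submodule.mem_span_singleton_self _⟩ = 1 := by
      rw [LinearEquiv.symm_apply_eq]
      apply Subtype.ext
      rw [LinearEquiv.toSpanNonzeroSingleton_apply]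
      simp
    rw [← h1]
    change ((LinearEquiv.toSpanNonzeroSingleton Ω _ y hy)
      ((LinearEquiv.toSpanNonzeroSingleton Ω _ (Pi.single 0 1 : Fin (n + 1) → Ω) he).symm
        ⟨Pi.single 0 1, Submodule.mem_span_singleton_self _⟩) : Fin (n + 1) → Ω) = y
    rw [h2, LinearEquiv.toSpanNonzeroSingleton_apply]
    simp
  refine ⟨LinearMap.toMatrix' (g : (Fin (n + 1) → Ω) →ₗ[Ω] (Fin (n + 1) → Ω)),
    LinearMap.toMatrix' (g.symm : (Fin (n + 1) → Ω) →ₗ[Ω] (Fin (n + 1) → Ω)), ?_, ?_, ?_⟩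
  · rw [← LinearMap.toMatrix'_comp, LinearEquiv.comp_coe]
    simp
  · rw [← LinearMap.toMatrix'_comp, LinearEquiv.comp_coe]
    simp
  · intro i
    rw [LinearMap.toMatrix'_apply]
    change g _ i = y i
    rw [← hg0]

theorem coords {Ω : Type} [Field Ω] (p : ℕ) {n e : ℕ}
    (H : ∀ F : MvPolynomial (Fin (n + 1)) Ω, F.IsHomogeneous n →
      eval (Pi.single 0 1 : Fin (n + 1) → Ω) F = 0 →
      ∃ (κ : Type) (_ : Field κ) (_ : Algebra Ω κ), FiniteDimensional Ω κ ∧
        ¬ p ∣ Module.finrank Ω κ ∧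
        ∃ (L : Polynomial κ) (γ : Fin n → Polynomial κ), L.natDegree ≤ e ∧ L.coeff 0 = 1 ∧
          (∀ j, (γ j).natDegree ≤ e ∧ (γ j).coeff 0 = 0) ∧ (∃ j, γ j ≠ 0) ∧
          aeval (R := Ω) (Fin.cons L γ : Fin (n + 1) → Polynomial κ) F = 0)
    (F : MvPolynomial (Fin (n + 1)) Ω) (hF : F.IsHomogeneous n) (y : Fin (n + 1) → Ω)
    (hy : y ≠ 0) (h0 : eval y F = 0) :
    ∃ (κ : Type) (_ : Field κ) (_ : Algebra Ω κ), FiniteDimensional Ω κ ∧
      ¬ p ∣ Module.finrank Ω κ ∧
      ∃ γ : Fin (n + 1) → Polynomial κ, (∀ i, (γ i).natDegree ≤ e) ∧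
        (∀ i, (γ i).coeff 0 = algebraMap Ω κ (y i)) ∧ aeval (R := Ω) γ F = 0 ∧
        ¬ ∃ l : Polynomial κ, ∀ i, γ i = l * Polynomial.C (algebraMap Ω κ (y i)) := by
  obtain ⟨T, S, hST, hTS, hT0⟩ := D6_equiv y hy
  let f : Fin (n + 1) → MvPolynomial (Fin (n + 1)) Ω := fun i => ∑ k, C (T i k) * X k
  have hf : ∀ i, (f i).IsHomogeneous 1 := by
    intro i
    refine IsHomogeneous.sum _ _ _ fun k _ => ?_
    have h1 := (isHomogeneous_C (Fin (n + 1)) (T i k)).mul (isHomogeneous_X Ω k)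
    rw [zero_add] at h1
    exact h1
  have hF' : (bind₁ f F).IsHomogeneous n := by
    have h1 := hF.aeval f hf
    rw [one_mul] at h1
    exact h1
  have h0' : eval (Pi.single 0 1 : Fin (n + 1) → Ω) (bind₁ f F) = 0 := by
    rw [← coe_aeval_eq_eval]
    change aeval (Pi.single 0 1 : Fin (n + 1) → Ω) (bind₁ f F) = 0
    rw [aeval_bind₁]
    have e : (fun i => aeval (Pi.single 0 1 : Fin (n + 1) → Ω) (f i)) = y := by
      funext i
      change aeval (Pi.single 0 1 : Fin (n + 1) → Ω) (∑ k, C (T i k) * X k) = y i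
      rw [map_sum, Finset.sum_eq_single 0]
      · rw [map_mul, aeval_C, aeval_X, Pi.single_eq_same, mul_one]
        exact hT0 i
      · intro k _ hk
        rw [map_mul, aeval_X, Pi.single_eq_of_ne hk, mul_zero]
      · intro h
        exact absurd (Finset.mem_univ _) h
    rw [e]
    have h2 : aeval y F = eval y F := by
      rw [← coe_aeval_eq_eval]
      rfl
    rw [h2, h0]
  obtain ⟨κ, hκ1, hκ2, hfd, hpd, L, γ', hL, hL0, hγ', ⟨j0, hj0⟩, hz⟩ := H (bind₁ f F) hF' h0'
  refine ⟨κ, hκ1, hκ2, hfd, hpd, ?_⟩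
  let x' : Fin (n + 1) → Polynomial κ := Fin.cons L γ'
  have hx0 : x' 0 = L := rfl
  have hxs : ∀ j : Fin n, x' j.succ = γ' j := fun _ => rfl
  have hxdeg : ∀ k, (x' k).natDegree ≤ e := by
    intro k
    refine Fin.cases ?_ (fun j => ?_) k
    · exact hL
    · exact (hγ' j).1
  let γ : Fin (n + 1) → Polynomial κ := fun i => ∑ k, Polynomial.C (algebraMap Ω κ (T i k)) * x' k
  refine ⟨γ, ?_, ?_, ?_, ?_⟩
  · intro i
    refine Polynomial.natDegree_sum_le_of_forall_le _ _ fun k _ => ?_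
    exact (Polynomial.natDegree_C_mul_le _ _).trans (hxdeg k)
  · intro i
    change (∑ k, Polynomial.C (algebraMap Ω κ (T i k)) * x' k).coeff 0 = _
    rw [Polynomial.finsetSum_coeff, Fin.sum_univ_succ, Finset.sum_eq_zero, add_zero,
      Polynomial.coeff_C_mul, hx0, hL0, mul_one, hT0]
    intro j _
    rw [Polynomial.coeff_C_mul, hxs, (hγ' j).2, mul_zero]
  · have h1 : aeval (R := Ω) x' (bind₁ f F) = 0 := hz
    rw [aeval_bind₁] at h1
    have e1 : (fun i => aeval (R := Ω) x' (f i)) = γ := by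
      funext i
      change aeval (R := Ω) x' (∑ k, C (T i k) * X k) = ∑ k, Polynomial.C (algebraMap Ω κ (T i k)) * x' k
      rw [map_sum]
      refine Finset.sum_congr rfl fun k _ => ?_
      rw [map_mul, aeval_C, aeval_X]
      rfl
    rw [e1] at h1
    exact h1
  · rintro ⟨l, hl⟩
    apply hj0
    have e1 : x' j0.succ = ∑ i, Polynomial.C (algebraMap Ω κ (S j0.succ i)) * γ i := by
      have e2 : ∀ i, Polynomial.C (algebraMap Ω κ (S j0.succ i)) * γ i =
          ∑ k, Polynomial.C (algebraMap Ω κ (S j0.succ i * T i k)) * x' k := by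
        intro i
        change _ * ∑ k, Polynomial.C (algebraMap Ω κ (T i k)) * x' k = _
        rw [Finset.mul_sum]
        refine Finset.sum_congr rfl fun k _ => ?_
        rw [map_mul, Polynomial.C_mul, mul_assoc]
      simp_rw [e2]
      rw [Finset.sum_comm]
      have e3 : ∀ k, ∑ i, Polynomial.C (algebraMap Ω κ (S j0.succ i * T i k)) * x' k =
          Polynomial.C (algebraMap Ω κ ((1 : Matrix (Fin (n + 1)) (Fin (n + 1)) Ω) j0.succ k)) * x' k := by
        intro k
        rw [← Finset.sum_mul, ← hST, Matrix.mul_apply, map_sum, map_sum]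
      simp_rw [e3]
      rw [Finset.sum_eq_single j0.succ]
      · rw [Matrix.one_apply_eq, map_one, Polynomial.C_1, one_mul]
      · intro k _ hk
        rw [Matrix.one_apply_ne hk.symm, map_zero, Polynomial.C_0, zero_mul]
      · intro h
        exact absurd (Finset.mem_univ _) h
    rw [← hxs, e1]
    simp_rw [hl]
    have e4 : ∑ i, Polynomial.C (algebraMap Ω κ (S j0.succ i)) * (l * Polynomial.C (algebraMap Ω κ (y i))) =
        l * Polynomial.C (algebraMap Ω κ ((S * T) j0.succ 0)) := by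
      rw [Matrix.mul_apply, map_sum, map_sum, Finset.mul_sum]
      refine Finset.sum_congr rfl fun i _ => ?_
      rw [hT0, map_mul, Polynomial.C_mul]
      ring
    rw [e4, hST, Matrix.one_apply_ne (Fin.succ_ne_zero j0), map_zero, Polynomial.C_0, mul_zero]

end Pool.Agent.LibSU9
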