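import Pool.Agent.LibSU9.Defs

/-!
[SU9 D7] (MEDIUM; only Mathlib) Derivations: the curve through the generic point is free.

PLAN. `S = K[x_0..x_m]/(F)`, `Ω = Frac S`, `y i` = class of `X i`, `κ/Ω` finite of degree not divisible by `p`, so separable (see the plan of D3), hence formally étale
(`Algebra.FormallyEtale.of_isSeparable`). Given `w` with `∑ (∂_i F)(y) w_i = 0`: the `K`-derivation `MvPolynomial (Fin (m+1)) K → κ`, `G ↦ ∑ (∂_i G)(y) w_i`
(`MvPolynomial.mkDerivation`, `κ` a module through `y`) kills the ideal `(F)` (`F * G ↦ F(y) * .. + G(y) * 0 = 0`), so induces `D₀ : S → κ`; extends to `Ω` (quotient rule; Mathlib: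
`Derivation.localization...`, `KaehlerDifferential` base change, or formally étale `S → Ω`) and to `κ` (formally étale `Ω → κ`; e.g. a derivation `κ → κ` over `K` is an `K`-algebra
homomorphism `κ → κ[ε]` lifting the identity; `Algebra.FormallyEtale.lift`, `TrivSqZeroExt`/`DualNumber`, or `Differential`-like lemmas
in `Mathlib/RingTheory/Derivation/...`, `Derivation.liftOfSeparable`?). Put `δ i` = `D` applied to the coefficients of `γ i`. From
`F(γ) = 0`, `F` with coefficients in `K`: apply `D` coefficientwise (a derivation of `κ[t]` killing `t`, `Polynomial` `Derivation.mapCoeff`): `∑ (∂_i F)(γ) δ_i = 0`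
(`Derivation` chain rule for `MvPolynomial.aeval`: `Derivation.map_aeval`-like, or `MvPolynomial.induction_on`). `δ(0) = D y = w`.
-/

namespace Pool.Agent.LibSU9

open MvPolynomial

open scoped TensorProduct in
private theorem D7_ext {S Ω' κ : Type} [CommRing S] [IsDomain S] [Field Ω'] [Field κ] [Algebra S Ω']
    [IsFractionRing S Ω'] [Algebra Ω' κ] [Algebra.IsSeparable Ω' κ] (D0 : S → κ)
    (hadd : ∀ s t, D0 (s + t) = D0 s + D0 t)
    (hmul : ∀ s t, D0 (s * t) = algebraMap Ω' κ (algebraMap S Ω' s) * D0 t +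
      algebraMap Ω' κ (algebraMap S Ω' t) * D0 s) :
    ∃ D : Derivation ℤ κ κ, ∀ s, D (algebraMap Ω' κ (algebraMap S Ω' s)) = D0 s := by
  let _ : Algebra S κ := ((algebraMap Ω' κ).comp (algebraMap S Ω')).toAlgebra
  have _ : IsScalarTower S Ω' κ := IsScalarTower.of_algebraMap_eq fun _ => rfl
  have _ : Algebra.FormallyEtale S Ω' := Algebra.FormallyEtale.of_isLocalization (nonZeroDivisors S)
  have _ : Algebra.FormallyEtale Ω' κ := Algebra.FormallyEtale.of_isSeparable _ _
  have _ : Algebra.FormallyEtale S κ := Algebra.FormallyEtale.comp S Ω' κ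
  let D1 : Derivation ℤ S κ := Derivation.mk' (AddMonoidHom.toIntLinearMap (AddMonoidHom.mk' D0 hadd))
    (fun s t => by
      rw [Algebra.smul_def, Algebra.smul_def]
      exact hmul s t)
  let T : κ ⊗[S] (Ω[S⁄ℤ]) →ₗ[κ] κ := (D1.liftKaehlerDifferential).liftBaseChange κ
  refine ⟨(T ∘ₗ (KaehlerDifferential.tensorKaehlerEquivOfFormallyEtale ℤ S κ).symm.toLinearMap).compDer
    (KaehlerDifferential.D ℤ κ), ?_⟩
  intro s
  change T ((KaehlerDifferential.tensorKaehlerEquivOfFormallyEtale ℤ S κ).symm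
    (KaehlerDifferential.D ℤ κ (algebraMap S κ s))) = D0 s
  rw [KaehlerDifferential.tensorKaehlerEquivOfFormallyEtale_symm_D_algebraMap, LinearMap.liftBaseChange_tmul,
    one_smul, Derivation.liftKaehlerDifferential_comp_D]
  rfl

private theorem D7_chain {K κ : Type} [Field K] [Field κ] (ι : K →+* κ) (D : Derivation ℤ κ κ)
    (hD : ∀ a, D (ι a) = 0) {m : ℕ} (γ : Fin m → Polynomial κ) :
    ∃ M : Polynomial κ → Polynomial κ, (∀ P j, (M P).coeff j = D (P.coeff j)) ∧
      ∀ G : MvPolynomial (Fin m) K, M (eval₂ (Polynomial.C.comp ι) γ G) =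
        ∑ i, eval₂ (Polynomial.C.comp ι) γ (pderiv i G) * M (γ i) := by
  let M : Derivation ℤ (Polynomial κ) (Polynomial κ) :=
    (PolynomialModule.equivPolynomialSelf : PolynomialModule κ κ ≃ₗ[Polynomial κ] Polynomial κ).toLinearMap.compDer
      D.mapCoeffs
  have hM : ∀ (P : Polynomial κ) (j : ℕ), (M P).coeff j = D (P.coeff j) := fun _ _ => rfl
  refine ⟨M, hM, ?_⟩
  intro G
  induction G using MvPolynomial.induction_on with
  | C a =>
    have h1 : M (eval₂ (Polynomial.C.comp ι) γ (C a)) = 0 := by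
      rw [eval₂_C]
      ext j
      rw [hM, Polynomial.coeff_zero]
      change D ((Polynomial.C (ι a)).coeff j) = 0
      rw [Polynomial.coeff_C]
      split_ifs
      · exact hD a
      · exact map_zero D
    rw [h1, Finset.sum_eq_zero]
    intro i _
    rw [pderiv_C, eval₂_zero, zero_mul]
  | add p q hp hq =>
    rw [eval₂_add, map_add, hp, hq, ← Finset.sum_add_distrib]
    refine Finset.sum_congr rfl fun i _ => ?_
    rw [map_add, eval₂_add, add_mul]
  | mul_X p n hp =>
    rw [eval₂_mul, eval₂_X, M.leibniz, hp]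
    have e1 : ∀ i, eval₂ (Polynomial.C.comp ι) γ (pderiv i (p * X n)) * M (γ i) =
        eval₂ (Polynomial.C.comp ι) γ p *
          (eval₂ (Polynomial.C.comp ι) γ ((Pi.single i 1 : Fin m → MvPolynomial (Fin m) K) n) * M (γ i)) +
        γ n * (eval₂ (Polynomial.C.comp ι) γ (pderiv i p) * M (γ i)) := by
      intro i
      rw [pderiv_mul, eval₂_add, eval₂_mul, eval₂_mul, eval₂_X, pderiv_X]
      ring
    have e2 : ∑ i, eval₂ (Polynomial.C.comp ι) γ ((Pi.single i 1 : Fin m → MvPolynomial (Fin m) K) n) * M (γ i) =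
        M (γ n) := by
      rw [Finset.sum_eq_single n]
      · rw [Pi.single_eq_same, eval₂_one, one_mul]
      · intro i _ hi
        rw [Pi.single_eq_of_ne hi.symm, eval₂_zero, zero_mul]
      · intro h
        exact absurd (Finset.mem_univ n) h
    simp_rw [e1]
    rw [Finset.sum_add_distrib, ← Finset.mul_sum, ← Finset.mul_sum, e2]
    rfl

private theorem D7_sep {Ω' κ : Type} [Field Ω'] [Field κ] [Algebra Ω' κ] [FiniteDimensional Ω' κ] (p : ℕ)
    [CharP Ω' p] (h : ¬ p ∣ Module.finrank Ω' κ) : Algebra.IsSeparable Ω' κ := by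
  refine ⟨fun x => ?_⟩
  have hint : IsIntegral Ω' x := Algebra.IsIntegral.isIntegral x
  have hirr := minpoly.irreducible hint
  change (minpoly Ω' x).Separable
  rw [Polynomial.separable_iff_derivative_ne_zero hirr]
  intro h0
  have hdvd : (minpoly Ω' x).natDegree ∣ Module.finrank Ω' κ := by
    rw [← IntermediateField.adjoin.finrank hint]
    exact ⟨_, (Module.finrank_mul_finrank Ω' (IntermediateField.adjoin Ω' {x}) κ).symm⟩
  have hpos := minpoly.natDegree_pos hint
  have h1 := congrArg (fun P => Polynomial.coeff P ((minpoly Ω' x).natDegree - 1)) h0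
  simp only [Polynomial.coeff_derivative, Polynomial.coeff_zero] at h1
  have e : (minpoly Ω' x).natDegree - 1 + 1 = (minpoly Ω' x).natDegree := Nat.sub_add_cancel hpos
  rw [← Nat.cast_succ, Nat.succ_eq_add_one, e, (minpoly.monic hint).coeff_natDegree, one_mul] at h1
  exact h (((CharP.cast_eq_zero_iff Ω' p _).mp h1).trans hdvd)

private theorem D7_der {K κ : Type} [Field K] [Field κ] (ι : K →+* κ) {m : ℕ} (F : MvPolynomial (Fin m) K)
    (φ : (MvPolynomial (Fin m) K ⧸ Ideal.span {F}) →+* κ) (y : Fin m → κ)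
    (hy : ∀ G, φ (Ideal.Quotient.mk _ G) = eval₂ ι y G) (w : Fin m → κ)
    (hw : ∑ i, eval₂ ι y (pderiv i F) * w i = 0) :
    ∃ D0 : (MvPolynomial (Fin m) K ⧸ Ideal.span {F}) → κ, (∀ s t, D0 (s + t) = D0 s + D0 t) ∧
      (∀ s t, D0 (s * t) = φ s * D0 t + φ t * D0 s) ∧ (∀ i, D0 (Ideal.Quotient.mk _ (X i)) = w i) ∧
      ∀ a, D0 (Ideal.Quotient.mk _ (C a)) = 0 := by
  let E : MvPolynomial (Fin m) K → κ := fun G => ∑ i, eval₂ ι y (pderiv i G) * w i
  have hEadd : ∀ G H, E (G + H) = E G + E H := by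
    intro G H
    change ∑ i, _ = ∑ i, _ + ∑ i, _
    rw [← Finset.sum_add_distrib]
    refine Finset.sum_congr rfl fun i _ => ?_
    rw [map_add, eval₂_add, add_mul]
  have hEmul : ∀ G H, E (G * H) = eval₂ ι y G * E H + eval₂ ι y H * E G := by
    intro G H
    change ∑ i, _ = _ * ∑ i, _ + _ * ∑ i, _
    rw [Finset.mul_sum, Finset.mul_sum, ← Finset.sum_add_distrib]
    refine Finset.sum_congr rfl fun i _ => ?_
    rw [pderiv_mul, eval₂_add, eval₂_mul, eval₂_mul]
    ring
  have hEneg : ∀ G, E (-G) = - E G := by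
    intro G
    change ∑ i, _ = - ∑ i, _
    rw [← Finset.sum_neg_distrib]
    refine Finset.sum_congr rfl fun i _ => ?_
    rw [map_neg, eval₂_neg, neg_mul]
  have hEC : ∀ a, E (C a) = 0 := by
    intro a
    refine Finset.sum_eq_zero fun i _ => ?_
    rw [pderiv_C, eval₂_zero, zero_mul]
  have hEF : E F = 0 := hw
  have hF0 : eval₂ ι y F = 0 := by
    rw [← hy, Ideal.Quotient.eq_zero_iff_mem.mpr (Ideal.mem_span_singleton_self F), map_zero]
  have hEI : ∀ G ∈ Ideal.span {F}, E G = 0 := by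
    intro G hG
    obtain ⟨H, rfl⟩ := Ideal.mem_span_singleton.mp hG
    rw [hEmul, hF0, hEF, zero_mul, mul_zero, add_zero]
  have hEeq : ∀ G H, Ideal.Quotient.mk (Ideal.span {F}) G = Ideal.Quotient.mk (Ideal.span {F}) H → E G = E H := by
    intro G H h
    have h1 := hEI (G - H) (Ideal.Quotient.eq.mp h)
    rw [sub_eq_add_neg, hEadd, hEneg] at h1
    exact add_neg_eq_zero.mp h1
  have hout : ∀ s : MvPolynomial (Fin m) K ⧸ Ideal.span {F},
      ∃ G, Ideal.Quotient.mk (Ideal.span {F}) G = s := Ideal.Quotient.mk_surjective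
  choose o ho using hout
  refine ⟨fun s => E (o s), ?_, ?_, ?_, ?_⟩
  · intro s t
    change E (o (s + t)) = E (o s) + E (o t)
    rw [← hEadd]
    apply hEeq
    rw [map_add, ho, ho, ho]
  · intro s t
    change E (o (s * t)) = φ s * E (o t) + φ t * E (o s)
    have e : E (o (s * t)) = E (o s * o t) := by
      apply hEeq
      rw [ho, map_mul, ho, ho]
    rw [e, hEmul, ← hy, ← hy, ho, ho]
  · intro i
    change E (o (Ideal.Quotient.mk _ (X i))) = w i
    have e : E (o (Ideal.Quotient.mk _ (X i))) = E (X i) := by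
      apply hEeq
      rw [ho]
    rw [e]
    change ∑ j, eval₂ ι y (pderiv j (X i)) * w j = w i
    rw [Finset.sum_eq_single i]
    · rw [pderiv_X, Pi.single_eq_same, eval₂_one, one_mul]
    · intro j _ hj
      rw [pderiv_X, Pi.single_eq_of_ne hj.symm, eval₂_zero, zero_mul]
    · intro h
      exact absurd (Finset.mem_univ i) h
  · intro a
    change E (o (Ideal.Quotient.mk _ (C a))) = 0
    rw [← hEC a]
    apply hEeq
    rw [ho]

theorem free_lift {K : Type} [Field K] (p : ℕ) [Fact p.Prime] [CharP K p] {m e : ℕ}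
    (F : MvPolynomial (Fin m) K) [hP : (Ideal.span {F}).IsPrime] {κ : Type} [Field κ]
    [Algebra (FractionRing (MvPolynomial (Fin m) K ⧸ Ideal.span {F})) κ]
    [FiniteDimensional (FractionRing (MvPolynomial (Fin m) K ⧸ Ideal.span {F})) κ]
    (hκ : ¬ p ∣ Module.finrank (FractionRing (MvPolynomial (Fin m) K ⧸ Ideal.span {F})) κ)
    (y : Fin m → κ)
    (hy : ∀ i, y i = algebraMap (FractionRing (MvPolynomial (Fin m) K ⧸ Ideal.span {F})) κ
      (algebraMap (MvPolynomial (Fin m) K ⧸ Ideal.span {F}) _ (Ideal.Quotient.mk _ (X i))))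
    (ι : K →+* κ)
    (hι : ∀ a, ι a = algebraMap (FractionRing (MvPolynomial (Fin m) K ⧸ Ideal.span {F})) κ
      (algebraMap (MvPolynomial (Fin m) K ⧸ Ideal.span {F}) _ (Ideal.Quotient.mk _ (C a))))
    (γ : Fin m → Polynomial κ) (hdeg : ∀ i, (γ i).natDegree ≤ e)
    (hγ0 : ∀ i, (γ i).coeff 0 = y i)
    (hγ : eval₂ (Polynomial.C.comp ι) γ F = 0) (w : Fin m → κ)
    (hw : ∑ i, eval₂ ι y (pderiv i F) * w i = 0) :
    ∃ δ : Fin m → Polynomial κ, (∀ i, (δ i).natDegree ≤ e) ∧ (∀ i, (δ i).coeff 0 = w i) ∧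
      ∑ i, eval₂ (Polynomial.C.comp ι) γ (pderiv i F) * δ i = 0 := by
  have hinj : Function.Injective (algebraMap K (FractionRing (MvPolynomial (Fin m) K ⧸ Ideal.span {F}))) :=
    RingHom.injective _
  have _ : CharP (FractionRing (MvPolynomial (Fin m) K ⧸ Ideal.span {F})) p :=
    charP_of_injective_algebraMap hinj p
  have _ : Algebra.IsSeparable (FractionRing (MvPolynomial (Fin m) K ⧸ Ideal.span {F})) κ := D7_sep p hκ
  let φ : (MvPolynomial (Fin m) K ⧸ Ideal.span {F}) →+* κ :=
    (algebraMap (FractionRing (MvPolynomial (Fin m) K ⧸ Ideal.span {F})) κ).comp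
      (algebraMap (MvPolynomial (Fin m) K ⧸ Ideal.span {F}) _)
  have hyG : ∀ G, φ (Ideal.Quotient.mk _ G) = eval₂ ι y G := by
    intro G
    have e : φ.comp (Ideal.Quotient.mk _) = eval₂Hom ι y := by
      apply MvPolynomial.ringHom_ext
      · intro a
        rw [eval₂Hom_C]
        exact (hι a).symm
      · intro j
        rw [eval₂Hom_X']
        exact (hy j).symm
    exact RingHom.congr_fun e G
  obtain ⟨D0, hadd, hmul, hX, hC⟩ := D7_der ι F φ y hyG w hw
  obtain ⟨D, hD⟩ := D7_ext (Ω' := FractionRing (MvPolynomial (Fin m) K ⧸ Ideal.span {F})) D0 hadd hmul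
  have hDι : ∀ a, D (ι a) = 0 := by
    intro a
    rw [hι, hD, hC]
  obtain ⟨M, hM, hchain⟩ := D7_chain ι D hDι γ
  refine ⟨fun i => M (γ i), ?_, ?_, ?_⟩
  · intro i
    rw [Polynomial.natDegree_le_iff_coeff_eq_zero]
    intro N hN
    rw [hM, Polynomial.coeff_eq_zero_of_natDegree_lt (lt_of_le_of_lt (hdeg i) hN), map_zero]
  · intro i
    rw [hM, hγ0, hy, hD, hX]
  · have h1 := hchain F
    have h2 : M (eval₂ (Polynomial.C.comp ι) γ F) = 0 := by
      rw [hγ]
      ext j
      rw [hM, Polynomial.coeff_zero, map_zero]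
    rw [h2] at h1
    exact h1.symm

end Pool.Agent.LibSU9
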