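import Mathlib

/-!
# LibSU9 (board SU9, MP_407a6b_ag): hypersurfaces of degree n in P^n in characteristic p > n are separably uniruled

Common definitions. `n` = degree of the hypersurface, `e` = degree of the curves, `N = n * e` unknown roots
`a (finProdFinEquiv (j, l))`, `j : Fin n`, `l : Fin e`.
-/

namespace Pool.Agent.LibSU9

open MvPolynomial

/-- `∏ (1 - c_l t)` -/
noncomputable def lam {A : Type} [CommRing A] {e : ℕ} (c : Fin e → A) : Polynomial A :=
  ∏ l, (1 - Polynomial.C (c l) * Polynomial.X)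

/-- `z_j = ∏_l (1 - a_{jl} t)` -/
noncomputable def zed {A : Type} [CommRing A] {n e : ℕ} (a : Fin (n * e) → A) (j : Fin n) :
    Polynomial A :=
  ∏ l : Fin e, (1 - Polynomial.C (a (finProdFinEquiv (j, l))) * Polynomial.X)

/-- the `N`-tuple in which every `c_l` occurs `n` times -/
def cc {A : Type} {e : ℕ} (n : ℕ) (c : Fin e → A) (k : Fin (n * e)) : A :=
  c (finProdFinEquiv.symm k).2

/-- `x_0 = L`, `x_j = z_j - L` (`j = 1..n`). -/
noncomputable def vec {A : Type} [CommRing A] {n : ℕ} (L : Polynomial A)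
    (z : Fin n → Polynomial A) : Fin (n + 1) → Polynomial A :=
  Fin.cons L (fun j => z j - L)

/-- the toric form `∏_{j=1}^n (x_0 + x_j) - x_0^n` -/
noncomputable def tor (A : Type) [CommRing A] (n : ℕ) : MvPolynomial (Fin (n + 1)) A :=
  ∏ j : Fin n, (X 0 + X j.succ) - X 0 ^ n

/-- the pencil `tor + ζ F` -/
noncomputable def pen {Ω A : Type} [CommRing Ω] [CommRing A] [Algebra Ω A] {n : ℕ}
    (F : MvPolynomial (Fin (n + 1)) Ω) (ζ : A) : MvPolynomial (Fin (n + 1)) A :=
  tor A n + C ζ * map (algebraMap Ω A) F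

/-- the equations: coefficient of `t^{i+1}`, `i < n e`, of the pencil at the vector with unknown roots -/
noncomputable def eqn {Ω A : Type} [CommRing Ω] [CommRing A] [Algebra Ω A] {n e : ℕ}
    (F : MvPolynomial (Fin (n + 1)) Ω) (c : Fin e → Ω) (ζ : A) (i : Fin (n * e)) :
    MvPolynomial (Fin (n * e)) A :=
  Polynomial.coeff
    (aeval (R := A) (vec (Polynomial.map (algebraMap Ω (MvPolynomial (Fin (n * e)) A)) (lam c))
      (zed (fun s => (X s : MvPolynomial (Fin (n * e)) A)))) (pen F ζ)) (i.val + 1)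

/-- the equations of the toric fibre (up to sign elementary symmetric functions minus their values at `b`) -/
noncomputable def gt {A : Type} [CommRing A] {N : ℕ} (b : Fin N → A) (i : Fin N) :
    MvPolynomial (Fin N) A :=
  C ((-1) ^ (i.val + 1)) * esymm (Fin N) A (i.val + 1) -
    C ((-1) ^ (i.val + 1) * eval b (esymm (Fin N) A (i.val + 1)))

/-- the separating function `θ_r = ∑ r_{ji} (coeff_i z_j - coeff_i lam)` -/
noncomputable def theta {Ω A : Type} [CommRing Ω] [CommRing A] [Algebra Ω A] {n e : ℕ}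
    (c : Fin e → Ω) (r : Fin n → Fin (e + 1) → Ω) : MvPolynomial (Fin (n * e)) A :=
  ∑ j, ∑ i : Fin (e + 1), C (algebraMap Ω A (r j i)) *
    ((zed (fun s => (X s : MvPolynomial (Fin (n * e)) A)) j).coeff i.val -
      C (algebraMap Ω A ((lam c).coeff i.val)))

/-- the exponents `b` with `b j < N - j`: `N!` monomials -/
noncomputable def SB (N : ℕ) : Finset (Fin N →₀ ℕ) :=
  (Fintype.piFinset fun j : Fin N => Finset.range (N - j.val)).map
    Finsupp.equivFunOnFinite.symm.toEmbedding

theorem mem_SB {N : ℕ} {b : Fin N →₀ ℕ} : b ∈ SB N ↔ ∀ j, b j < N - j.val := by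
  unfold SB
  simp only [Finset.mem_map_equiv, Equiv.symm_symm, Fintype.mem_piFinset, Finset.mem_range]
  rfl

theorem card_SB (N : ℕ) : (SB N).card = N.factorial := by
  unfold SB
  rw [Finset.card_map, Fintype.card_piFinset]
  simp only [Finset.card_range]
  induction N with
  | zero => simp
  | succ N ih =>
    rw [Fin.prod_univ_succ, Nat.factorial_succ]
    congr 1
    rw [← ih]
    refine Finset.prod_congr rfl fun j _ => ?_
    simp

/-- `g_1, ..., g_N` (`g i` of degree `≤ i + 1`) behave as the elementary symmetric polynomials: the monomials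
with exponent in `B` generate modulo the `g i` with degree control, and are independent over `A[g]`. -/
structure Stair (N : ℕ) (A : Type) [CommRing A]
    (g : Fin N → MvPolynomial (Fin N) A) (B : Finset (Fin N →₀ ℕ)) : Prop where
  span : ∀ (D : ℕ) (f : MvPolynomial (Fin N) A), f.totalDegree ≤ D →
    ∃ (r : (Fin N →₀ ℕ) → A) (q : Fin N → MvPolynomial (Fin N) A),
      (∀ b, r b ≠ 0 → b.degree ≤ D) ∧
      (∀ i, q i ≠ 0 → (q i).totalDegree + (i.val + 1) ≤ D) ∧
      f = ∑ b ∈ B, monomial b (r b) + ∑ i, g i * q i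
  indep : ∀ p : (Fin N →₀ ℕ) → MvPolynomial (Fin N) A,
    ∑ b ∈ B, aeval g (p b) * monomial b (1 : A) = 0 → ∀ b ∈ B, p b = 0

/-- `M` is the matrix of the multiplication by `θ` on `A[a]/(g)` in the basis `B` -/
def IsMul {A : Type} [CommRing A] {N : ℕ} (g : Fin N → MvPolynomial (Fin N) A)
    (B : Finset (Fin N →₀ ℕ)) (θ : MvPolynomial (Fin N) A) (M : Matrix B B A) : Prop :=
  ∀ y : B, θ * monomial y.1 (1 : A) - ∑ x : B, C (M x y) * monomial x.1 (1 : A) ∈
    Ideal.span (Set.range g)

end Pool.Agent.LibSU9
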