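import Pool.Agent.LibSU9.A5
import Pool.Agent.LibSU9.A7
import Pool.Agent.LibSU9.B5
import Pool.Agent.LibSU9.C2
import Pool.Agent.LibSU9.C3
import Pool.Agent.LibSU9.C5
import Pool.Agent.LibSU9.D1
import Pool.Agent.LibSU9.D2
import Pool.Agent.LibSU9.D3
import Pool.Agent.LibSU9.D4
import Pool.Agent.LibSU9.D5
import Pool.Agent.LibSU9.D6

/-! [SU9 E1] assembly: the nontrivial solution over an extension of degree prime to `p`. -/

namespace Pool.Agent.LibSU9

open MvPolynomial

theorem exists_c (Ω : Type) [Field Ω] [Infinite Ω] (e : ℕ) :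
    ∃ c : Fin e → Ω, Function.Injective c ∧ ∀ l, c l ≠ 0 := by
  have : Infinite {x : Ω // x ≠ 0} := by
    have h : Set.Infinite {x : Ω | x ≠ 0} := by
      have := (Set.finite_singleton (0 : Ω)).infinite_compl
      exact this
    exact h.to_subtype
  obtain ⟨f⟩ : Nonempty (Fin e ↪ {x : Ω // x ≠ 0}) :=
    ⟨(Fin.valEmbedding).trans (Infinite.natEmbedding _)⟩
  exact ⟨fun l => (f l).1, fun a b h => f.injective (Subtype.ext h), fun l => (f l).2⟩

/-- multiplicity of `0` for a product of linear factors -/
theorem rootMult_prod {K ι : Type} [Field K] [Fintype ι] (f : ι → K) :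
    (∏ i, (Polynomial.X - Polynomial.C (f i))).rootMultiplicity 0 = Nat.card {i // f i = 0} := by
  classical
  rw [← Polynomial.count_roots, Polynomial.roots_prod _ _
    (Finset.prod_ne_zero_iff.2 fun i _ => Polynomial.X_sub_C_ne_zero _)]
  simp only [Polynomial.roots_X_sub_C]
  rw [Multiset.count_bind]
  simp only [Multiset.count_singleton, eq_comm (a := (0 : K))]
  rw [Nat.card_eq_fintype_card, Fintype.card_subtype]
  change (Finset.univ.sum fun i => if f i = 0 then 1 else 0) = _
  rw [Finset.sum_boole]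
  simp

end Pool.Agent.LibSU9
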