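import Pool.Agent.LibSU9.E1

/-! [SU9 E2] assembly: the charpoly of `θ` over the generic fibre has `0` as a root of multiplicity exactly
`(e!)^n (n!)^e`, and there is a nontrivial solution of degree prime to `p`. -/

namespace Pool.Agent.LibSU9

open MvPolynomial

theorem card_trivial {Ω : Type} [Field Ω] {n e : ℕ} (c : Fin e → Ω)
    (hc : Function.Injective c) (hc0 : ∀ l, c l ≠ 0) (r : Fin n → Fin (e + 1) → Ω)
    (hr : ∀ τ : Equiv.Perm (Fin (n * e)),
      eval (fun k => cc n c (τ k)) (theta (A := Ω) c r) = 0 →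
      ∀ j : Fin n, zed (fun k => cc n c (τ k)) j = lam c) :
    Nat.card {τ : Equiv.Perm (Fin (n * e)) //
      eval (fun k => cc n c (τ k)) (theta (A := Ω) c r) = 0} =
      e.factorial ^ n * n.factorial ^ e := by
  rw [← count n e]
  refine Nat.card_congr (Equiv.subtypeEquivRight fun τ => ?_)
  constructor
  · intro h j
    exact (zed_eq_lam_iff c hc hc0 τ j).1 (hr τ h j)
  · intro h
    rw [eval_theta]
    refine Finset.sum_eq_zero fun j _ => Finset.sum_eq_zero fun i _ => ?_
    rw [(zed_eq_lam_iff c hc hc0 τ j).2 (h j)]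
    simp

/-- the generic solution -/
theorem generic_solution {Ω : Type} [Field Ω] [Infinite Ω] (p : ℕ) [Fact p.Prime] {n e : ℕ}
    (hn : n < p) (he : e < p) (hne : p ≤ n * e)
    (F : MvPolynomial (Fin (n + 1)) Ω) (hF : F.IsHomogeneous n)
    (h0 : eval (Pi.single 0 1 : Fin (n + 1) → Ω) F = 0) :
    ∃ (c : Fin e → Ω) (K1 : Type) (_ : Field K1) (_ : Algebra (RatFunc Ω) K1)
      (a : Fin (n * e) → K1), Function.Injective c ∧ (∀ l, c l ≠ 0) ∧
      FiniteDimensional (RatFunc Ω) K1 ∧ ¬ p ∣ Module.finrank (RatFunc Ω) K1 ∧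
      (∀ i, aeval a (eqn F c (RatFunc.X : RatFunc Ω) i) = 0) ∧
      ∃ j, zed a j ≠ (lam c).map ((algebraMap (RatFunc Ω) K1).comp (RatFunc.C)) := by
  classical
  obtain ⟨c, hc, hc0⟩ := exists_c Ω e
  obtain ⟨r, hr⟩ := exists_r (n := n) c
  obtain ⟨R, _, _, _, _, _, _, _, z, π, hz, hπ, hπz⟩ := exists_R Ω
  have hst := stair_eqn π hπ z hπz (n := n) F c
  obtain ⟨M, hM⟩ := exists_isMul hst (theta (A := R) c r)
  -- over the fraction field
  have hstK := stair_frac (K := RatFunc Ω) _ hst
  have hMK := hM.map (algebraMap R (RatFunc Ω))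
  let φ : R →ₐ[Ω] RatFunc Ω := IsScalarTower.toAlgHom Ω R (RatFunc Ω)
  have hφ : (φ : R →+* RatFunc Ω) = algebraMap R (RatFunc Ω) := rfl
  have e1 : (fun i => map (algebraMap R (RatFunc Ω)) (eqn F c z i)) =
      eqn F c (RatFunc.X : RatFunc Ω) := by
    funext i
    rw [← hz]
    exact eqn_map φ F c z i
  have e2 : map (algebraMap R (RatFunc Ω)) (theta (A := R) c r) = theta (A := RatFunc Ω) c r :=
    theta_map φ c r
  rw [e1] at hstK hMK
  rw [e2] at hMK
  -- the special fibre
  have hMs := hM.map (π : R →+* Ω)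
  have e3 : (fun i => map (π : R →+* Ω) (eqn F c z i)) = gt (cc n c) := by
    funext i
    rw [eqn_map π F c z i, hπz, eqn_zero]
    rfl
  have e4 : map (π : R →+* Ω) (theta (A := R) c r) = theta (A := Ω) c r := theta_map π c r
  rw [e3, e4] at hMs
  have hch := toric_charpoly (cc n c) _ hMs
  -- multiplicities
  let L := AlgebraicClosure (RatFunc Ω)
  haveI : IsScalarTower R (RatFunc Ω) L := inferInstance
  haveI : IsScalarTower Ω R L := by
    refine IsScalarTower.of_algebraMap_eq fun x => ?_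
    rw [IsScalarTower.algebraMap_apply Ω (RatFunc Ω) L,
      IsScalarTower.algebraMap_apply Ω R (RatFunc Ω)]
    rfl
  have hinj : Function.Injective (algebraMap R L) := by
    intro x y h
    exact IsFractionRing.injective R (RatFunc Ω) ((algebraMap (RatFunc Ω) L).injective h)
  obtain ⟨O, hO, hm⟩ := exists_val hinj
  have key : ∀ ρ : L, Polynomial.aeval ρ M.charpoly = 0 → O.valuation ρ < 1 → ρ = 0 := by
    intro ρ hρ hv
    have hρ' : Polynomial.aeval ρ (M.map (algebraMap R (RatFunc Ω))).charpoly = 0 := by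
      rw [Matrix.charpoly_map]
      rw [Polynomial.aeval_map_algebraMap]
      exact hρ
    obtain ⟨a, ha, haθ⟩ := exists_point hstK hMK ρ hρ'
    have h1 : ∀ i, aeval a (eqn F c z i) = 0 := by
      intro i
      have := ha i
      rw [← congrFun e1 i] at this
      rwa [aeval_map_algebraMap] at this
    have h2 : aeval a (theta (A := R) c r) = ρ := by
      rw [← e2, aeval_map_algebraMap] at haθ
      exact haθ
    rw [← h2]
    rw [← h2] at hv
    exact small_theta π hπ z hπz O hO hm F hF h0 c hc hc0 r hr a h1 hv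
  have hmult := mult_lemma (K := RatFunc Ω) (L := L) (π : R →+* Ω) hπ O hO hm M.charpoly
    M.charpoly_monic key
  rw [← Matrix.charpoly_map, ← Matrix.charpoly_map] at hmult
  have hm0 : (M.map (algebraMap R (RatFunc Ω))).charpoly.rootMultiplicity 0 =
      e.factorial ^ n * n.factorial ^ e := by
    rw [hmult]
    have : (M.map (π : R →+* Ω)).charpoly = _ := hch
    rw [this, rootMult_prod]
    exact card_trivial c hc hc0 r hr
  -- a point of degree prime to p
  obtain ⟨hfin, hdim, hcp⟩ := IsMul.charpoly hstK hMK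
  have hpn : ¬ p ∣ Module.finrank (RatFunc Ω)
      (MvPolynomial (Fin (n * e)) (RatFunc Ω) ⧸ Ideal.span (Set.range (eqn F c RatFunc.X))) -
      (LinearMap.charpoly (LinearMap.mulLeft (RatFunc Ω)
        (Ideal.Quotient.mk (Ideal.span (Set.range (eqn F c (RatFunc.X : RatFunc Ω))))
          (theta (A := RatFunc Ω) c r)))).rootMultiplicity 0 := by
    rw [hcp, hm0, hdim, card_SB]
    have hp : p.Prime := Fact.out
    have hd : p ∣ (n * e).factorial := (Nat.Prime.dvd_factorial hp).2 hne
    have hnd : ¬ p ∣ e.factorial ^ n * n.factorial ^ e := by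
      intro h
      rcases (Nat.Prime.dvd_mul hp).1 h with h | h
      · exact absurd ((Nat.Prime.dvd_factorial hp).1 (hp.dvd_of_dvd_pow h)) (by omega)
      · exact absurd ((Nat.Prime.dvd_factorial hp).1 (hp.dvd_of_dvd_pow h)) (by omega)
    have hle : e.factorial ^ n * n.factorial ^ e ≤ (n * e).factorial := by
      have h1 := Nat.card_le_card_of_injective
        (fun τ : {τ : Equiv.Perm (Fin (n * e)) // ∀ j : Fin n, Function.Bijective
          (fun l : Fin e => (finProdFinEquiv.symm (τ (finProdFinEquiv (j, l)))).2)} => τ.1)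
        Subtype.val_injective
      rw [count, Nat.card_perm, Nat.card_eq_fintype_card, Fintype.card_fin] at h1
      exact h1
    intro h
    have h2 := (Nat.dvd_sub hd h)
    rw [Nat.sub_sub_self hle] at h2
    exact hnd h2
  haveI := hfin
  obtain ⟨I, hI, hθ, hpI⟩ := prime_point p Fact.out _ hpn
  letI : Field ((MvPolynomial (Fin (n * e)) (RatFunc Ω) ⧸
    Ideal.span (Set.range (eqn F c (RatFunc.X : RatFunc Ω)))) ⧸ I) := Ideal.Quotient.field I
  let J := Ideal.span (Set.range (eqn F c (RatFunc.X : RatFunc Ω)))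
  let a : Fin (n * e) → (MvPolynomial (Fin (n * e)) (RatFunc Ω) ⧸ J) ⧸ I :=
    fun k => Ideal.Quotient.mk I (Ideal.Quotient.mk J (X k))
  let ψ : MvPolynomial (Fin (n * e)) (RatFunc Ω) →ₐ[RatFunc Ω] (_ ⧸ I) :=
    (Ideal.Quotient.mkₐ (RatFunc Ω) I).comp (Ideal.Quotient.mkₐ (RatFunc Ω) J)
  have hψ : aeval a = ψ := by
    refine algHom_ext fun k => ?_
    rw [aeval_X]
    rfl
  refine ⟨c, _, inferInstance, inferInstance, a, hc, hc0, ?_, hpI, ?_, ?_⟩
  · exact Module.Finite.of_surjective (Ideal.Quotient.mkₐ (RatFunc Ω) I).toLinearMap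
      Ideal.Quotient.mk_surjective
  · intro i
    rw [hψ]
    change Ideal.Quotient.mk I (Ideal.Quotient.mk J (eqn F c RatFunc.X i)) = 0
    have : Ideal.Quotient.mk J (eqn F c (RatFunc.X : RatFunc Ω) i) = 0 :=
      Ideal.Quotient.eq_zero_iff_mem.2 (Ideal.subset_span ⟨i, rfl⟩)
    rw [this, map_zero]
  · by_contra hcon
    push_neg at hcon
    apply hθ
    rw [← Ideal.Quotient.eq_zero_iff_mem]
    change ψ (theta c r) = 0
    rw [← hψ]
    haveI : IsScalarTower Ω (RatFunc Ω) ((MvPolynomial (Fin (n * e)) (RatFunc Ω) ⧸ J) ⧸ I) :=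
      inferInstance
    have h5 : aeval a (theta (A := RatFunc Ω) c r) =
        eval a (theta (A := (MvPolynomial (Fin (n * e)) (RatFunc Ω) ⧸ J) ⧸ I) c r) := by
      rw [← theta_map (IsScalarTower.toAlgHom Ω (RatFunc Ω)
        ((MvPolynomial (Fin (n * e)) (RatFunc Ω) ⧸ J) ⧸ I)) c r, eval_map]
      rfl
    rw [h5, eval_theta]
    refine Finset.sum_eq_zero fun j _ => Finset.sum_eq_zero fun i _ => ?_
    rw [hcon j, Polynomial.coeff_map]
    have : algebraMap Ω ((MvPolynomial (Fin (n * e)) (RatFunc Ω) ⧸ J) ⧸ I) =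
      (algebraMap (RatFunc Ω) ((MvPolynomial (Fin (n * e)) (RatFunc Ω) ⧸ J) ⧸ I)).comp
        (RatFunc.C) := by
      ext x
      rw [IsScalarTower.algebraMap_apply Ω (RatFunc Ω)
        ((MvPolynomial (Fin (n * e)) (RatFunc Ω) ⧸ J) ⧸ I)]
      rfl
    rw [this, sub_self, mul_zero]

end Pool.Agent.LibSU9
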