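import Pool.Agent.LibSU9.E2

/-! [SU9 E3] assembly: rational curves of degree `≤ e` through every zero, over an extension of degree prime to `p`. -/

namespace Pool.Agent.LibSU9

open MvPolynomial

theorem map_aeval_poly {A B : Type} [CommRing A] [CommRing B] (φ : A →+* B) {m : ℕ}
    (x : Fin m → Polynomial A) (P : MvPolynomial (Fin m) A) :
    Polynomial.map φ (aeval x P) = aeval (fun i => (x i).map φ) (map φ P) := by
  induction P using MvPolynomial.induction_on with
  | C a => simp
  | add p q hp hq => simp [hp, hq]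
  | mul_X p i hp => simp [hp]

/-- the curve through `e_0` -/
theorem curve_e0 {Ω : Type} [Field Ω] [Infinite Ω] (p : ℕ) [Fact p.Prime] [CharP Ω p] {n e : ℕ}
    (hn : n < p) (he : e < p) (hne : p ≤ n * e)
    (F : MvPolynomial (Fin (n + 1)) Ω) (hF : F.IsHomogeneous n)
    (h0 : eval (Pi.single 0 1 : Fin (n + 1) → Ω) F = 0) :
    ∃ (κ : Type) (_ : Field κ) (_ : Algebra Ω κ), FiniteDimensional Ω κ ∧
      ¬ p ∣ Module.finrank Ω κ ∧
      ∃ (L : Polynomial κ) (γ : Fin n → Polynomial κ), L.natDegree ≤ e ∧ L.coeff 0 = 1 ∧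
        (∀ j, (γ j).natDegree ≤ e ∧ (γ j).coeff 0 = 0) ∧ (∃ j, γ j ≠ 0) ∧
        aeval (R := Ω) (Fin.cons L γ : Fin (n + 1) → Polynomial κ) F = 0 := by
  classical
  obtain ⟨c, K1, _, _, a, hc, hc0, hfin, hpK, ha, hnt⟩ := generic_solution p hn he hne F hF h0
  obtain ⟨O, _, _, _, _, _, _, κ, _, _, π, η, hπ, hκ, hpκ, hΩ, hη, hπη⟩ := place p hpK
  letI : Algebra Ω K1 := ((algebraMap (RatFunc Ω) K1).comp (RatFunc.C)).toAlgebra
  haveI : IsScalarTower Ω (RatFunc Ω) K1 := IsScalarTower.of_algebraMap_eq fun _ => rfl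
  haveI : IsScalarTower Ω O K1 := IsScalarTower.of_algebraMap_eq fun x => (hΩ x).symm
  set ζ : K1 := algebraMap (RatFunc Ω) K1 RatFunc.X with hζ
  -- the polynomial identity over K1
  have h1 : ∀ i, eval a (eqn F c ζ i) = 0 := by
    intro i
    have := ha i
    have hζ' : ζ = (IsScalarTower.toAlgHom Ω (RatFunc Ω) K1) RatFunc.X := rfl
    rw [hζ', ← eqn_map (IsScalarTower.toAlgHom Ω (RatFunc Ω) K1) F c RatFunc.X i, eval_map]
    exact this
  have h2 := sol_of_eqn F hF h0 c ζ a h1
  set v : Fin n → Polynomial K1 := fun j => zed a j - (lam c).map (algebraMap Ω K1) with hv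
  have h3 : aeval (R := K1) (Fin.cons ((lam c).map (algebraMap Ω K1)) v :
      Fin (n + 1) → Polynomial K1)
      (C (algebraMap O K1 η) * tor K1 n + map (algebraMap Ω K1) F) = 0 := by
    have h4 : C (algebraMap O K1 η) * tor K1 n + map (algebraMap Ω K1) F =
        C (algebraMap O K1 η) * pen F ζ := by
      rw [pen, mul_add, ← mul_assoc, ← C_mul, hη, C_1, one_mul]
    rw [h4, map_mul]
    have h5 : (Fin.cons ((lam c).map (algebraMap Ω K1)) v : Fin (n + 1) → Polynomial K1) =
      vec ((lam c).map (algebraMap Ω K1)) (zed a) := rfl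
    rw [h5, h2, mul_zero]
  have hdeg : ∀ j, (v j).natDegree ≤ e := by
    intro j
    refine (Polynomial.natDegree_sub_le _ _).trans (max_le (zed_degree a j) ?_)
    exact (Polynomial.natDegree_map_le).trans (lam_degree c)
  have hv0 : ∀ j, (v j).coeff 0 = 0 := by
    intro j
    simp only [hv, Polynomial.coeff_sub, zed_coeff_zero, Polynomial.coeff_map, lam_coeff_zero,
      map_one, sub_self]
  have hvn : ∃ j, v j ≠ 0 := by
    obtain ⟨j, hj⟩ := hnt
    exact ⟨j, fun h => hj (sub_eq_zero.1 h)⟩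
  refine ⟨κ, inferInstance, inferInstance, hκ, hpκ, ?_⟩
  by_cases hint : ∃ j i, (v j).coeff i ∉ Set.range (algebraMap O K1)
  · exact limit_frac π hπ η hπη F hF c v hdeg hv0 hint h3
  · push_neg at hint
    have hlift : ∀ j, ∃ q : Polynomial O, q.map (algebraMap O K1) = v j := by
      intro j
      have : v j ∈ Polynomial.lifts (algebraMap O K1) := by
        rw [Polynomial.lifts_iff_coeff_lifts]
        exact hint j
      obtain ⟨q, hq⟩ := this
      exact ⟨q, hq⟩
    choose w hw using hlift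
    have hinj : Function.Injective (Polynomial.map (algebraMap O K1)) :=
      Polynomial.map_injective _ (IsFractionRing.injective O K1)
    have hwdeg : ∀ j, (w j).natDegree ≤ e := by
      intro j
      have h6 := hdeg j
      rw [← hw j, Polynomial.natDegree_map_eq_of_injective (IsFractionRing.injective O K1)] at h6
      exact h6
    have hw0 : ∀ j, (w j).coeff 0 = 0 := by
      intro j
      apply IsFractionRing.injective O K1
      rw [← Polynomial.coeff_map, hw j, hv0, map_zero]
    have hwn : ∃ j, w j ≠ 0 := by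
      obtain ⟨j, hj⟩ := hvn
      refine ⟨j, fun h => hj ?_⟩
      rw [← hw j, h, Polynomial.map_zero]
    refine limit_int π hπ η hπη F hF c hc hc0 w hwdeg hw0 hwn ?_
    apply hinj
    rw [Polynomial.map_zero, ← h3]
    have h7 : (Fin.cons ((lam c).map (algebraMap Ω K1)) v : Fin (n + 1) → Polynomial K1) =
        fun i => Polynomial.map (algebraMap O K1)
          ((Fin.cons ((lam c).map (algebraMap Ω O)) w : Fin (n + 1) → Polynomial O) i) := by
      funext i
      refine Fin.cases ?_ (fun j => ?_) i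
      · simp only [Fin.cons_zero]
        rw [Polynomial.map_map, ← IsScalarTower.algebraMap_eq]
      · simp only [Fin.cons_succ]
        exact (hw j).symm
    have h8 : C (algebraMap O K1 η) * tor K1 n + map (algebraMap Ω K1) F =
        map (algebraMap O K1) (C η * tor O n + map (algebraMap Ω O) F) := by
      rw [map_add, map_mul, map_C, map_map, ← IsScalarTower.algebraMap_eq]
      congr 2
      simp [tor, map_sub, map_pow, map_prod]
    rw [h7, h8, map_aeval_poly]

/-- THEOREM (A) -/
theorem curve_all {Ω : Type} [Field Ω] [Infinite Ω] (p : ℕ) [Fact p.Prime] [CharP Ω p] {n e : ℕ}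
    (hn : n < p) (he : e < p) (hne : p ≤ n * e)
    (F : MvPolynomial (Fin (n + 1)) Ω) (hF : F.IsHomogeneous n) (y : Fin (n + 1) → Ω)
    (hy : y ≠ 0) (h0 : eval y F = 0) :
    ∃ (κ : Type) (_ : Field κ) (_ : Algebra Ω κ), FiniteDimensional Ω κ ∧
      ¬ p ∣ Module.finrank Ω κ ∧
      ∃ γ : Fin (n + 1) → Polynomial κ, (∀ i, (γ i).natDegree ≤ e) ∧
        (∀ i, (γ i).coeff 0 = algebraMap Ω κ (y i)) ∧ aeval (R := Ω) γ F = 0 ∧
        ¬ ∃ l : Polynomial κ, ∀ i, γ i = l * Polynomial.C (algebraMap Ω κ (y i)) :=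
  coords p (fun F hF h0 => curve_e0 p hn he hne F hF h0) F hF y hy h0

end Pool.Agent.LibSU9
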