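import Pool.Agent.LibSU9.E3
import Pool.Agent.LibSU9.D7

/-! [SU9 E4] assembly: the generic point of an integral hypersurface. -/

namespace Pool.Agent.LibSU9

open MvPolynomial

theorem ceil_bounds {p n : ℕ} (h2 : 2 ≤ n) (hn : n < p) :
    (p + n - 1) / n < p ∧ p ≤ n * ((p + n - 1) / n) := by
  constructor
  · rw [Nat.div_lt_iff_lt_mul (by omega)]
    have h3 : p * 2 ≤ p * n := Nat.mul_le_mul_left p h2
    omega
  · have h := Nat.div_add_mod (p + n - 1) n
    have h3 : (p + n - 1) % n < n := Nat.mod_lt _ (by omega)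
    omega

section

variable {K : Type} [Field K] {n : ℕ} (F : MvPolynomial (Fin (n + 1)) K)

/-- a variable is not in the ideal of a form of degree at least two -/
theorem X_notMem (h2 : 2 ≤ n) (hF : F.IsHomogeneous n) (i : Fin (n + 1)) :
    (X i : MvPolynomial (Fin (n + 1)) K) ∉ Ideal.span {F} := by
  intro h
  rw [Ideal.mem_span_singleton] at h
  obtain ⟨G, hG⟩ := h
  have hX : (X i : MvPolynomial (Fin (n + 1)) K) ≠ 0 := X_ne_zero i
  have hF0 : F ≠ 0 := by
    rintro rfl
    rw [zero_mul] at hG
    exact hX hG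
  have hG0 : G ≠ 0 := by
    rintro rfl
    rw [mul_zero] at hG
    exact hX hG
  have h1 : (X i : MvPolynomial (Fin (n + 1)) K).totalDegree = F.totalDegree + G.totalDegree := by
    rw [hG, totalDegree_mul_of_isDomain hF0 hG0]
  rw [totalDegree_X, hF.totalDegree hF0] at h1
  omega

/-- powers of a variable are different modulo a form of degree at least two -/
theorem quot_infinite (h2 : 2 ≤ n) (hF : F.IsHomogeneous n) [hP : (Ideal.span {F}).IsPrime] :
    Infinite (MvPolynomial (Fin (n + 1)) K ⧸ Ideal.span {F}) := by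
  refine Infinite.of_injective
    (fun m : ℕ => Ideal.Quotient.mk (Ideal.span {F}) ((X 0 : MvPolynomial (Fin (n + 1)) K) ^ m)) ?_
  intro a b hab
  by_contra hne
  wlog hlt : a < b generalizing a b
  · exact this hab.symm (Ne.symm hne) (by omega)
  simp only at hab
  rw [Ideal.Quotient.eq] at hab
  have h3 : ((X 0 : MvPolynomial (Fin (n + 1)) K) ^ a) ∈ Ideal.span {F} := by
    -- homogeneous component of degree a
    rw [Ideal.mem_span_singleton] at hab ⊢
    obtain ⟨G, hG⟩ := hab
    have h4 := congrArg (homogeneousComponent a) hG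
    rw [map_sub, homogeneousComponent_of_mem ((mem_homogeneousSubmodule _ _).2
      ((isHomogeneous_X K (0 : Fin (n + 1))).pow a)), homogeneousComponent_of_mem
      ((mem_homogeneousSubmodule _ _).2 ((isHomogeneous_X K (0 : Fin (n + 1))).pow b))] at h4
    rw [if_pos (by ring), if_neg (by omega), sub_zero] at h4
    by_cases han : n ≤ a
    · obtain ⟨c, rfl⟩ := Nat.exists_eq_add_of_le han
      refine ⟨homogeneousComponent c G, ?_⟩
      rw [h4]
      conv_lhs => rw [← sum_homogeneousComponent G]
      rw [Finset.mul_sum, map_sum]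
      have h5 : ∀ i ∈ Finset.range (G.totalDegree + 1),
          homogeneousComponent (n + c) (F * homogeneousComponent i G) =
            if i = c then F * homogeneousComponent c G else 0 := by
        intro i _
        rw [homogeneousComponent_of_mem ((mem_homogeneousSubmodule _ _).2
          (hF.mul (homogeneousComponent_isHomogeneous i G)))]
        by_cases hic : i = c
        · subst hic
          simp
        · rw [if_neg (by omega), if_neg hic]
      rw [Finset.sum_congr rfl h5, Finset.sum_ite_eq']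
      split_ifs with h6
      · rfl
      · rw [homogeneousComponent_eq_zero _ _ (by
          rw [Finset.mem_range] at h6
          omega), mul_zero]
    · exfalso
      have h6 : homogeneousComponent a (F * G) = 0 := by
        conv_lhs => rw [← sum_homogeneousComponent G]
        rw [Finset.mul_sum, map_sum]
        refine Finset.sum_eq_zero fun i _ => ?_
        rw [homogeneousComponent_of_mem ((mem_homogeneousSubmodule _ _).2
          (hF.mul (homogeneousComponent_isHomogeneous i G))), if_neg (by omega)]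
      rw [h6] at h4
      exact pow_ne_zero a (X_ne_zero (0 : Fin (n + 1))) h4
  exact X_notMem F h2 hF 0 (hP.mem_of_pow_mem a h3)

end

/-- the generic point lies on a free rational curve -/
theorem generic_free {K : Type} [Field K] (p : ℕ) [Fact p.Prime] [CharP K p] {n : ℕ} (h2 : 2 ≤ n)
    (hn : n < p) (F : MvPolynomial (Fin (n + 1)) K) (hF : F.IsHomogeneous n)
    [hP : (Ideal.span {F}).IsPrime] :
    ∃ (κ : Type) (_ : Field κ)
      (_ : Algebra (FractionRing (MvPolynomial (Fin (n + 1)) K ⧸ Ideal.span {F})) κ),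
      FiniteDimensional (FractionRing (MvPolynomial (Fin (n + 1)) K ⧸ Ideal.span {F})) κ ∧
      ¬ p ∣ Module.finrank (FractionRing (MvPolynomial (Fin (n + 1)) K ⧸ Ideal.span {F})) κ ∧
      ∃ (ι : K →+* κ) (y : Fin (n + 1) → κ) (γ : Fin (n + 1) → Polynomial κ),
        (∀ a, ι a = algebraMap (FractionRing (MvPolynomial (Fin (n + 1)) K ⧸ Ideal.span {F})) κ
          (algebraMap (MvPolynomial (Fin (n + 1)) K ⧸ Ideal.span {F}) _
            (Ideal.Quotient.mk _ (C a)))) ∧
        (∀ i, y i = algebraMap (FractionRing (MvPolynomial (Fin (n + 1)) K ⧸ Ideal.span {F})) κ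
          (algebraMap (MvPolynomial (Fin (n + 1)) K ⧸ Ideal.span {F}) _
            (Ideal.Quotient.mk _ (X i)))) ∧
        (∀ i, (γ i).natDegree ≤ (p + n - 1) / n) ∧ (∀ i, (γ i).coeff 0 = y i) ∧
        eval₂ (Polynomial.C.comp ι) γ F = 0 ∧
        (¬ ∃ l : Polynomial κ, ∀ i, γ i = l * Polynomial.C (y i)) ∧
        ∀ w : Fin (n + 1) → κ, ∑ i, eval₂ ι y (pderiv i F) * w i = 0 →
          ∃ δ : Fin (n + 1) → Polynomial κ, (∀ i, (δ i).natDegree ≤ (p + n - 1) / n) ∧
            (∀ i, (δ i).coeff 0 = w i) ∧
            ∑ i, eval₂ (Polynomial.C.comp ι) γ (pderiv i F) * δ i = 0 := by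
  classical
  obtain ⟨he, hne⟩ := ceil_bounds h2 hn
  let S := MvPolynomial (Fin (n + 1)) K ⧸ Ideal.span {F}
  let Ω := FractionRing S
  have : Infinite S := quot_infinite F h2 hF
  have : Infinite Ω := Infinite.of_injective _ (IsFractionRing.injective S Ω)
  let j : K →+* Ω := (algebraMap S Ω).comp ((Ideal.Quotient.mk (Ideal.span {F})).comp C)
  have : CharP Ω p := charP_of_injective_ringHom j.injective p
  let y0 : Fin (n + 1) → Ω := fun i => algebraMap S Ω (Ideal.Quotient.mk _ (X i))
  have hev : ∀ G : MvPolynomial (Fin (n + 1)) K,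
      eval₂ j y0 G = algebraMap S Ω (Ideal.Quotient.mk _ G) := by
    intro G
    induction G using MvPolynomial.induction_on with
    | C a => simp [j]
    | add p q hp hq => simp [hp, hq]
    | mul_X p i hp => simp [hp, y0]
  have hy0 : y0 ≠ 0 := by
    intro h
    have h1 := congrFun h 0
    have h2' : Ideal.Quotient.mk (Ideal.span {F}) (X 0 : MvPolynomial (Fin (n + 1)) K) = 0 := by
      apply IsFractionRing.injective S Ω
      rw [map_zero]
      exact h1
    exact X_notMem F h2 hF 0 (Ideal.Quotient.eq_zero_iff_mem.1 h2')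
  have hF0 : eval y0 (map j F) = 0 := by
    rw [eval_map, hev, Ideal.Quotient.eq_zero_iff_mem.2 (Ideal.mem_span_singleton_self F), map_zero]
  obtain ⟨κ, _, _, hfin, hpκ, γ, hdeg, hγ0, hγ, hnt⟩ :=
    curve_all p hn he hne (map j F) (hF.map j) y0 hy0 hF0
  refine ⟨κ, inferInstance, inferInstance, hfin, hpκ, (algebraMap Ω κ).comp j,
    fun i => algebraMap Ω κ (y0 i), γ, fun a => rfl, fun i => rfl, hdeg, hγ0, ?_, hnt, ?_⟩
  · rw [aeval_def, eval₂_map] at hγ
    exact hγ
  · intro w hw
    refine free_lift p F hpκ (fun i => algebraMap Ω κ (y0 i)) (fun i => rfl)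
      ((algebraMap Ω κ).comp j) (fun a => rfl) γ hdeg hγ0 ?_ w hw
    rw [aeval_def, eval₂_map] at hγ
    exact hγ

end Pool.Agent.LibSU9
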